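import Pool.Agent.H95.NE.Game

/-!
Stationary strategies: almost sure absorption; a union bound; exchanging the players.
-/

set_option autoImplicit false

open Finset Relation

namespace Pool.Agent.H95.NE

theorem Mix.exists_pos {A : Type*} {F : Finset A} {x : A → ℝ} (hx : Mix F x) :
    ∃ a ∈ F, 0 < x a := by
  by_contra h
  push Not at h
  have := Finset.sum_nonpos h
  rw [hx.2] at this
  linarith

/-- Equality in an average. -/
theorem dsum_eq {A B : Type*} {F : Finset A} {E : Finset B} {x : A → ℝ} {y : B → ℝ} (hx : Mix F x)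
    (hy : Mix E y) {f : A → B → ℝ} {c : ℝ}
    (h : ∀ a ∈ F, ∀ b ∈ E, 0 < x a → 0 < y b → f a b ≤ c)
    (h' : c ≤ ∑ a ∈ F, ∑ b ∈ E, x a * y b * f a b) {a : A} (ha : a ∈ F) {b : B} (hb : b ∈ E)
    (hxa : 0 < x a) (hyb : 0 < y b) : f a b = c := by
  by_contra hne
  have hlt : f a b < c := lt_of_le_of_ne (h a ha b hb hxa hyb) hne
  have hle : ∀ a ∈ F, ∀ b ∈ E, x a * y b * f a b ≤ x a * y b * c := by
    intro a ha b hb
    rcases (hx.1 a ha).lt_or_eq with h1 | h1
    · rcases (hy.1 b hb).lt_or_eq with h2 | h2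
      · exact mul_le_mul_of_nonneg_left (h a ha b hb h1 h2) (mul_pos h1 h2).le
      · rw [← h2]; simp
    · rw [← h1]; simp
  have h1 : ∑ a ∈ F, ∑ b ∈ E, x a * y b * f a b < ∑ a ∈ F, ∑ b ∈ E, x a * y b * c := by
    refine Finset.sum_lt_sum (fun a ha => Finset.sum_le_sum fun b hb => hle a ha b hb)
      ⟨a, ha, Finset.sum_lt_sum (fun b hb => hle a ha b hb)
        ⟨b, hb, mul_lt_mul_of_pos_left hlt (mul_pos hxa hyb)⟩⟩
  have h2 : ∑ a ∈ F, ∑ b ∈ E, x a * y b * c = c := by
    rw [Game.dsum x y fun _ _ => c]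
    rw [Finset.sum_congr rfl fun a _ => by rw [← Finset.sum_mul, hy.2, one_mul],
      ← Finset.sum_mul, hx.2, one_mul]
  linarith

theorem dsum_eq' {A B : Type*} {F : Finset A} {E : Finset B} {x : A → ℝ} {y : B → ℝ} (hx : Mix F x)
    (hy : Mix E y) {f : A → B → ℝ} {c : ℝ}
    (h : ∀ a ∈ F, ∀ b ∈ E, 0 < x a → 0 < y b → c ≤ f a b)
    (h' : ∑ a ∈ F, ∑ b ∈ E, x a * y b * f a b ≤ c) {a : A} (ha : a ∈ F) {b : B} (hb : b ∈ E)
    (hxa : 0 < x a) (hyb : 0 < y b) : f a b = c := by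
  have := dsum_eq hx hy (f := fun a b => - f a b) (c := -c)
    (fun a ha b hb h1 h2 => neg_le_neg (h a ha b hb h1 h2)) (by
      simp only [mul_neg, Finset.sum_neg_distrib]
      linarith) ha hb hxa hyb
  linarith

theorem exists_gap {A : Type*} (F : Finset A) (P : A → Prop) (φ : A → ℝ) (M : ℝ)
    (h : ∀ a ∈ F, P a → φ a < M) : ∃ η > 0, ∀ a ∈ F, P a → φ a ≤ M - η := by
  classical
  induction F using Finset.induction_on with
  | empty => exact ⟨1, one_pos, fun a ha => absurd ha (Finset.notMem_empty a)⟩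
  | insert a F _ ih =>
    obtain ⟨η, h1, h2⟩ := ih fun b hb => h b (Finset.mem_insert_of_mem hb)
    by_cases hP : P a
    · have h3 := h a (Finset.mem_insert_self a F) hP
      refine ⟨min η (M - φ a), lt_min h1 (by linarith), fun b hb hPb => ?_⟩
      rcases Finset.mem_insert.1 hb with rfl | hb
      · have := min_le_right η (M - φ b); linarith
      · have := min_le_left η (M - φ a)
        have := h2 b hb hPb
        linarith
    · refine ⟨η, h1, fun b hb hPb => ?_⟩
      rcases Finset.mem_insert.1 hb with rfl | hb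
      · exact absurd hPb hP
      · exact h2 b hb hPb

namespace Game

variable {S A B : Type*} (G : Game S A B)

open scoped Classical in
/-- The probability to reach `T` within `n` stages if both players use stationary strategies. -/
noncomputable def mp (T : Set S) (x : S → A → ℝ) (y : S → B → ℝ) : ℕ → S → ℝ
  | 0, s => if s ∈ T then 1 else 0
  | n + 1, s => if s ∈ T then 1 else
      ∑ a ∈ G.act₁ s, ∑ b ∈ G.act₂ s, x s a * y s b * mp T x y n (G.δ s a b)

/-- A move of positive probability. -/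
def PStep (x : S → A → ℝ) (y : S → B → ℝ) (s s' : S) : Prop :=
  ∃ a ∈ G.act₁ s, ∃ b ∈ G.act₂ s, 0 < x s a ∧ 0 < y s b ∧ G.δ s a b = s'

variable {G} {T : Set S} {s₀ : S} {x : S → A → ℝ} {y : S → B → ℝ}

theorem mp_mem {s : S} (hs : s ∈ T) (n : ℕ) : G.mp T x y n s = 1 := by
  cases n <;> simp [mp, hs]

theorem mp_zero {s : S} (hs : s ∉ T) : G.mp T x y 0 s = 0 := by simp [mp, hs]

theorem mp_succ {s : S} (hs : s ∉ T) (n : ℕ) : G.mp T x y (n + 1) s =
    ∑ a ∈ G.act₁ s, ∑ b ∈ G.act₂ s, x s a * y s b * G.mp T x y n (G.δ s a b) := by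
  simp [mp, hs]

theorem prob_stat (n : ℕ) : ∀ h, G.prob T s₀ (fun h => x (G.st s₀ h)) (fun h => y (G.st s₀ h)) n h =
    G.mp T x y n (G.st s₀ h) := by
  induction n with
  | zero =>
    intro h
    by_cases hh : G.st s₀ h ∈ T
    · rw [prob_mem hh, mp_mem hh]
    · rw [prob_zero' hh, mp_zero hh]
  | succ n ih =>
    intro h
    by_cases hh : G.st s₀ h ∈ T
    · rw [prob_mem hh, mp_mem hh]
    · rw [prob_succ hh, mp_succ hh]
      refine Finset.sum_congr rfl fun a _ => Finset.sum_congr rfl fun b _ => ?_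
      rw [ih]
      rfl

theorem mp_eq_prob (n : ℕ) (s : S) : G.mp T x y n s =
    G.prob T s (fun h => x (G.st s h)) (fun h => y (G.st s h)) n [] := by
  rw [prob_stat]; rfl

/-- Almost sure absorption. -/
theorem as_reach [Finite S] (hx : ∀ s, Mix (G.act₁ s) (x s)) (hy : ∀ s, Mix (G.act₂ s) (y s))
    {X : Set S} (hX : ∀ s ∈ X, s ∉ T → ∀ s', G.PStep x y s s' → s' ∈ X)
    (hT : ∀ s ∈ X, ∃ t ∈ T, ReflTransGen (G.PStep x y) s t) (hs₀ : s₀ ∈ X) :
    G.pay T s₀ (fun h => x (G.st s₀ h)) (fun h => y (G.st s₀ h)) = 1 := by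
  classical
  set g : S → ℝ := fun s => G.pay T s (fun h => x (G.st s h)) (fun h => y (G.st s h)) with hg
  have S1 : ∀ s, G.Strat₁ s (fun h => x (G.st s h)) := fun s h => hx _
  have S2 : ∀ s, G.Strat₂ s (fun h => y (G.st s h)) := fun s h => hy _
  have hg' : ∀ s, g s = ⨆ n, G.mp T x y n s := by
    intro s
    simp only [hg, pay, mp_eq_prob]
  have hmono : ∀ s, Monotone fun n => G.mp T x y n s := by
    intro s
    refine monotone_nat_of_le_succ fun n => ?_
    rw [mp_eq_prob, mp_eq_prob]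
    exact prob_mono_succ (S1 s) (S2 s) n []
  have hbd : ∀ s, BddAbove (Set.range fun n => G.mp T x y n s) := by
    intro s
    refine ⟨1, ?_⟩
    rintro _ ⟨n, rfl⟩
    simp only
    rw [mp_eq_prob]
    exact prob_le_one (S1 s) (S2 s) n []
  have hlim : ∀ s, Filter.Tendsto (fun n => G.mp T x y n s) Filter.atTop (nhds (g s)) := by
    intro s
    rw [hg']
    exact tendsto_atTop_ciSup (hmono s) (hbd s)
  have hT1 : ∀ s ∈ T, g s = 1 := by
    intro s hs
    rw [hg']
    simp only [mp_mem hs, ciSup_const]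
  have hfix : ∀ s, s ∉ T → ∑ a ∈ G.act₁ s, ∑ b ∈ G.act₂ s, x s a * y s b * g (G.δ s a b) = g s := by
    intro s hs
    have h1 : Filter.Tendsto (fun n => G.mp T x y (n + 1) s) Filter.atTop (nhds (g s)) :=
      (hlim s).comp (Filter.tendsto_add_atTop_nat 1)
    have h2 : Filter.Tendsto (fun n => G.mp T x y (n + 1) s) Filter.atTop
        (nhds (∑ a ∈ G.act₁ s, ∑ b ∈ G.act₂ s, x s a * y s b * g (G.δ s a b))) := by
      simp only [mp_succ hs]
      exact tendsto_finsetSum _ fun a _ => tendsto_finsetSum _ fun b _ =>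
        (hlim _).const_mul _
    exact tendsto_nhds_unique h2 h1
  obtain ⟨s₁, hs₁, hmin⟩ := Set.exists_min_image X g (Set.toFinite X) ⟨s₀, hs₀⟩
  have key : ∀ t, ReflTransGen (G.PStep x y) s₁ t → (t ∈ X ∧ g t = g s₁) ∨ ∃ u ∈ T, g u = g s₁ := by
    intro t ht
    induction ht with
    | refl => exact Or.inl ⟨hs₁, rfl⟩
    | @tail t t' _ hstep ih =>
      rcases ih with ⟨htX, hgt⟩ | h
      · by_cases htT : t ∈ T
        · exact Or.inr ⟨t, htT, hgt⟩
        · left
          refine ⟨hX t htX htT t' hstep, ?_⟩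
          obtain ⟨a, ha, b, hb, hxa, hyb, rfl⟩ := hstep
          refine dsum_eq' (hx t) (hy t) (f := fun a b => g (G.δ t a b)) (c := g s₁)
            (fun a ha b hb h1 h2 => hmin _ (hX t htX htT _ ⟨a, ha, b, hb, h1, h2, rfl⟩)) ?_
            ha hb hxa hyb
          rw [hfix t htT, hgt]
      · exact Or.inr h
  obtain ⟨t, htT, ht⟩ := hT s₁ hs₁
  have h1 : g s₁ = 1 := by
    rcases key t ht with ⟨_, h⟩ | ⟨u, hu, h⟩
    · rw [← h]; exact hT1 t htT
    · rw [← h]; exact hT1 u hu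
  refine le_antisymm (pay_le_one (S1 s₀) (S2 s₀)) ?_
  have := hmin s₀ hs₀
  rw [h1] at this
  exact this

theorem union_bound {T₁ T₂ : Set S} {σ : List (A × B) → A → ℝ} {τ : List (A × B) → B → ℝ}
    (hσ : G.Strat₁ s₀ σ) (hτ : G.Strat₂ s₀ τ) (n : ℕ) : ∀ h,
    G.prob (T₁ ∪ T₂) s₀ σ τ n h ≤ G.prob T₁ s₀ σ τ n h + G.prob T₂ s₀ σ τ n h := by
  induction n with
  | zero =>
    intro h
    by_cases h1 : G.st s₀ h ∈ T₁
    · rw [prob_mem (T := T₁ ∪ T₂) (Or.inl h1), prob_mem h1]
      have := prob_nonneg (T := T₂) hσ hτ 0 h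
      linarith
    · by_cases h2 : G.st s₀ h ∈ T₂
      · rw [prob_mem (T := T₁ ∪ T₂) (Or.inr h2), prob_mem h2]
        have := prob_nonneg (T := T₁) hσ hτ 0 h
        linarith
      · rw [prob_zero' (T := T₁ ∪ T₂) (fun h => h.elim h1 h2), prob_zero' h1, prob_zero' h2]
        norm_num
  | succ n ih =>
    intro h
    by_cases h1 : G.st s₀ h ∈ T₁
    · rw [prob_mem (T := T₁ ∪ T₂) (Or.inl h1), prob_mem h1]
      have := prob_nonneg (T := T₂) hσ hτ (n + 1) h
      linarith
    · by_cases h2 : G.st s₀ h ∈ T₂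
      · rw [prob_mem (T := T₁ ∪ T₂) (Or.inr h2), prob_mem h2]
        have := prob_nonneg (T := T₁) hσ hτ (n + 1) h
        linarith
      · rw [prob_succ (T := T₁ ∪ T₂) (fun h => h.elim h1 h2), prob_succ h1, prob_succ h2]
        refine (dsum_le (hσ h).1 (hτ h).1 fun a _ b _ => ih ((a, b) :: h)).trans (le_of_eq ?_)
        simp only [mul_add, Finset.sum_add_distrib]

theorem pay_union {T₁ T₂ : Set S} {σ : List (A × B) → A → ℝ} {τ : List (A × B) → B → ℝ}
    (hσ : G.Strat₁ s₀ σ) (hτ : G.Strat₂ s₀ τ) :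
    G.pay (T₁ ∪ T₂) s₀ σ τ ≤ G.pay T₁ s₀ σ τ + G.pay T₂ s₀ σ τ :=
  pay_le fun n => (union_bound hσ hτ n []).trans
    (add_le_add (prob_le_pay hσ hτ n) (prob_le_pay hσ hτ n))

/-! ## Exchanging the players -/

variable (G)

variable {G}

theorem swap_st (s₀ : S) (h : List (A × B)) : G.swap.st s₀ (h.map Prod.swap) = G.st s₀ h := by
  induction h with
  | nil => rfl
  | cons p h ih =>
    simp only [List.map_cons, st, ih]
    rfl

theorem map_swap_swap {A B : Type*} (h : List (A × B)) : (h.map Prod.swap).map Prod.swap = h := by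
  rw [List.map_map]
  simp

theorem swap_st' (s₀ : S) (h : List (B × A)) : G.st s₀ (h.map Prod.swap) = G.swap.st s₀ h :=
  swap_st (G := G.swap) s₀ h

theorem swap_strat₁ {σ : List (A × B) → A → ℝ} (hσ : G.Strat₁ s₀ σ) :
    G.swap.Strat₂ s₀ fun h => σ (h.map Prod.swap) := by
  intro h
  have := hσ (h.map Prod.swap)
  rwa [swap_st'] at this

theorem swap_strat₂ {τ : List (A × B) → B → ℝ} (hτ : G.Strat₂ s₀ τ) :
    G.swap.Strat₁ s₀ fun h => τ (h.map Prod.swap) := by
  intro h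
  have := hτ (h.map Prod.swap)
  rwa [swap_st'] at this

theorem swap_prob (σ : List (A × B) → A → ℝ) (τ : List (A × B) → B → ℝ) (n : ℕ) : ∀ h,
    G.swap.prob T s₀ (fun h => τ (h.map Prod.swap)) (fun h => σ (h.map Prod.swap)) n
      (h.map Prod.swap) = G.prob T s₀ σ τ n h := by
  induction n with
  | zero =>
    intro h
    by_cases hh : G.st s₀ h ∈ T
    · rw [prob_mem hh, prob_mem (by rwa [swap_st])]
    · rw [prob_zero' hh, prob_zero' (by rwa [swap_st])]
  | succ n ih =>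
    intro h
    by_cases hh : G.st s₀ h ∈ T
    · rw [prob_mem hh, prob_mem (by rwa [swap_st])]
    · rw [prob_succ hh, prob_succ (by rwa [swap_st]), swap_st, Finset.sum_comm]
      refine Finset.sum_congr rfl fun a _ => Finset.sum_congr rfl fun b _ => ?_
      have := ih ((a, b) :: h)
      simp only [List.map_cons, Prod.swap_prod_mk] at this
      rw [map_swap_swap, this]
      ring

theorem swap_pay (σ : List (A × B) → A → ℝ) (τ : List (A × B) → B → ℝ) :
    G.swap.pay T s₀ (fun h => τ (h.map Prod.swap)) (fun h => σ (h.map Prod.swap)) =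
      G.pay T s₀ σ τ := by
  unfold pay
  congr 1
  funext n
  exact swap_prob σ τ n []

theorem swap_nash {T₁ T₂ : Set S} {σ : List (B × A) → B → ℝ} {τ : List (B × A) → A → ℝ}
    (h : G.swap.IsNash T₂ T₁ s₀ σ τ) :
    G.IsNash T₁ T₂ s₀ (fun h => τ (h.map Prod.swap)) fun h => σ (h.map Prod.swap) := by
  obtain ⟨h1, h2, h3, h4⟩ := h
  have e : ∀ (T : Set S) (σ : List (B × A) → B → ℝ) (τ : List (B × A) → A → ℝ),
      G.pay T s₀ (fun h => τ (h.map Prod.swap)) (fun h => σ (h.map Prod.swap)) =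
        G.swap.pay T s₀ σ τ := fun T σ τ => swap_pay (G := G.swap) σ τ
  refine ⟨swap_strat₂ (G := G.swap) h2, swap_strat₁ (G := G.swap) h1, fun σ' hσ' => ?_,
    fun τ' hτ' => ?_⟩
  · have h5 := h4 _ (swap_strat₁ hσ')
    rw [← e, ← e] at h5
    simpa only [map_swap_swap] using h5
  · have h5 := h3 _ (swap_strat₂ hτ')
    rw [← e, ← e] at h5
    simpa only [map_swap_swap] using h5

theorem val₂_eq (s : S) : G.val₂ T s = G.swap.val₁ T s := by
  unfold val₁ val₂
  congr 1
  ext c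
  constructor
  · rintro ⟨τ, hτ, h⟩
    refine ⟨_, swap_strat₂ hτ, fun σ hσ => ?_⟩
    have h1 := h _ (swap_strat₂ (G := G.swap) hσ)
    rw [← swap_pay] at h1
    simpa only [map_swap_swap] using h1
  · rintro ⟨τ, hτ, h⟩
    refine ⟨_, swap_strat₁ (G := G.swap) hτ, fun σ hσ => ?_⟩
    have h1 := h _ (swap_strat₁ hσ)
    rw [← swap_pay]
    simpa only [map_swap_swap] using h1

end Game

end Pool.Agent.H95.NE
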