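import Pool.Agent.H95.NE.Chain

/-!
The main construction: a stationary Nash equilibrium if no state which is stuck can be entered.
-/

set_option autoImplicit false

open Finset Relation

namespace Pool.Agent.H95.NE

namespace Game

variable {S A B : Type*} (G : Game S A B)

/-- `T₂` is reached from `s` by `n` safe moves. -/
def Sr (T₁ T₂ : Set S) : ℕ → S → Prop
  | 0, s => s ∈ T₂
  | n + 1, s => ∃ a ∈ G.act₁ s, ∃ b ∈ G.act₂ s, (∀ a' ∈ G.act₁ s, G.val₁ T₁ (G.δ s a' b) = 0) ∧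
      Sr T₁ T₂ n (G.δ s a b)

variable {G} {T T₁ T₂ : Set S} {s₀ : S}

theorem sr_of_reach {s t : S} (h : ReflTransGen (G.SafeStep T₁) s t) (ht : t ∈ T₂) :
    ∃ n, G.Sr T₁ T₂ n s := by
  induction h using ReflTransGen.head_induction_on with
  | refl => exact ⟨0, ht⟩
  | head h _ ih =>
    obtain ⟨n, hn⟩ := ih
    obtain ⟨a, ha, b, hb, h1, rfl⟩ := h
    exact ⟨n + 1, a, ha, b, hb, h1, hn⟩

theorem reach_of_sr (n : ℕ) : ∀ s, G.Sr T₁ T₂ n s → ∃ t ∈ T₂, ReflTransGen (G.SafeStep T₁) s t := by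
  induction n with
  | zero => exact fun s hs => ⟨s, hs, ReflTransGen.refl⟩
  | succ n ih =>
    rintro s ⟨a, ha, b, hb, h1, h2⟩
    obtain ⟨t, ht, h3⟩ := ih _ h2
    exact ⟨t, ht, ReflTransGen.head ⟨a, ha, b, hb, h1, rfl⟩ h3⟩

theorem L_unreach {s : S} (h : ∀ t, ReflTransGen G.Step s t → t ∉ T) : G.L T s = 0 := by
  have key : ∀ n, ∀ s, (∀ t, ReflTransGen G.Step s t → t ∉ T) → G.Lv T n s = 0 := by
    intro n
    induction n with
    | zero => exact fun s hs => Lv_zero (hs s ReflTransGen.refl)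
    | succ n ih =>
      intro s hs
      rw [Lv_succ (hs s ReflTransGen.refl)]
      have h1 : ∀ a ∈ G.act₁ s, ∀ b ∈ G.act₂ s, G.Lv T n (G.δ s a b) = 0 := fun a ha b hb =>
        ih _ fun t ht => hs t (ReflTransGen.head ⟨a, ha, b, hb, rfl⟩ ht)
      exact le_antisymm (V_le' (G.ne₁ s) (G.ne₂ s) fun a ha b hb => (h1 a ha b hb).le)
        (V_ge (G.ne₁ s) (G.ne₂ s) fun a ha b hb => (h1 a ha b hb).ge)
  unfold L
  simp only [key _ s h, ciSup_const]

theorem mix_dirac {A : Type*} [DecidableEq A] {F : Finset A} {a₀ : A} (h : a₀ ∈ F) :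
    Mix F fun a => if a = a₀ then (1 : ℝ) else 0 :=
  ⟨fun a _ => by dsimp only; split_ifs <;> norm_num, by rw [Finset.sum_ite_eq' F a₀, if_pos h]⟩

theorem core [Finite S] (hnb : ¬ G.VisitsBoth T₁ T₂ s₀) (hns : G.NoStuck T₁ T₂ s₀) :
    ∃ σ τ, G.IsNash T₁ T₂ s₀ σ τ := by
  classical
  have hv : ∀ s, G.val₁ T₁ s = G.L T₁ s := fun s => val₁_eq s
  -- the strategies
  have hxy : ∀ s, ∃ x y, Mix (G.act₁ s) x ∧ Mix (G.act₂ s) y ∧ (s ∉ T₁ →
      LoG (G.act₁ s) (G.act₂ s) (fun a b => G.L T₁ (G.δ s a b)) x (G.L T₁ s) ∧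
      UpG (G.act₁ s) (G.act₂ s) (fun a b => G.L T₁ (G.δ s a b)) y (G.L T₁ s) ∧
      (0 < G.L T₁ s → ∀ a ∈ G.act₁ s, 0 < x a ∨
        ∑ b ∈ G.act₂ s, y b * G.L T₁ (G.δ s a b) < G.L T₁ s) ∧
      ∀ k, G.L T₁ s = 0 → G.Sr T₁ T₂ (k + 1) s → (∀ j ≤ k, ¬ G.Sr T₁ T₂ j s) →
        ∀ a ∈ G.act₁ s, ∀ b ∈ G.act₂ s, 0 < x a → 0 < y b →
          G.Sr T₁ T₂ k (G.δ s a b) ∧ G.L T₁ (G.δ s a b) = 0) := by
    intro s
    by_cases hs : s ∈ T₁
    · exact ⟨_, _, mix_unif (G.ne₁ s), mix_unif (G.ne₂ s), fun h => absurd hs h⟩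
    rcases (L_nonneg (G := G) (T := T₁) s).lt_or_eq with hpos | h0
    · obtain ⟨x, y, hx, hy, h⟩ := strictPair (G.ne₁ s) (G.ne₂ s) fun a b => G.L T₁ (G.δ s a b)
      rw [L_fix hs] at hx hy
      simp only [L_fix hs] at h
      exact ⟨x, y, hx.1, hy.1, fun _ => ⟨hx, hy, fun _ => h, fun k h1 => absurd h1 hpos.ne'⟩⟩
    · by_cases hk : ∃ k, G.Sr T₁ T₂ (k + 1) s ∧ ∀ j ≤ k, ¬ G.Sr T₁ T₂ j s
      · obtain ⟨k, ⟨a₀, ha₀, b₀, hb₀, hsafe, hsr⟩, hmin⟩ := hk
        refine ⟨fun a => if a = a₀ then 1 else 0, fun b => if b = b₀ then 1 else 0, mix_dirac ha₀,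
          mix_dirac hb₀, fun _ => ⟨⟨mix_dirac ha₀, fun b hb => ?_⟩, ⟨mix_dirac hb₀, fun a ha => ?_⟩,
            fun h => absurd h0 h.ne, fun k' _ h1 h2 a ha b hb hxa hyb => ?_⟩⟩
        · rw [← h0]
          exact le_mix (mix_dirac ha₀) fun a _ => L_nonneg _
        · simp only [ite_mul, one_mul, zero_mul]
          rw [Finset.sum_ite_eq' (G.act₂ s) b₀, if_pos hb₀, ← hv, hsafe a ha]
          exact L_nonneg _
        · have e : k' = k := by
            rcases lt_trichotomy k' k with h | h | h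
            · exact absurd h1 (hmin _ h)
            · exact h
            · exact absurd ⟨a₀, ha₀, b₀, hb₀, hsafe, hsr⟩ (h2 (k + 1) h)
          subst e
          have ea : a = a₀ := by
            by_contra hne
            simp only [if_neg hne, lt_irrefl] at hxa
          have eb : b = b₀ := by
            by_contra hne
            simp only [if_neg hne, lt_irrefl] at hyb
          subst ea eb
          exact ⟨hsr, by rw [← hv]; exact hsafe a ha⟩
      · obtain ⟨x, hx⟩ := V_lo (G.ne₁ s) (G.ne₂ s) fun a b => G.L T₁ (G.δ s a b)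
        obtain ⟨y, hy⟩ := V_up (G.ne₁ s) (G.ne₂ s) fun a b => G.L T₁ (G.δ s a b)
        rw [L_fix hs] at hx hy
        exact ⟨x, y, hx.1, hy.1, fun _ => ⟨hx, hy, fun h => absurd h0 h.ne,
          fun k _ h1 h2 => absurd ⟨k, h1, h2⟩ hk⟩⟩
  choose x y hx hy hxy using hxy
  -- the states
  set X : Set S := {s | ReflTransGen (G.TStep T₁ T₂) s₀ s ∨
    (G.L T₁ s = 0 ∧ ¬ G.Stuck T₁ T₂ s)} with hXdef
  have hzero : ∀ s ∈ X, G.L T₁ s = 0 → ∃ n, G.Sr T₁ T₂ n s := by
    intro s hs h0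
    have h1 : ¬ G.Stuck T₁ T₂ s := hs.elim (fun h => hns s h) fun h => h.2
    unfold Stuck at h1
    push Not at h1
    obtain ⟨t, ht, h2⟩ := h1 (by rw [hv]; exact h0)
    exact sr_of_reach h2 ht
  have hT1L : ∀ s, G.L T₁ s = 0 → s ∉ T₁ := by
    intro s h0 hs
    rw [L_mem hs] at h0
    norm_num at h0
  have hX : ∀ s ∈ X, s ∉ T₁ ∪ T₂ → ∀ s', G.PStep x y s s' → s' ∈ X := by
    rintro s hs hsT s' ⟨a, ha, b, hb, hxa, hyb, rfl⟩
    have hs1 : s ∉ T₁ := fun h => hsT (Or.inl h)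
    have hs2 : s ∉ T₂ := fun h => hsT (Or.inr h)
    obtain ⟨h1, h2, h3, h4⟩ := hxy s hs1
    rcases (L_nonneg (G := G) (T := T₁) s).lt_or_eq with hpos | h0
    · left
      rcases hs with hs | hs
      · refine hs.tail ⟨hs1, hs2, by rw [hv]; exact hpos, a, ha, b, hb, ⟨x s, ⟨hx s, ?_⟩, hxa⟩,
          ⟨y s, ⟨hy s, ?_⟩, hyb⟩, rfl⟩
        · simp only [hv]; exact h1.2
        · simp only [hv]; exact h2.2
      · exact absurd hs.1 hpos.ne'
    · right
      have hn := hzero s hs h0.symm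
      have hspec := Nat.find_spec hn
      have hmin : ∀ j < Nat.find hn, ¬ G.Sr T₁ T₂ j s := fun j hj => Nat.find_min hn hj
      cases hk : Nat.find hn with
      | zero =>
        rw [hk] at hspec
        exact absurd hspec hs2
      | succ k =>
        rw [hk] at hspec
        obtain ⟨h5, h6⟩ := h4 k h0.symm hspec (fun j hj => hmin j (by omega)) a ha b hb hxa hyb
        refine ⟨h6, fun hst => ?_⟩
        obtain ⟨t, ht, h7⟩ := reach_of_sr k _ h5
        exact hst.2 t ht h7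
  have hz : ∀ n, ∀ s, G.L T₁ s = 0 → G.Sr T₁ T₂ n s →
      ∃ t ∈ T₁ ∪ T₂, ReflTransGen (G.PStep x y) s t := by
    intro n
    induction n using Nat.strong_induction_on with
    | _ n ih =>
      intro s h0 hsr
      have hn : ∃ n, G.Sr T₁ T₂ n s := ⟨n, hsr⟩
      have hspec := Nat.find_spec hn
      have hmin : ∀ j < Nat.find hn, ¬ G.Sr T₁ T₂ j s := fun j hj => Nat.find_min hn hj
      have hle : Nat.find hn ≤ n := Nat.find_min' hn hsr
      cases hk : Nat.find hn with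
      | zero =>
        rw [hk] at hspec
        exact ⟨s, Or.inr hspec, ReflTransGen.refl⟩
      | succ k =>
        rw [hk] at hspec
        obtain ⟨a, ha, hxa⟩ := (hx s).exists_pos
        obtain ⟨b, hb, hyb⟩ := (hy s).exists_pos
        obtain ⟨_, _, _, h4⟩ := hxy s (hT1L s h0)
        obtain ⟨h5, h6⟩ := h4 k h0 hspec (fun j hj => hmin j (by omega)) a ha b hb hxa hyb
        obtain ⟨t, ht, h7⟩ := ih k (by omega) _ h6 h5
        exact ⟨t, ht, ReflTransGen.head ⟨a, ha, b, hb, hxa, hyb, rfl⟩ h7⟩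
  -- absorption
  have hreach : ∀ s ∈ X, ∃ t ∈ T₁ ∪ T₂, ReflTransGen (G.PStep x y) s t := by
    by_contra hcon
    push Not at hcon
    set D : Set S := {s | s ∈ X ∧ ∀ t ∈ T₁ ∪ T₂, ¬ ReflTransGen (G.PStep x y) s t} with hD
    obtain ⟨s₂, hs₂⟩ := hcon
    obtain ⟨s₁, hs₁, hmax⟩ := Set.exists_max_image D (G.L T₁) (Set.toFinite D) ⟨s₂, hs₂⟩
    have hDT : ∀ s ∈ D, s ∉ T₁ ∪ T₂ := fun s hs h => hs.2 s h ReflTransGen.refl
    have hDc : ∀ s ∈ D, ∀ s', G.PStep x y s s' → s' ∈ D := fun s hs s' h =>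
      ⟨hX s hs.1 (hDT s hs) s' h, fun t ht h' => hs.2 t ht (ReflTransGen.head h h')⟩
    have hM : 0 < G.L T₁ s₁ := by
      rcases (L_nonneg (G := G) (T := T₁) s₁).lt_or_eq with h | h
      · exact h
      · obtain ⟨n, hn⟩ := hzero s₁ hs₁.1 h.symm
        obtain ⟨t, ht, h'⟩ := hz n s₁ h.symm hn
        exact absurd h' (hs₁.2 t ht)
    set M := G.L T₁ s₁ with hMdef
    have hKc : ∀ s ∈ D, G.L T₁ s = M → ∀ a ∈ G.act₁ s, ∀ b ∈ G.act₂ s, 0 < x s a → 0 < y s b →
        G.δ s a b ∈ D ∧ G.L T₁ (G.δ s a b) = M := by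
      intro s hs hsM a ha b hb hxa hyb
      refine ⟨hDc s hs _ ⟨a, ha, b, hb, hxa, hyb, rfl⟩, ?_⟩
      refine dsum_eq (hx s) (hy s) (f := fun a b => G.L T₁ (G.δ s a b)) (c := M)
        (fun a ha b hb h1 h2 => hmax _ (hDc s hs _ ⟨a, ha, b, hb, h1, h2, rfl⟩)) ?_ ha hb hxa hyb
      rw [dsum', ← hsM]
      exact le_mix (hy s) (hxy s fun h => hDT s hs (Or.inl h)).1.2
    have hgap : ∀ s, ∃ η > 0, s ∈ D → G.L T₁ s = M → ∀ a ∈ G.act₁ s, ¬ 0 < x s a →
        ∑ b ∈ G.act₂ s, y s b * G.L T₁ (G.δ s a b) ≤ M - η := by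
      intro s
      by_cases hs : s ∈ D ∧ G.L T₁ s = M
      · have hs1 : s ∉ T₁ := fun h => hDT s hs.1 (Or.inl h)
        obtain ⟨η, h1, h2⟩ := exists_gap (G.act₁ s) (fun a => ¬ 0 < x s a)
          (fun a => ∑ b ∈ G.act₂ s, y s b * G.L T₁ (G.δ s a b)) M (fun a ha h => by
            have := (hxy s hs1).2.2.1 (by rw [hs.2]; exact hM) a ha
            rw [hs.2] at this
            exact this.resolve_left h)
        exact ⟨η, h1, fun _ _ => h2⟩
      · exact ⟨1, one_pos, fun h1 h2 => absurd ⟨h1, h2⟩ hs⟩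
    choose η hη1 hη2 using hgap
    have : Nonempty S := ⟨s₀⟩
    obtain ⟨s₃, hs₃⟩ := Finite.exists_min η
    set e := min (η s₃) M with he
    have he0 : 0 < e := lt_min (hη1 s₃) hM
    have heM : e ≤ M := min_le_right _ _
    have heη : ∀ s, e ≤ η s := fun s => (min_le_left _ _).trans (hs₃ s)
    have hfle : ∀ s, (if s ∈ D ∧ G.L T₁ s = M then G.L T₁ s - e else G.L T₁ s) ≤ G.L T₁ s := by
      intro s
      split_ifs <;> linarith
    have hle := L_least (G := G) (T := T₁)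
      (f := fun s => if s ∈ D ∧ G.L T₁ s = M then G.L T₁ s - e else G.L T₁ s) (fun s => by
        split_ifs with h
        · rw [h.2]; linarith
        · exact L_nonneg s) (fun s hs => by
        rw [if_neg fun h => hDT s h.1 (Or.inl hs), L_mem hs]) (fun s hs => by
        obtain ⟨h1, h2, h3, h4⟩ := hxy s hs
        refine ⟨y s, hy s, fun a ha => ?_⟩
        by_cases hK : s ∈ D ∧ G.L T₁ s = M
        · simp only [if_pos hK]
          by_cases hxa : 0 < x s a
          · have h5 : ∀ b ∈ G.act₂ s, y s b * (if G.δ s a b ∈ D ∧ G.L T₁ (G.δ s a b) = M then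
                G.L T₁ (G.δ s a b) - e else G.L T₁ (G.δ s a b)) = y s b * (M - e) := by
              intro b hb
              rcases ((hy s).1 b hb).lt_or_eq with hyb | hyb
              · have h6 := hKc s hK.1 hK.2 a ha b hb hxa hyb
                rw [if_pos h6, h6.2]
              · rw [← hyb]; simp
            rw [Finset.sum_congr rfl h5, ← Finset.sum_mul, (hy s).2, one_mul, hK.2]
          · have h5 := hη2 s hK.1 hK.2 a ha hxa
            have h6 : ∑ b ∈ G.act₂ s, y s b * (if G.δ s a b ∈ D ∧ G.L T₁ (G.δ s a b) = M then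
                G.L T₁ (G.δ s a b) - e else G.L T₁ (G.δ s a b)) ≤
                ∑ b ∈ G.act₂ s, y s b * G.L T₁ (G.δ s a b) :=
              Finset.sum_le_sum fun b hb => mul_le_mul_of_nonneg_left (hfle _) ((hy s).1 b hb)
            have := heη s
            rw [hK.2]
            linarith
        · simp only [if_neg hK]
          exact (Finset.sum_le_sum fun b hb => mul_le_mul_of_nonneg_left (hfle _)
            ((hy s).1 b hb)).trans (h2.2 a ha)) s₁
    simp only [if_pos (show s₁ ∈ D ∧ G.L T₁ s₁ = M from ⟨hs₁, rfl⟩)] at hle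
    linarith
  -- the payoffs
  have S1 : G.Strat₁ s₀ (fun h => x (G.st s₀ h)) := fun h => hx _
  have S2 : G.Strat₂ s₀ (fun h => y (G.st s₀ h)) := fun h => hy _
  have hone : G.pay (T₁ ∪ T₂) s₀ (fun h => x (G.st s₀ h)) (fun h => y (G.st s₀ h)) = 1 :=
    as_reach hx hy hX hreach (Or.inl ReflTransGen.refl)
  have hsum := pay_union (T₁ := T₁) (T₂ := T₂) S1 S2
  have hu1 : ∀ σ', G.Strat₁ s₀ σ' →
      G.pay T₁ s₀ σ' (fun h => y (G.st s₀ h)) ≤ G.L T₁ s₀ := by
    intro σ' hσ'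
    refine pay_le fun n => ?_
    exact ub₁ (Q := Set.univ) hy (fun _ _ _ _ _ _ => trivial) (fun s _ => L_nonneg s)
      (fun s _ hs => (L_mem hs).ge) (fun s _ hs => (hxy s hs).2.1.2) hσ' n [] trivial
  have hu2 : ∀ τ', G.Strat₂ s₀ τ' →
      G.pay T₂ s₀ (fun h => x (G.st s₀ h)) τ' ≤ 1 - G.L T₁ s₀ := by
    intro τ' hτ'
    refine pay_le fun n => ?_
    have hg := ub₂ (T := T₂) (s₀ := s₀) (Q := {s | ReflTransGen G.Step s₀ s})
      (f := fun s => if ∃ t ∈ T₂, ReflTransGen G.Step s t then 1 - G.L T₁ s else 0) hx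
      (fun s hs a ha b hb => ReflTransGen.tail hs ⟨a, ha, b, hb, rfl⟩) (fun s _ => by
        split_ifs
        · have := L_le_one (G := G) (T := T₁) s; linarith
        · exact le_rfl) (fun s hs hsT => by
        rw [if_pos ⟨s, hsT, ReflTransGen.refl⟩, L_unreach fun t ht htT => hnb
          ⟨s, t, hs, ht, Or.inr ⟨hsT, htT⟩⟩]
        norm_num) (fun s hs hsT b hb => by
        by_cases hr : ∃ t ∈ T₂, ReflTransGen G.Step s t
        · rw [if_pos hr]
          have hs1 : s ∉ T₁ := fun h => by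
            obtain ⟨t, ht, h'⟩ := hr
            exact hnb ⟨s, t, hs, h', Or.inl ⟨h, ht⟩⟩
          have h1 := (hxy s hs1).1.2 b hb
          have h2 : ∑ a ∈ G.act₁ s, x s a * (if ∃ t ∈ T₂, ReflTransGen G.Step (G.δ s a b) t then
              1 - G.L T₁ (G.δ s a b) else 0) ≤
              ∑ a ∈ G.act₁ s, x s a * (1 - G.L T₁ (G.δ s a b)) := by
            refine Finset.sum_le_sum fun a ha => mul_le_mul_of_nonneg_left ?_ ((hx s).1 a ha)
            split_ifs
            · exact le_rfl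
            · have := L_le_one (G := G) (T := T₁) (G.δ s a b); linarith
          have h3 : ∑ a ∈ G.act₁ s, x s a * (1 - G.L T₁ (G.δ s a b)) =
              1 - ∑ a ∈ G.act₁ s, x s a * G.L T₁ (G.δ s a b) := by
            simp only [mul_sub, mul_one, Finset.sum_sub_distrib, (hx s).2]
          linarith
        · rw [if_neg hr]
          refine (Finset.sum_eq_zero fun a ha => ?_).le
          rw [if_neg, mul_zero]
          rintro ⟨t, ht, h'⟩
          exact hr ⟨t, ht, ReflTransGen.head ⟨a, ha, b, hb, rfl⟩ h'⟩) hτ' n [] ReflTransGen.refl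
    have hle : ∀ s, (if ∃ t ∈ T₂, ReflTransGen G.Step s t then 1 - G.L T₁ s else 0) ≤
        1 - G.L T₁ s := by
      intro s
      split_ifs
      · exact le_rfl
      · have := L_le_one (G := G) (T := T₁) s; linarith
    exact hg.trans (hle s₀)
  refine ⟨_, _, S1, S2, fun σ' hσ' => ?_, fun τ' hτ' => ?_⟩
  · have h1 := hu1 σ' hσ'
    have h2 := hu2 _ S2
    linarith
  · have h1 := hu1 _ S1
    have h2 := hu2 τ' hτ'
    linarith

end Game

end Pool.Agent.H95.NE
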