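import Mathlib

/-!
The definitions used in the statements: deterministic two-player concurrent games, strategies,
payoffs, Nash equilibria, values, stuck and settled states, pruning.
-/

set_option autoImplicit false

open Finset Relation

namespace Pool.Agent.H95.NE

/-- `x` is a probability distribution on `F`; its values outside of `F` do not matter. -/
def Mix {A : Type*} (F : Finset A) (x : A → ℝ) : Prop := (∀ a ∈ F, 0 ≤ x a) ∧ ∑ a ∈ F, x a = 1

/-- A deterministic two-player concurrent game: in the state `s` the players choose simultaneously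
from their finite nonempty sets `act₁ s`, `act₂ s` of available actions, and `δ` gives the next
state. -/
structure Game (S A B : Type*) where
  act₁ : S → Finset A
  act₂ : S → Finset B
  ne₁ : ∀ s, (act₁ s).Nonempty
  ne₂ : ∀ s, (act₂ s).Nonempty
  δ : S → A → B → S

namespace Game

variable {S A B : Type*} (G : Game S A B)

/-- The state which is reached from `s₀` by the history `h`. A history is the list of the pairs of
actions which have been played; the last pair is the head of the list. -/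
def st (s₀ : S) : List (A × B) → S
  | [] => s₀
  | p :: h => G.δ (st s₀ h) p.1 p.2

/-- `σ` is a behavioural strategy of player 1 in the game from `s₀`: for each history it gives a
probability distribution on the actions which are available in the current state. -/
def Strat₁ (s₀ : S) (σ : List (A × B) → A → ℝ) : Prop := ∀ h, Mix (G.act₁ (G.st s₀ h)) (σ h)

/-- `τ` is a behavioural strategy of player 2 in the game from `s₀`. -/
def Strat₂ (s₀ : S) (τ : List (A × B) → B → ℝ) : Prop := ∀ h, Mix (G.act₂ (G.st s₀ h)) (τ h)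

open scoped Classical in
/-- The probability that, after the history `h`, the set `T` is visited during the next `n` stages
(the current state counts). -/
noncomputable def prob (T : Set S) (s₀ : S) (σ : List (A × B) → A → ℝ)
    (τ : List (A × B) → B → ℝ) : ℕ → List (A × B) → ℝ
  | 0, h => if G.st s₀ h ∈ T then 1 else 0
  | n + 1, h => if G.st s₀ h ∈ T then 1 else
      ∑ a ∈ G.act₁ (G.st s₀ h), ∑ b ∈ G.act₂ (G.st s₀ h),
        σ h a * τ h b * prob T s₀ σ τ n ((a, b) :: h)

/-- The expected payoff of a player with target set `T`: the probability that `T` is visited. -/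
noncomputable def pay (T : Set S) (s₀ : S) (σ : List (A × B) → A → ℝ)
    (τ : List (A × B) → B → ℝ) : ℝ := ⨆ n, G.prob T s₀ σ τ n []

/-- `(σ, τ)` is a Nash equilibrium of the game from `s₀` with target sets `T₁` and `T₂`. -/
def IsNash (T₁ T₂ : Set S) (s₀ : S) (σ : List (A × B) → A → ℝ) (τ : List (A × B) → B → ℝ) : Prop :=
  G.Strat₁ s₀ σ ∧ G.Strat₂ s₀ τ ∧
  (∀ σ', G.Strat₁ s₀ σ' → G.pay T₁ s₀ σ' τ ≤ G.pay T₁ s₀ σ τ) ∧
  ∀ τ', G.Strat₂ s₀ τ' → G.pay T₂ s₀ σ τ' ≤ G.pay T₂ s₀ σ τ

/-- The value of player 1 with target set `T` from `s`: the supremum of the `c` such that player 1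
has a strategy that reaches `T` with probability at least `c` against every strategy of player 2. -/
noncomputable def val₁ (T : Set S) (s : S) : ℝ :=
  sSup {c | ∃ σ, G.Strat₁ s σ ∧ ∀ τ, G.Strat₂ s τ → c ≤ G.pay T s σ τ}

/-- The value of player 2 with target set `T` from `s`. -/
noncomputable def val₂ (T : Set S) (s : S) : ℝ :=
  sSup {c | ∃ τ, G.Strat₂ s τ ∧ ∀ σ, G.Strat₁ s σ → c ≤ G.pay T s σ τ}

/-- The game with the roles of the players exchanged. -/
def swap : Game S B A where
  act₁ := G.act₂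
  act₂ := G.act₁
  ne₁ := G.ne₂
  ne₂ := G.ne₁
  δ := fun s b a => G.δ s a b

/-- Some pair of available actions leads from `s` to `s'`. -/
def Step (s s' : S) : Prop := ∃ a ∈ G.act₁ s, ∃ b ∈ G.act₂ s, G.δ s a b = s'

/-- Some play from `s₀` visits both `T₁` and `T₂`. -/
def VisitsBoth (T₁ T₂ : Set S) (s₀ : S) : Prop :=
  ∃ s t, ReflTransGen G.Step s₀ s ∧ ReflTransGen G.Step s t ∧ ((s ∈ T₁ ∧ t ∈ T₂) ∨ (s ∈ T₂ ∧ t ∈ T₁))

/-- `x` is an optimal mixed action of player 1 at `s` in the one-shot zero-sum game with the payoff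
`val₁ T` of the next state. -/
def Opt₁ (T : Set S) (s : S) (x : A → ℝ) : Prop :=
  Mix (G.act₁ s) x ∧ ∀ b ∈ G.act₂ s, G.val₁ T s ≤ ∑ a ∈ G.act₁ s, x a * G.val₁ T (G.δ s a b)

/-- `y` is an optimal mixed action of player 2 at `s` in this one-shot zero-sum game. -/
def Opt₂ (T : Set S) (s : S) (y : B → ℝ) : Prop :=
  Mix (G.act₂ s) y ∧ ∀ a ∈ G.act₁ s, ∑ b ∈ G.act₂ s, y b * G.val₁ T (G.δ s a b) ≤ G.val₁ T s

/-- A tight move: from a state `s` outside of both targets, at which the value of player 1 is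
positive, with actions that are used by optimal mixed actions. -/
def TStep (T₁ T₂ : Set S) (s s' : S) : Prop :=
  s ∉ T₁ ∧ s ∉ T₂ ∧ 0 < G.val₁ T₁ s ∧ ∃ a ∈ G.act₁ s, ∃ b ∈ G.act₂ s,
    (∃ x, G.Opt₁ T₁ s x ∧ 0 < x a) ∧ (∃ y, G.Opt₂ T₁ s y ∧ 0 < y b) ∧ G.δ s a b = s'

/-- A safe move: the action of player 2 makes sure that the value of player 1 is `0` at the next
state. -/
def SafeStep (T₁ : Set S) (s s' : S) : Prop :=
  ∃ a ∈ G.act₁ s, ∃ b ∈ G.act₂ s, (∀ a' ∈ G.act₁ s, G.val₁ T₁ (G.δ s a' b) = 0) ∧ G.δ s a b = s'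

/-- The value of player 1 at `s` is `0`, and safe moves do not lead from `s` to `T₂`. -/
def Stuck (T₁ T₂ : Set S) (s : S) : Prop :=
  G.val₁ T₁ s = 0 ∧ ∀ t ∈ T₂, ¬ ReflTransGen (G.SafeStep T₁) s t

/-- Tight moves do not lead from `s₀` to a stuck state. -/
def NoStuck (T₁ T₂ : Set S) (s₀ : S) : Prop :=
  ∀ s, ReflTransGen (G.TStep T₁ T₂) s₀ s → ¬ G.Stuck T₁ T₂ s

/-- `s` is settled for player 2: the value of player 1 at `s` is `0`, and safe moves lead from `s` to
`T₂`. -/
def Settled (T₁ T₂ : Set S) (s : S) : Prop :=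
  G.val₁ T₁ s = 0 ∧ ∃ t ∈ T₂, ReflTransGen (G.SafeStep T₁) s t

/-- A move with available actions from a state which is not settled for a player. -/
def UStep (T₁ T₂ : Set S) (s s' : S) : Prop :=
  ¬ G.Settled T₁ T₂ s ∧ ¬ G.swap.Settled T₂ T₁ s ∧ G.Step s s'

/-- No state which can be reached from `s₀` through states that are not settled is stuck for both
players. -/
def NoDoublyStuck (T₁ T₂ : Set S) (s₀ : S) : Prop :=
  ∀ s, ReflTransGen (G.UStep T₁ T₂) s₀ s → ¬ (G.Stuck T₁ T₂ s ∧ G.swap.Stuck T₂ T₁ s)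

end Game

namespace Game

/-- `G'` arises from `G` by the deletion of weak actions: an action of player 1 that is deleted at a
state outside of `T₁` is dominated by a mixed action of kept actions, where the payoff is the value
of player 1 at the next state, in `G` for the deleted action and in `G'` for the kept ones, and the
kept actions of player 2 are considered; similarly for player 2. -/
structure Prunes {S A B : Type*} (T₁ T₂ : Set S) (G G' : Game S A B) : Prop where
  δ_eq : G'.δ = G.δ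
  sub₁ : ∀ s, G'.act₁ s ⊆ G.act₁ s
  sub₂ : ∀ s, G'.act₂ s ⊆ G.act₂ s
  weak₁ : ∀ s, s ∉ T₁ → ∀ a ∈ G.act₁ s, a ∉ G'.act₁ s → ∃ x, Mix (G'.act₁ s) x ∧
    ∀ b ∈ G'.act₂ s, G.val₁ T₁ (G.δ s a b) ≤ ∑ a' ∈ G'.act₁ s, x a' * G'.val₁ T₁ (G.δ s a' b)
  weak₂ : ∀ s, s ∉ T₂ → ∀ b ∈ G.act₂ s, b ∉ G'.act₂ s → ∃ y, Mix (G'.act₂ s) y ∧
    ∀ a ∈ G'.act₁ s, G.val₂ T₂ (G.δ s a b) ≤ ∑ b' ∈ G'.act₂ s, y b' * G'.val₂ T₂ (G.δ s a b')

end Game

end Pool.Agent.H95.NE
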