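import Pool.Agent.H95.NE.Core

/-!
Plays which visit both targets; values 0 and 1.
-/

set_option autoImplicit false

open Finset Relation

namespace Pool.Agent.H95.NE

theorem sum_eq_of {A : Type*} {F : Finset A} {x : A → ℝ} (hx : Mix F x) {f : A → ℝ} {c : ℝ}
    (h : ∀ a ∈ F, f a ≤ c) (h' : c ≤ ∑ a ∈ F, x a * f a) {a : A} (ha : a ∈ F) (hxa : 0 < x a) :
    f a = c := by
  by_contra hne
  have hlt : f a < c := lt_of_le_of_ne (h a ha) hne
  have h1 : ∑ a ∈ F, x a * f a < ∑ a ∈ F, x a * c :=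
    Finset.sum_lt_sum (fun a ha => mul_le_mul_of_nonneg_left (h a ha) (hx.1 a ha))
      ⟨a, ha, mul_lt_mul_of_pos_left hlt hxa⟩
  rw [← Finset.sum_mul, hx.2, one_mul] at h1
  linarith

namespace Game

variable {S A B : Type*} {G : Game S A B} {T T₁ T₂ : Set S} {s₀ : S}

/-- player 2 can cap player 1 -/
theorem exists_cap [Finite S] (G : Game S A B) (T : Set S) : ∃ y : S → B → ℝ,
    (∀ s, Mix (G.act₂ s) (y s)) ∧ ∀ s₀ σ, G.Strat₁ s₀ σ →
      G.pay T s₀ σ (fun h => y (G.st s₀ h)) ≤ G.L T s₀ := by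
  have hy : ∀ s, ∃ y, Mix (G.act₂ s) y ∧
      (s ∉ T → ∀ a ∈ G.act₁ s, ∑ b ∈ G.act₂ s, y b * G.L T (G.δ s a b) ≤ G.L T s) := by
    intro s
    by_cases hs : s ∈ T
    · exact ⟨_, mix_unif (G.ne₂ s), fun h => absurd hs h⟩
    · obtain ⟨y, hy⟩ := V_up (G.ne₁ s) (G.ne₂ s) fun a b => G.L T (G.δ s a b)
      rw [L_fix hs] at hy
      exact ⟨y, hy.1, fun _ => hy.2⟩
  choose y hy1 hy2 using hy
  refine ⟨y, hy1, fun s₀ σ hσ => pay_le fun n => ?_⟩
  exact ub₁ (Q := Set.univ) hy1 (fun _ _ _ _ _ _ => trivial) (fun s _ => L_nonneg s)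
    (fun s _ hs => (L_mem hs).ge) (fun s _ hs => hy2 s hs) hσ n [] trivial

/-- player 1 can cap player 2 -/
theorem exists_cap' [Finite S] (G : Game S A B) (T : Set S) : ∃ x : S → A → ℝ,
    (∀ s, Mix (G.act₁ s) (x s)) ∧ ∀ s₀ τ, G.Strat₂ s₀ τ →
      G.pay T s₀ (fun h => x (G.st s₀ h)) τ ≤ G.swap.L T s₀ := by
  obtain ⟨x, hx, h⟩ := exists_cap G.swap T
  refine ⟨x, hx, fun s₀ τ hτ => ?_⟩
  have h1 := h s₀ _ (swap_strat₂ hτ)
  rw [← swap_pay]
  simpa only [swap_st'] using h1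

theorem zero_case [Finite S] (h1 : G.val₁ T₁ s₀ = 0) (h2 : G.val₂ T₂ s₀ = 0) :
    ∃ σ τ, G.IsNash T₁ T₂ s₀ σ τ := by
  obtain ⟨y, hy, hy'⟩ := exists_cap G T₁
  obtain ⟨x, hx, hx'⟩ := exists_cap' G T₂
  have S1 : G.Strat₁ s₀ (fun h => x (G.st s₀ h)) := fun h => hx _
  have S2 : G.Strat₂ s₀ (fun h => y (G.st s₀ h)) := fun h => hy _
  rw [val₁_eq] at h1
  rw [val₂_eq, val₁_eq] at h2
  refine ⟨_, _, S1, S2, fun σ hσ => ?_, fun τ hτ => ?_⟩
  · have h3 := hy' s₀ σ hσ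
    have h4 := pay_nonneg (T := T₁) S1 S2
    linarith
  · have h3 := hx' s₀ τ hτ
    have h4 := pay_nonneg (T := T₂) S1 S2
    linarith

theorem one_case [Finite S] (h1 : G.val₁ T₁ s₀ = 1) : G.NoStuck T₁ T₂ s₀ := by
  have hv : ∀ s, G.val₁ T₁ s = G.L T₁ s := fun s => val₁_eq s
  have key : ∀ s, ReflTransGen (G.TStep T₁ T₂) s₀ s → G.val₁ T₁ s = 1 := by
    intro s hs
    induction hs with
    | refl => exact h1
    | tail _ hstep ih =>
      obtain ⟨_, _, _, a, ha, b, hb, ⟨x, hx, hxa⟩, _, rfl⟩ := hstep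
      have h2 := hx.2 b hb
      rw [ih] at h2
      exact sum_eq_of hx.1 (f := fun a => G.val₁ T₁ (G.δ _ a b))
        (fun a _ => by rw [hv]; exact L_le_one _) h2 ha hxa
  intro s hs hst
  have h2 := key s hs
  rw [hst.1] at h2
  norm_num at h2

variable (G)

/-- legal histories -/
def Leg (s₀ : S) : List (A × B) → Prop
  | [] => True
  | p :: h => Leg s₀ h ∧ p.1 ∈ G.act₁ (G.st s₀ h) ∧ p.2 ∈ G.act₂ (G.st s₀ h)

variable {G}

theorem Leg.suffix {h k : List (A × B)} (hk : G.Leg s₀ (k ++ h)) : G.Leg s₀ h := by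
  induction k with
  | nil => exact hk
  | cons p k ih => exact ih hk.1

theorem exists_hist {h : List (A × B)} (hh : G.Leg s₀ h) {t : S}
    (ht : ReflTransGen G.Step (G.st s₀ h) t) : ∃ g, G.Leg s₀ (g ++ h) ∧ G.st s₀ (g ++ h) = t := by
  induction ht with
  | refl => exact ⟨[], hh, rfl⟩
  | tail _ hstep ih =>
    obtain ⟨g, hg, hgt⟩ := ih
    obtain ⟨a, ha, b, hb, rfl⟩ := hstep
    refine ⟨(a, b) :: g, ⟨hg, ?_, ?_⟩, ?_⟩
    · change a ∈ G.act₁ (G.st s₀ (g ++ h)); rwa [hgt]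
    · change b ∈ G.act₂ (G.st s₀ (g ++ h)); rwa [hgt]
    · change G.δ (G.st s₀ (g ++ h)) a b = _; rw [hgt]

theorem path_full (hb : G.VisitsBoth T₁ T₂ s₀) : ∃ σ τ, G.IsNash T₁ T₂ s₀ σ τ ∧
    1 ≤ G.pay T₁ s₀ σ τ + G.pay T₂ s₀ σ τ := by
  classical
  obtain ⟨s, t, hs, ht, hst⟩ := hb
  obtain ⟨g₁, hg₁, rfl⟩ := exists_hist (G := G) (s₀ := s₀) (h := []) trivial hs
  obtain ⟨g₂, hg₂, rfl⟩ := exists_hist hg₁ ht
  rw [List.append_nil] at *
  set p := g₂ ++ g₁ with hp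
  let σ : List (A × B) → A → ℝ := fun h => if H : ∃ ab : A × B, (ab :: h) <:+ p then
    fun a => if a = H.choose.1 then 1 else 0 else fun _ => 1 / ((G.act₁ (G.st s₀ h)).card : ℝ)
  let τ : List (A × B) → B → ℝ := fun h => if H : ∃ ab : A × B, (ab :: h) <:+ p then
    fun b => if b = H.choose.2 then 1 else 0 else fun _ => 1 / ((G.act₂ (G.st s₀ h)).card : ℝ)
  have hleg : ∀ ab : A × B, ∀ h, (ab :: h) <:+ p →
      ab.1 ∈ G.act₁ (G.st s₀ h) ∧ ab.2 ∈ G.act₂ (G.st s₀ h) := by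
    rintro ab h ⟨k, hk⟩
    have h1 : G.Leg s₀ (k ++ ab :: h) := by rw [hk]; exact hg₂
    exact (Leg.suffix h1).2
  have S1 : G.Strat₁ s₀ σ := by
    intro h
    by_cases H : ∃ ab : A × B, (ab :: h) <:+ p
    · simp only [σ, dif_pos H]
      exact mix_dirac (hleg _ _ H.choose_spec).1
    · simp only [σ, dif_neg H]
      exact mix_unif (G.ne₁ _)
  have S2 : G.Strat₂ s₀ τ := by
    intro h
    by_cases H : ∃ ab : A × B, (ab :: h) <:+ p
    · simp only [τ, dif_pos H]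
      exact mix_dirac (hleg _ _ H.choose_spec).2
    · simp only [τ, dif_neg H]
      exact mix_unif (G.ne₂ _)
  have key : ∀ (T : Set S) (k : List (A × B)), k <:+ p → G.st s₀ k ∈ T → ∀ l h : List (A × B),
      l ++ h = k → G.prob T s₀ σ τ l.length h = 1 := by
    intro T k hk hT l
    induction l using List.reverseRecOn with
    | nil =>
      intro h hh
      rw [List.nil_append] at hh
      subst hh
      exact prob_mem hT _
    | append_singleton l ab ih =>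
      intro h hh
      by_cases hhT : G.st s₀ h ∈ T
      · exact prob_mem hhT _
      have h1 : l ++ (ab :: h) = k := by rw [← hh]; simp
      have h2 := ih (ab :: h) h1
      have h3 : (ab :: h) <:+ p := List.IsSuffix.trans ⟨l, h1⟩ hk
      have H : ∃ ab : A × B, (ab :: h) <:+ p := ⟨ab, h3⟩
      have e : H.choose = ab := by
        have h4 := List.suffix_of_suffix_length_le H.choose_spec h3 (by simp)
        have h5 := h4.eq_of_length (by simp)
        exact (List.cons.inj h5).1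
      have h6 := hleg ab h h3
      rw [List.length_append, List.length_singleton, prob_succ hhT]
      rw [Finset.sum_eq_single ab.1, Finset.sum_eq_single ab.2]
      · have e1 : σ h ab.1 = 1 := by simp only [σ, dif_pos H, e, if_true]
        have e2 : τ h ab.2 = 1 := by simp only [τ, dif_pos H, e, if_true]
        rw [e1, e2, h2]
        norm_num
      · intro b _ hb
        have e2 : τ h b = 0 := by simp only [τ, dif_pos H, e, if_neg hb]
        rw [e2]; ring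
      · exact fun h => absurd h6.2 h
      · intro a _ ha
        have e1 : σ h a = 0 := by simp only [σ, dif_pos H, e, if_neg ha]
        exact Finset.sum_eq_zero fun b _ => by rw [e1]; ring
      · exact fun h => absurd h6.1 h
  have hone : ∀ (T : Set S) (k : List (A × B)), k <:+ p → G.st s₀ k ∈ T →
      G.pay T s₀ σ τ = 1 := by
    intro T k hk hT
    refine le_antisymm (pay_le_one S1 S2) ?_
    have := key T k hk hT k [] (List.append_nil k)
    rw [← this]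
    exact prob_le_pay S1 S2 _
  have h1 : g₁ <:+ p := ⟨g₂, rfl⟩
  have h2 : p <:+ p := List.suffix_refl p
  have h3 : G.pay T₁ s₀ σ τ = 1 ∧ G.pay T₂ s₀ σ τ = 1 := by
    rcases hst with ⟨h4, h5⟩ | ⟨h4, h5⟩
    · exact ⟨hone _ _ h1 h4, hone _ _ h2 h5⟩
    · exact ⟨hone _ _ h2 h5, hone _ _ h1 h4⟩
  refine ⟨σ, τ, ⟨S1, S2, fun σ' hσ' => ?_, fun τ' hτ' => ?_⟩, ?_⟩
  · rw [h3.1]; exact pay_le_one hσ' S2
  · rw [h3.2]; exact pay_le_one S1 hτ'
  · rw [h3.1, h3.2]; norm_num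

theorem path_case (hb : G.VisitsBoth T₁ T₂ s₀) : ∃ σ τ, G.IsNash T₁ T₂ s₀ σ τ := by
  obtain ⟨σ, τ, h, _⟩ := path_full hb
  exact ⟨σ, τ, h⟩

theorem swap_both (h : G.VisitsBoth T₁ T₂ s₀) : G.swap.VisitsBoth T₂ T₁ s₀ := by
  have e : ∀ s t, G.Step s t → G.swap.Step s t := by
    rintro s t ⟨a, ha, b, hb, h⟩
    exact ⟨b, hb, a, ha, h⟩
  obtain ⟨s, t, h1, h2, h3⟩ := h
  exact ⟨s, t, ReflTransGen.mono e _ _ h1, ReflTransGen.mono e _ _ h2, h3.symm⟩

theorem main [Finite S] (G : Game S A B) (T₁ T₂ : Set S) (s₀ : S)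
    (h : (G.val₁ T₁ s₀ = 1 ∨ G.val₂ T₂ s₀ = 1) ∨ (G.val₁ T₁ s₀ = 0 ∧ G.val₂ T₂ s₀ = 0) ∨
      G.VisitsBoth T₁ T₂ s₀ ∨ G.NoStuck T₁ T₂ s₀ ∨ G.swap.NoStuck T₂ T₁ s₀) :
    ∃ σ τ, G.IsNash T₁ T₂ s₀ σ τ := by
  by_cases hb : G.VisitsBoth T₁ T₂ s₀
  · exact path_case hb
  have hb' : ¬ G.swap.VisitsBoth T₂ T₁ s₀ := fun h => hb (swap_both (G := G.swap) h)
  have h2 : G.swap.NoStuck T₂ T₁ s₀ → ∃ σ τ, G.IsNash T₁ T₂ s₀ σ τ := by
    intro h
    obtain ⟨σ, τ, h⟩ := core hb' h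
    exact ⟨_, _, swap_nash h⟩
  rcases h with (h | h) | ⟨h, h'⟩ | h | h | h
  · exact core hb (one_case h)
  · exact h2 (one_case (by rw [← val₂_eq]; exact h))
  · exact zero_case h h'
  · exact absurd h hb
  · exact core hb h
  · exact h2 h

end Game

end Pool.Agent.H95.NE
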