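import Pool.Agent.H95.NE.SumOne

/-!
The final forms, with the deletion of weak actions.
-/

set_option autoImplicit false

open Finset Relation

namespace Pool.Agent.H95.NE

namespace Game

variable {S A B : Type*}

theorem final_star [Finite S] (G : Game S A B) (T₁ T₂ : Set S) (s₀ : S)
    (h : ∃ G' : Game S A B, ReflTransGen (Prunes T₁ T₂) G G' ∧
      ((G'.Stuck T₁ T₂ s₀ ∧ G'.swap.Stuck T₂ T₁ s₀) ∨ G'.NoDoublyStuck T₁ T₂ s₀)) :
    ∃ σ τ, G.IsNash T₁ T₂ s₀ σ τ := by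
  obtain ⟨G', h1, h2⟩ := h
  exact prunes_nash h1 (main_star G' T₁ T₂ s₀ h2)

theorem final_sum [Finite S] (G : Game S A B) (T₁ T₂ : Set S) (s₀ : S)
    (h : ∃ G' : Game S A B, ReflTransGen (Prunes T₁ T₂) G G' ∧
      1 ≤ G'.val₁ T₁ s₀ + G'.val₂ T₂ s₀) :
    ∃ σ τ, G.IsNash T₁ T₂ s₀ σ τ := by
  obtain ⟨G', h1, h2⟩ := h
  refine prunes_nash h1 ?_
  by_cases hb : G'.VisitsBoth T₁ T₂ s₀
  · exact path_case hb
  · exact sumOne hb h2

theorem final_tight [Finite S] (G : Game S A B) (T₁ T₂ : Set S) (s₀ : S)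
    (h : ∃ G' : Game S A B, ReflTransGen (Prunes T₁ T₂) G G' ∧
      (G'.NoStuck T₁ T₂ s₀ ∨ G'.swap.NoStuck T₂ T₁ s₀)) :
    ∃ σ τ, G.IsNash T₁ T₂ s₀ σ τ := by
  obtain ⟨G', h1, h2⟩ := h
  refine prunes_nash h1 (main G' T₁ T₂ s₀ ?_)
  exact Or.inr (Or.inr (Or.inr h2))

end Game

end Pool.Agent.H95.NE
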