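import Pool.Agent.H95.NE.Undec

/-!
The theorem on undecided states, with the deletion of weak actions.
-/

set_option autoImplicit false

open Finset Relation

namespace Pool.Agent.H95.NE

namespace Game

variable {S A B : Type*}

theorem final_undec [Finite S] (G : Game S A B) (T₁ T₂ : Set S) (s₀ : S)
    (h : ∃ G' : Game S A B, ReflTransGen (Prunes T₁ T₂) G G' ∧ (G'.DStuck T₁ T₂ s₀ ∨
      ∀ s, ReflTransGen (G'.UndStep T₁ T₂) s₀ s → ¬ G'.DStuck T₁ T₂ s)) :
    ∃ σ τ, G.IsNash T₁ T₂ s₀ σ τ := by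
  obtain ⟨G', h1, h2⟩ := h
  exact prunes_nash h1 (undec G' T₁ T₂ s₀ h2)

end Game

end Pool.Agent.H95.NE
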