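import Pool.Agent.H95.NE.Fin

/-!
Strictly complementary pairs for rows and columns; nested fixed points of the value operator.
-/

set_option autoImplicit false

open Finset

namespace Pool.Agent.H95.NE

theorem sum_comb {A : Type*} (F : Finset A) (q : ℝ) (x x' m : A → ℝ) :
    ∑ a ∈ F, ((1 - q) * x a + q * x' a) * m a =
      (1 - q) * ∑ a ∈ F, x a * m a + q * ∑ a ∈ F, x' a * m a := by
  rw [Finset.mul_sum, Finset.mul_sum, ← Finset.sum_add_distrib]
  exact Finset.sum_congr rfl fun a _ => by ring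

theorem mix_comb {A : Type*} {F : Finset A} {q : ℝ} (h0 : 0 ≤ q) (h1 : q ≤ 1) {x x' : A → ℝ}
    (hx : Mix F x) (hx' : Mix F x') : Mix F fun a => (1 - q) * x a + q * x' a := by
  refine ⟨fun a ha => add_nonneg (mul_nonneg (by linarith) (hx.1 a ha))
    (mul_nonneg h0 (hx'.1 a ha)), ?_⟩
  have := sum_comb F q x x' fun _ => 1
  simp only [mul_one] at this
  rw [this, hx.2, hx'.2]
  ring

theorem V_neg {A B : Type*} {F : Finset A} (hF : F.Nonempty) {E : Finset B} (hE : E.Nonempty)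
    (M : A → B → ℝ) : V E F (fun b a => - M a b) = - V F E M := by
  obtain ⟨x, hx⟩ := V_lo hF hE M
  obtain ⟨y, hy⟩ := V_up hF hE M
  exact le_antisymm (V_le hE hF (loG_neg.1 hx)) (le_V hE hF (upG_neg.1 hy))

theorem V_compl {A B : Type*} {F : Finset A} (hF : F.Nonempty) {E : Finset B} (hE : E.Nonempty)
    (M : A → B → ℝ) : V E F (fun b a => 1 - M a b) = 1 - V F E M := by
  obtain ⟨x, hx⟩ := V_lo hF hE M
  obtain ⟨y, hy⟩ := V_up hF hE M
  refine le_antisymm (V_le hE hF (y := x) ⟨hx.1, fun b hb => ?_⟩)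
    (le_V hE hF (x := y) ⟨hy.1, fun a ha => ?_⟩)
  · have := hx.2 b hb
    simp only [mul_sub, mul_one, Finset.sum_sub_distrib, hx.1.2]
    linarith
  · have := hy.2 a ha
    simp only [mul_sub, mul_one, Finset.sum_sub_distrib, hy.1.2]
    linarith

/-- A pair of optimal strategies which is strictly complementary for the rows and the columns. -/
theorem bothStrict {A B : Type*} {F : Finset A} (hF : F.Nonempty) {E : Finset B}
    (hE : E.Nonempty) (M : A → B → ℝ) : ∃ x y, LoG F E M x (V F E M) ∧ UpG F E M y (V F E M) ∧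
      (∀ a ∈ F, 0 < x a ∨ ∑ b ∈ E, y b * M a b < V F E M) ∧
      ∀ b ∈ E, 0 < y b ∨ V F E M < ∑ a ∈ F, x a * M a b := by
  obtain ⟨x1, y1, h1, h2, h3⟩ := strictPair hF hE M
  obtain ⟨y2, x2, h4, h5, h6⟩ := strictPair hE hF fun b a => - M a b
  rw [V_neg hF hE] at h4 h5
  simp only [V_neg hF hE] at h6
  have h4' := upG_neg.2 h4
  have h5' := loG_neg.2 h5
  have e1 := sum_comb F (1 / 2) x1 x2
  have e2 := sum_comb E (1 / 2) y1 y2
  refine ⟨fun a => (1 - 1 / 2) * x1 a + 1 / 2 * x2 a, fun b => (1 - 1 / 2) * y1 b + 1 / 2 * y2 b,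
    ⟨mix_comb (by norm_num) (by norm_num) h1.1 h5'.1, fun b hb => ?_⟩,
    ⟨mix_comb (by norm_num) (by norm_num) h2.1 h4'.1, fun a ha => ?_⟩, fun a ha => ?_,
    fun b hb => ?_⟩
  · rw [e1 fun a => M a b]
    have := h1.2 b hb
    have := h5'.2 b hb
    linarith
  · rw [e2 fun b => M a b]
    have := h2.2 a ha
    have := h4'.2 a ha
    linarith
  · rcases h3 a ha with h | h
    · left
      have := h5'.1.1 a ha
      linarith
    · right
      rw [e2 fun b => M a b]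
      have := h4'.2 a ha
      linarith
  · rcases h6 b hb with h | h
    · left
      have := h2.1.1 b hb
      linarith
    · right
      rw [e1 fun a => M a b]
      have := h1.2 b hb
      simp only [mul_neg, Finset.sum_neg_distrib] at h
      linarith

open scoped Classical in
/-- `X` on `Q` and `Y` elsewhere -/
noncomputable def comb {S γ : Type*} (Q : Set S) (X Y : S → γ) : S → γ := fun s =>
  if s ∈ Q then X s else Y s

theorem comb_mono {S γ : Type*} [Preorder γ] {Q : Set S} {X X' Y Y' : S → γ} (h : X ≤ X')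
    (h' : Y ≤ Y') : comb Q X Y ≤ comb Q X' Y' := by
  intro s
  unfold comb
  split_ifs
  · exact h s
  · exact h' s

theorem exists_mu_nu {S : Type*} (Φ : (S → unitInterval) → (S → unitInterval)) (hΦ : Monotone Φ)
    (Q : Set S) : ∃ f, Φ f = f ∧ (∀ Y, Y ≤ Φ (comb Q f Y) → Y ≤ f) ∧
      ∀ X, ∃ W, W = Φ (comb Q X W) ∧ (X ≤ f → W ≤ f) ∧ (W ≤ X → f ≤ X) := by
  let nu : (S → unitInterval) → (S → unitInterval) := fun X =>
    OrderHom.gfp ⟨fun Y => Φ (comb Q X Y), fun Y Y' h => hΦ (comb_mono le_rfl h)⟩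
  have h1 : ∀ X, Φ (comb Q X (nu X)) = nu X := fun X => OrderHom.map_gfp
    ⟨fun Y => Φ (comb Q X Y), fun Y Y' h => hΦ (comb_mono le_rfl h)⟩
  have h2 : ∀ X Y, Y ≤ Φ (comb Q X Y) → Y ≤ nu X := fun X Y h => OrderHom.le_gfp
    ⟨fun Y => Φ (comb Q X Y), fun Y Y' h => hΦ (comb_mono le_rfl h)⟩ h
  have hmono : Monotone nu := by
    intro X X' h
    refine h2 _ _ ?_
    calc nu X = Φ (comb Q X (nu X)) := (h1 X).symm
      _ ≤ Φ (comb Q X' (nu X)) := hΦ (comb_mono h le_rfl)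
  have h3 : nu (OrderHom.lfp ⟨nu, hmono⟩) = OrderHom.lfp ⟨nu, hmono⟩ := OrderHom.map_lfp ⟨nu, hmono⟩
  set f := OrderHom.lfp ⟨nu, hmono⟩ with hf
  refine ⟨f, ?_, fun Y hY => ?_, fun X => ⟨nu X, (h1 X).symm, fun h => ?_, fun h => ?_⟩⟩
  · have h4 := h1 f
    rw [h3] at h4
    have h5 : comb Q f f = f := by
      funext s
      unfold comb
      split_ifs <;> rfl
    rwa [h5] at h4
  · have h4 := h2 f Y hY
    rwa [h3] at h4
  · have h4 := hmono h
    rwa [h3] at h4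
  · exact OrderHom.lfp_le ⟨nu, hmono⟩ h

namespace Game

variable {S A B : Type*} (G : Game S A B)

open scoped Classical in
/-- The value operator with terminal states: payoff `1` on `W₁` and `0` on `W₂`. -/
noncomputable def Top (W₁ W₂ : Set S) (g : S → ℝ) (s : S) : ℝ :=
  if s ∈ W₁ then 1 else if s ∈ W₂ then 0 else
    V (G.act₁ s) (G.act₂ s) fun a b => g (G.δ s a b)

variable {G} {W₁ W₂ Q : Set S}

theorem Top_mono {g g' : S → ℝ} (h : ∀ s, g s ≤ g' s) (s : S) :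
    G.Top W₁ W₂ g s ≤ G.Top W₁ W₂ g' s := by
  unfold Top
  split_ifs
  · exact le_rfl
  · exact le_rfl
  · exact V_mono (G.ne₁ s) (G.ne₂ s) fun a _ b _ => h _

theorem Top_nonneg {g : S → ℝ} (h : ∀ s, 0 ≤ g s) (s : S) : 0 ≤ G.Top W₁ W₂ g s := by
  unfold Top
  split_ifs
  · norm_num
  · norm_num
  · exact V_ge (G.ne₁ s) (G.ne₂ s) fun a _ b _ => h _

theorem Top_le_one {g : S → ℝ} (h : ∀ s, g s ≤ 1) (s : S) : G.Top W₁ W₂ g s ≤ 1 := by
  unfold Top
  split_ifs
  · norm_num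
  · norm_num
  · exact V_le' (G.ne₁ s) (G.ne₂ s) fun a _ b _ => h _

theorem comb_coe (X Y : S → unitInterval) (s : S) :
    ((comb Q X Y s : unitInterval) : ℝ) = comb Q (fun s => (X s : ℝ)) (fun s => (Y s : ℝ)) s := by
  unfold comb
  split_ifs <;> rfl

theorem exists_f (G : Game S A B) (W₁ W₂ Q : Set S) : ∃ f : S → ℝ, (∀ s, 0 ≤ f s) ∧
    (∀ s, f s ≤ 1) ∧ (∀ s, G.Top W₁ W₂ f s = f s) ∧
    (∀ Y : S → ℝ, (∀ s, 0 ≤ Y s) → (∀ s, Y s ≤ 1) → (∀ s, Y s ≤ G.Top W₁ W₂ (comb Q f Y) s) →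
      ∀ s, Y s ≤ f s) ∧
    ∀ X : S → ℝ, (∀ s, 0 ≤ X s) → (∀ s, X s ≤ f s) → ∃ W : S → ℝ, (∀ s, 0 ≤ W s) ∧
      (∀ s, W s = G.Top W₁ W₂ (comb Q X W) s) ∧ (∀ s, W s ≤ f s) ∧
      ((∀ s, W s ≤ X s) → ∀ s, f s ≤ X s) := by
  let Φ : (S → unitInterval) → (S → unitInterval) := fun g s =>
    ⟨G.Top W₁ W₂ (fun s => (g s : ℝ)) s, Top_nonneg (fun s => (g s).2.1) s,
      Top_le_one (fun s => (g s).2.2) s⟩
  have hΦ : Monotone Φ := fun g g' h s => Top_mono (fun s => h s) s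
  obtain ⟨f, h1, h2, h3⟩ := exists_mu_nu Φ hΦ Q
  refine ⟨fun s => (f s : ℝ), fun s => (f s).2.1, fun s => (f s).2.2, fun s => ?_,
    fun Y hY0 hY1 hY => ?_, fun X hX0 hX => ?_⟩
  · exact congrArg Subtype.val (congrFun h1 s)
  · have h4 := h2 (fun s => ⟨Y s, hY0 s, hY1 s⟩) (fun s => by
      refine Subtype.coe_le_coe.1 ?_
      change Y s ≤ G.Top W₁ W₂ (fun s => ((comb Q f (fun s => ⟨Y s, hY0 s, hY1 s⟩) s :
        unitInterval) : ℝ)) s
      have e : (fun s => ((comb Q f (fun s => ⟨Y s, hY0 s, hY1 s⟩) s : unitInterval) : ℝ)) =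
          comb Q (fun s => (f s : ℝ)) Y := by
        funext s
        rw [comb_coe]
      rw [e]
      exact hY s)
    exact fun s => h4 s
  · obtain ⟨W, h4, h5, h6⟩ := h3 fun s => ⟨X s, hX0 s, (hX s).trans (f s).2.2⟩
    refine ⟨fun s => (W s : ℝ), fun s => (W s).2.1, fun s => ?_, fun s => ?_, fun h s => ?_⟩
    · have h7 := congrArg Subtype.val (congrFun h4 s)
      change (W s : ℝ) = G.Top W₁ W₂ (fun s => ((comb Q (fun s => ⟨X s, hX0 s,
        (hX s).trans (f s).2.2⟩) W s : unitInterval) : ℝ)) s at h7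
      have e : (fun s => ((comb Q (fun s => ⟨X s, hX0 s, (hX s).trans (f s).2.2⟩) W s :
          unitInterval) : ℝ)) = comb Q X (fun s => (W s : ℝ)) := by
        funext s
        rw [comb_coe]
      rw [e] at h7
      exact h7
    · exact h5 (fun s => hX s) s
    · exact h6 (fun s => h s) s

end Game

end Pool.Agent.H95.NE
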