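import Pool.Agent.H95.NE.Full1

/-!
A state without a full equilibrium leads, through states without full equilibria, to a doubly stuck
state without a full equilibrium.
-/

set_option autoImplicit false

open Finset Relation

namespace Pool.Agent.H95.NE

/-- The modes of the play: before the exit (`main`), after a deviation of player 1 (`pun`), and after
the exit into the state `t`, with the history `k` since then (`out t k`). -/
inductive Md (S A B : Type*)
  | main : Md S A B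
  | pun : Md S A B
  | out : S → List (A × B) → Md S A B

namespace Game

variable {S A B : Type*} {G : Game S A B} {T₁ T₂ : Set S} {s₀ : S}

theorem pay_stat_step {x : S → A → ℝ} {y : S → B → ℝ} (hx : ∀ s, Mix (G.act₁ s) (x s))
    (hy : ∀ s, Mix (G.act₂ s) (y s)) {T : Set S} {s : S} (hs : s ∉ T) :
    G.pay T s (fun h => x (G.st s h)) (fun h => y (G.st s h)) =
      ∑ a ∈ G.act₁ s, ∑ b ∈ G.act₂ s, x s a * y s b *
        G.pay T (G.δ s a b) (fun h => x (G.st (G.δ s a b) h))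
          (fun h => y (G.st (G.δ s a b) h)) := by
  rw [Pool.Agent.H40.NE.pay_step hs (fun h => hx _) (fun h => hy _)]
  refine Finset.sum_congr rfl fun a _ => Finset.sum_congr rfl fun b _ => ?_
  have e : ∀ h : List (A × B), G.st s (h ++ [(a, b)]) = G.st (G.δ s a b) h := fun h =>
    Pool.Agent.H40.NE.st_append s h [(a, b)]
  simp only [e]
  rfl

theorem full_aux [Finite S] (hnb : ¬ G.VisitsBoth T₁ T₂ s₀)
    (hds : ∀ s, ReflTransGen (G.FStep T₁ T₂) s₀ s → G.DStuck T₁ T₂ s → G.Full T₁ T₂ s) :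
    G.Full T₁ T₂ s₀ := by
  classical
  have : Nonempty S := ⟨s₀⟩
  by_contra hF₀
  have hv1 : ∀ s, G.val₁ T₁ s = G.L T₁ s := fun s => val₁_eq s
  have hv2 : ∀ s, G.swap.val₁ T₂ s = G.swap.L T₂ s := fun s => val₁_eq s
  set H : Set S := {s | ReflTransGen (G.FStep T₁ T₂) s₀ s} with hHdef
  have hHsub : ∀ s ∈ H, ReflTransGen G.Step s₀ s := fun s h =>
    ReflTransGen.mono (fun _ _ h => h.2) _ _ h
  have hHnb : ∀ s ∈ H, ¬ G.VisitsBoth T₁ T₂ s := fun s h h' => hnb (both_of_reach (hHsub s h) h')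
  set W₂ : Set S := {s | s ∉ H} with hW₂
  set W₁ : Set S := {s | s ∈ H ∧ G.Full T₁ T₂ s} with hW₁
  -- the equilibria
  have hdef : ∀ t, ∃ σ τ, G.Strat₁ t σ ∧ G.Strat₂ t τ ∧ (G.Full T₁ T₂ t →
      G.IsNash T₁ T₂ t σ τ ∧ 1 ≤ G.pay T₁ t σ τ + G.pay T₂ t σ τ) := by
    intro t
    by_cases h : G.Full T₁ T₂ t
    · obtain ⟨σ, τ, h1, h2⟩ := h
      exact ⟨σ, τ, h1.1, h1.2.1, fun _ => ⟨h1, h2⟩⟩
    · exact ⟨_, _, fun h => mix_unif (G.ne₁ _), fun h => mix_unif (G.ne₂ _), fun h' => absurd h' h⟩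
  choose σ τ hσ hτ hN using hdef
  set c : S → ℝ := fun t => G.pay T₁ t (σ t) (τ t) with hc
  have hc0 : ∀ s, 0 ≤ c s := fun s => pay_nonneg (hσ s) (hτ s)
  have hc1 : ∀ s, c s ≤ 1 := fun s => pay_le_one (hσ s) (hτ s)
  have hc2 : ∀ s ∈ H, G.pay T₂ s (σ s) (τ s) ≤ 1 - c s := fun s hs => by
    have := pay_sum_le (hσ s) (hτ s) (hHnb s hs)
    simp only [hc]
    linarith
  have hRH : ∀ s, s ∉ W₂ → s ∈ H := fun s h => not_not.1 h
  have hnf : ∀ s, s ∉ W₁ → s ∉ W₂ → ¬ G.Full T₁ T₂ s := fun s h1 h2 h => h1 ⟨hRH s h2, h⟩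
  have hH : ∀ s, s ∉ W₁ → s ∉ W₂ → ∀ a ∈ G.act₁ s, ∀ b ∈ G.act₂ s, G.δ s a b ∈ H :=
    fun s h1 h2 a ha b hb => ReflTransGen.tail (hRH s h2) ⟨hnf s h1 h2, a, ha, b, hb, rfl⟩
  have hT : ∀ s ∈ H, s ∈ T₁ → s ∈ W₁ := fun s hs h => ⟨hs, full_of_mem₁ (hHnb s hs) h⟩
  have hT' : ∀ s ∈ H, s ∈ T₂ → s ∈ W₁ := fun s hs h => ⟨hs, full_of_mem₂ (hHnb s hs) h⟩
  have hpos : ∀ s, s ∉ W₁ → s ∉ W₂ → G.L T₁ s = 0 → 0 < G.swap.L T₂ s := by
    intro s h1 h2 h3
    rcases (L_nonneg (G := G.swap) (T := T₂) s).lt_or_eq with h | h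
    · exact h
    exfalso
    have h4 := hnf s h1 h2
    have hsH := hRH s h2
    refine h4 (hds s hsH ⟨?_, ?_⟩)
    · by_contra h5
      exact h4 (full_of_noStuck (hHnb s hsH) (noStuck_of_zero (by rw [hv1]; exact h3) h5))
    · by_contra h5
      exact h4 (full_of_noStuck' (hHnb s hsH)
        (noStuck_of_zero (G := G.swap) (by rw [hv2]; exact h.symm) h5))
  have hWP1 : ∀ s ∈ W₁, W G T₁ s (τ s) [] ≤ c s := fun s hs => W_nash (hN s hs.2).1
  have hWP2 : ∀ s ∈ W₁, W2 G T₂ s (σ s) [] ≤ 1 - c s := fun s hs =>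
    (W2_nash (hN s hs.2).1).trans (hc2 s hs.1)
  obtain ⟨f, xs, ys, r, hf0, hf1, hfc, hxs, hys, hR⟩ :=
    phaseC (W₁ := W₁) (W₂ := W₂) (T := T₁) (T' := T₂) hc0 hc1 hH (fun s hs => hs)
      (fun s hs h => Or.inl (hT s hs h))
      (fun s hs h => (L_le_W (T := T₁) (hτ s) []).trans
        (hWP1 s (h.resolve_right fun h => h hs)))
      (fun s hs h => Or.inr (hT' s hs h))
      (fun s hs h => (L_le_W2 (T := T₂) (hσ s) []).trans
        (hWP2 s (h.resolve_left fun h => h hs))) hpos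
  obtain ⟨_, y1, _, hy1, _, hcy1, _, _⟩ := corePair G T₁ T₂
  have hs₀H : s₀ ∈ H := ReflTransGen.refl
  have hs₀1 : s₀ ∉ W₁ := fun h => hF₀ h.2
  have hs₀2 : s₀ ∉ W₂ := fun h => h hs₀H
  -- the strategies
  let ux : S → A → ℝ := fun s _ => 1 / ((G.act₁ s).card : ℝ)
  let uy : S → B → ℝ := fun s _ => 1 / ((G.act₂ s).card : ℝ)
  let u : Md S A B → S → A → B → Md S A B := fun m s a b => match m with
    | Md.main => if 0 < xs s a then (if G.δ s a b ∈ W₁ then Md.out (G.δ s a b) [] else Md.main)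
        else Md.pun
    | Md.pun => Md.pun
    | Md.out t k => Md.out t ((a, b) :: k)
  let X : S × Md S A B → A → ℝ := fun p => match p.2 with
    | Md.main => xs p.1
    | Md.pun => ux p.1
    | Md.out t k => if G.st t k = p.1 then σ t k else ux p.1
  let Y : S × Md S A B → B → ℝ := fun p => match p.2 with
    | Md.main => ys p.1
    | Md.pun => y1 p.1
    | Md.out t k => if G.st t k = p.1 then τ t k else uy p.1
  let P₁ : S × Md S A B → ℝ := fun p => match p.2 with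
    | Md.main => f p.1
    | Md.pun => G.L T₁ p.1
    | Md.out t k => W G T₁ t (τ t) k
  let P₂ : S × Md S A B → ℝ := fun p => match p.2 with
    | Md.main => 1 - f p.1
    | Md.pun => 1
    | Md.out t k => W2 G T₂ t (σ t) k
  let Q : Set (S × Md S A B) := {p | match p.2 with
    | Md.main => p.1 ∉ W₁ ∧ p.1 ∉ W₂
    | Md.pun => True
    | Md.out t k => t ∈ W₁ ∧ G.st t k = p.1}
  let E : S → S × Md S A B := fun t => if t ∈ W₁ then (t, Md.out t []) else (t, Md.main)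
  have hX : ∀ p, Mix ((G.lift u).act₁ p) (X p) := by
    rintro ⟨s, _ | _ | ⟨t, k⟩⟩
    · exact hxs s
    · exact mix_unif (G.ne₁ s)
    · change Mix (G.act₁ s) (if G.st t k = s then σ t k else ux s)
      split_ifs with h
      · rw [← h]; exact hσ t k
      · exact mix_unif (G.ne₁ s)
  have hY : ∀ p, Mix ((G.lift u).act₂ p) (Y p) := by
    rintro ⟨s, _ | _ | ⟨t, k⟩⟩
    · exact hys s
    · exact hy1 s
    · change Mix (G.act₂ s) (if G.st t k = s then τ t k else uy s)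
      split_ifs with h
      · rw [← h]; exact hτ t k
      · exact mix_unif (G.ne₂ s)
  have step1 : ∀ s a b, 0 < xs s a → (G.lift u).δ (s, Md.main) a b = E (G.δ s a b) := by
    intro s a b h
    change (G.δ s a b, if 0 < xs s a then (if G.δ s a b ∈ W₁ then Md.out (G.δ s a b) []
      else Md.main) else Md.pun) = E (G.δ s a b)
    simp only [E, if_pos h]
    split_ifs <;> rfl
  have step2 : ∀ s a b, ¬ 0 < xs s a → (G.lift u).δ (s, Md.main) a b = (G.δ s a b, Md.pun) :=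
    fun s a b h => Prod.ext rfl (if_neg h)
  have hE1 : ∀ s ∈ H, P₁ (E s) ≤ f s := by
    intro s hs
    by_cases h : s ∈ W₁
    · simp only [E, if_pos h]
      rw [hfc s (Or.inl h)]
      exact hWP1 s h
    · simp only [E, if_neg h]
      exact le_rfl
  have hE2 : ∀ s ∈ H, P₂ (E s) ≤ 1 - f s := by
    intro s hs
    by_cases h : s ∈ W₁
    · simp only [E, if_pos h]
      rw [hfc s (Or.inl h)]
      exact hWP2 s h
    · simp only [E, if_neg h]
      exact le_rfl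
  have hQ : ∀ p ∈ Q, ∀ a ∈ (G.lift u).act₁ p, ∀ b ∈ (G.lift u).act₂ p, (G.lift u).δ p a b ∈ Q := by
    rintro ⟨s, _ | _ | ⟨t, k⟩⟩ hp a ha b hb
    · obtain ⟨h1, h2⟩ : s ∉ W₁ ∧ s ∉ W₂ := hp
      have h3 := hH s h1 h2 a ha b hb
      by_cases hxa : 0 < xs s a
      · rw [step1 s a b hxa]
        by_cases h : G.δ s a b ∈ W₁
        · simp only [E, if_pos h]
          exact ⟨h, rfl⟩
        · simp only [E, if_neg h]
          exact ⟨h, fun h' => h' h3⟩
      · rw [step2 s a b hxa]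
        exact trivial
    · exact trivial
    · obtain ⟨h1, h2⟩ : t ∈ W₁ ∧ G.st t k = s := hp
      refine ⟨h1, ?_⟩
      change G.δ (G.st t k) a b = G.δ s a b
      rw [h2]
  have hq0 : (s₀, Md.main) ∈ Q := ⟨hs₀1, hs₀2⟩
  have S1 : (G.lift u).Strat₁ (s₀, Md.main) (fun h => X ((G.lift u).st (s₀, Md.main) h)) :=
    fun h => hX _
  have S2 : (G.lift u).Strat₂ (s₀, Md.main) (fun h => Y ((G.lift u).st (s₀, Md.main) h)) :=
    fun h => hY _
  have hu1 : ∀ σ', (G.lift u).Strat₁ (s₀, Md.main) σ' →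
      (G.lift u).pay (Prod.fst ⁻¹' T₁) (s₀, Md.main) σ'
        (fun h => Y ((G.lift u).st (s₀, Md.main) h)) ≤ f s₀ := by
    intro σ' hσ'
    refine pay_le fun n => ub₁ (f := P₁) (Q := Q) hY hQ ?_ ?_ ?_ hσ' n [] hq0
    · rintro ⟨s, _ | _ | ⟨t, k⟩⟩ hp
      · exact hf0 s
      · exact L_nonneg s
      · exact W_nonneg (hτ t) k
    · rintro ⟨s, _ | _ | ⟨t, k⟩⟩ hp (hs : s ∈ T₁)
      · obtain ⟨h1, h2⟩ : s ∉ W₁ ∧ s ∉ W₂ := hp
        exact absurd (hT s (hRH s h2) hs) h1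
      · exact (L_mem hs).ge
      · obtain ⟨h1, h2⟩ : t ∈ W₁ ∧ G.st t k = s := hp
        subst h2
        exact W_mem (hτ t) hs
    · rintro ⟨s, _ | _ | ⟨t, k⟩⟩ hp (hs : s ∉ T₁) a ha
      · obtain ⟨h1, h2⟩ : s ∉ W₁ ∧ s ∉ W₂ := hp
        obtain ⟨_, h3, h4, _⟩ := hR s h1 h2
        change ∑ b ∈ G.act₂ s, ys s b * P₁ ((G.lift u).δ (s, Md.main) a b) ≤ f s
        by_cases hxa : 0 < xs s a
        · refine le_trans (Finset.sum_le_sum fun b hb =>
            mul_le_mul_of_nonneg_left ?_ ((hys s).1 b hb)) (h3 a ha hxa)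
          rw [step1 s a b hxa]
          exact hE1 _ (hH s h1 h2 a ha b hb)
        · refine le_trans (le_of_eq (Finset.sum_congr rfl fun b hb => ?_)) (h4 a ha)
          rw [step2 s a b hxa]
      · exact hcy1 s hs a ha
      · obtain ⟨h1, h2⟩ : t ∈ W₁ ∧ G.st t k = s := hp
        subst h2
        change ∑ b ∈ G.act₂ (G.st t k), (if G.st t k = G.st t k then τ t k else uy (G.st t k)) b *
          W G T₁ t (τ t) ((a, b) :: k) ≤ W G T₁ t (τ t) k
        rw [if_pos rfl]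
        exact sum_W_le (hτ t) hs ha
  have hu2 : ∀ τ', (G.lift u).Strat₂ (s₀, Md.main) τ' →
      (G.lift u).pay (Prod.fst ⁻¹' T₂) (s₀, Md.main)
        (fun h => X ((G.lift u).st (s₀, Md.main) h)) τ' ≤ 1 - f s₀ := by
    intro τ' hτ'
    refine pay_le fun n => ub₂ (f := P₂) (Q := Q) hX hQ ?_ ?_ ?_ hτ' n [] hq0
    · rintro ⟨s, _ | _ | ⟨t, k⟩⟩ hp
      · have := hf1 s
        change 0 ≤ 1 - f s
        linarith
      · exact zero_le_one
      · exact W2_nonneg (hσ t) k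
    · rintro ⟨s, _ | _ | ⟨t, k⟩⟩ hp (hs : s ∈ T₂)
      · obtain ⟨h1, h2⟩ : s ∉ W₁ ∧ s ∉ W₂ := hp
        exact absurd (hT' s (hRH s h2) hs) h1
      · exact le_rfl
      · obtain ⟨h1, h2⟩ : t ∈ W₁ ∧ G.st t k = s := hp
        subst h2
        exact W2_mem (hσ t) hs
    · rintro ⟨s, _ | _ | ⟨t, k⟩⟩ hp (hs : s ∉ T₂) b hb
      · obtain ⟨h1, h2⟩ : s ∉ W₁ ∧ s ∉ W₂ := hp
        obtain ⟨h5, _, _, _⟩ := hR s h1 h2
        change ∑ a ∈ G.act₁ s, xs s a * P₂ ((G.lift u).δ (s, Md.main) a b) ≤ 1 - f s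
        have h3 : ∑ a ∈ G.act₁ s, xs s a * P₂ ((G.lift u).δ (s, Md.main) a b) ≤
            ∑ a ∈ G.act₁ s, xs s a * (1 - f (G.δ s a b)) := by
          refine Finset.sum_le_sum fun a ha => ?_
          rcases ((hxs s).1 a ha).lt_or_eq with hxa | hxa
          · rw [step1 s a b hxa]
            exact mul_le_mul_of_nonneg_left (hE2 _ (hH s h1 h2 a ha b hb)) hxa.le
          · rw [← hxa]; simp
        refine h3.trans ?_
        simp only [mul_sub, mul_one, Finset.sum_sub_distrib, (hxs s).2]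
        have := h5 b hb
        linarith
      · change ∑ a ∈ G.act₁ s, ux s a * (1 : ℝ) ≤ 1
        exact mix_le (mix_unif (G.ne₁ s)) fun _ _ => le_rfl
      · obtain ⟨h1, h2⟩ : t ∈ W₁ ∧ G.st t k = s := hp
        subst h2
        change ∑ a ∈ G.act₁ (G.st t k), (if G.st t k = G.st t k then σ t k else ux (G.st t k)) a *
          W2 G T₂ t (σ t) ((a, b) :: k) ≤ W2 G T₂ t (σ t) k
        rw [if_pos rfl]
        exact sum_W2_le (hσ t) hs hb
  -- the sum of the payoffs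
  let Φ : S × Md S A B → ℝ := fun p =>
    (G.lift u).pay (Prod.fst ⁻¹' T₁) p (fun h => X ((G.lift u).st p h))
      (fun h => Y ((G.lift u).st p h)) +
    (G.lift u).pay (Prod.fst ⁻¹' T₂) p (fun h => X ((G.lift u).st p h))
      (fun h => Y ((G.lift u).st p h))
  have hΦout : ∀ t ∈ W₁, 1 ≤ Φ (t, Md.out t []) := by
    intro t ht
    have hst : ∀ h : List (A × B), (G.lift u).st (t, Md.out t []) h = (G.st t h, Md.out t h) := by
      intro h
      induction h with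
      | nil => rfl
      | cons p h ih =>
        change (G.lift u).δ ((G.lift u).st (t, Md.out t []) h) p.1 p.2 = _
        rw [ih]
        rfl
    have e1 : (fun h => X ((G.lift u).st (t, Md.out t []) h)) = σ t := by
      funext h
      rw [hst]
      exact if_pos rfl
    have e2 : (fun h => Y ((G.lift u).st (t, Md.out t []) h)) = τ t := by
      funext h
      rw [hst]
      exact if_pos rfl
    change 1 ≤ (G.lift u).pay (Prod.fst ⁻¹' T₁) (t, Md.out t []) _ _ +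
      (G.lift u).pay (Prod.fst ⁻¹' T₂) (t, Md.out t []) _ _
    rw [e1, e2, lift_pay, lift_pay]
    exact (hN t ht.2).2
  have hlow := Pool.Agent.H40.NE.max_principle (G := G) (C := {s | s ∉ W₁ ∧ s ∉ W₂}) hxs hys
    (F := fun s => if s ∈ W₂ then 1 else Φ (E s)) (φ := fun _ => 1) ?_ ?_ ?_ ?_ s₀ ⟨hs₀1, hs₀2⟩
  · simp only [if_neg hs₀2, E, if_neg hs₀1] at hlow
    have hN' : (G.lift u).IsNash (Prod.fst ⁻¹' T₁) (Prod.fst ⁻¹' T₂) (s₀, Md.main)
        (fun h => X ((G.lift u).st (s₀, Md.main) h))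
        (fun h => Y ((G.lift u).st (s₀, Md.main) h)) := by
      have h1 := hu1 _ S1
      have h2 := hu2 _ S2
      have h3 : 1 ≤ (G.lift u).pay (Prod.fst ⁻¹' T₁) (s₀, Md.main)
        (fun h => X ((G.lift u).st (s₀, Md.main) h))
        (fun h => Y ((G.lift u).st (s₀, Md.main) h)) +
        (G.lift u).pay (Prod.fst ⁻¹' T₂) (s₀, Md.main)
        (fun h => X ((G.lift u).st (s₀, Md.main) h))
        (fun h => Y ((G.lift u).st (s₀, Md.main) h)) := hlow
      refine ⟨S1, S2, fun σ' hσ' => ?_, fun τ' hτ' => ?_⟩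
      · have := hu1 σ' hσ'
        linarith
      · have := hu2 τ' hτ'
        linarith
    refine hF₀ ⟨_, _, nash_of_lift hN', ?_⟩
    rw [← lift_pay (u := u) (m₀ := Md.main), ← lift_pay (u := u) (m₀ := Md.main)]
    exact hlow
  · rintro s ⟨h1, h2⟩
    have hs1 : (s, Md.main) ∉ (Prod.fst ⁻¹' T₁ : Set (S × Md S A B)) := fun h =>
      h1 (hT s (hRH s h2) h)
    have hs2 : (s, Md.main) ∉ (Prod.fst ⁻¹' T₂ : Set (S × Md S A B)) := fun h =>
      h1 (hT' s (hRH s h2) h)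
    simp only [if_neg h2, E, if_neg h1]
    refine le_of_eq ?_
    change _ = (G.lift u).pay (Prod.fst ⁻¹' T₁) (s, Md.main) _ _ +
      (G.lift u).pay (Prod.fst ⁻¹' T₂) (s, Md.main) _ _
    rw [pay_stat_step hX hY hs1, pay_stat_step hX hY hs2, ← Finset.sum_add_distrib]
    refine Finset.sum_congr rfl fun a ha => ?_
    rw [← Finset.sum_add_distrib]
    refine Finset.sum_congr rfl fun b hb => ?_
    rw [← mul_add]
    change xs s a * ys s b * _ = xs s a * ys s b * Φ ((G.lift u).δ (s, Md.main) a b)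
    rcases ((hxs s).1 a ha).lt_or_eq with hxa | hxa
    · rw [step1 s a b hxa, if_neg fun h => h (hH s h1 h2 a ha b hb)]
    · rw [← hxa]; simp
  · rintro s ⟨h1, h2⟩
    rw [dsum]
    simp only [mul_one, (hys s).2, (hxs s).2, le_refl]
  · intro s hs
    by_cases h2 : s ∈ W₂
    · simp only [if_pos h2, le_refl]
    · have h1 : s ∈ W₁ := by
        by_contra h1
        exact hs ⟨h1, h2⟩
      simp only [if_neg h2, E, if_pos h1]
      exact hΦout s h1
  · have key : ∀ n, ∀ s, r s = n → s ∉ W₁ → s ∉ W₂ →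
        ∃ t, ReflTransGen (Pool.Agent.H40.NE.PS G {s | s ∉ W₁ ∧ s ∉ W₂} xs ys) s t ∧
          t ∉ {s | s ∉ W₁ ∧ s ∉ W₂} := by
      intro n
      induction n using Nat.strong_induction_on with
      | _ n ih =>
        intro s hn h1 h2
        obtain ⟨_, _, _, a, ha, b, hb, hxa, hyb, hr⟩ := hR s h1 h2
        have hst : Pool.Agent.H40.NE.PS G {s | s ∉ W₁ ∧ s ∉ W₂} xs ys s (G.δ s a b) :=
          ⟨⟨h1, h2⟩, a, ha, b, hb, hxa, hyb, rfl⟩
        by_cases h : G.δ s a b ∉ W₁ ∧ G.δ s a b ∉ W₂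
        · obtain ⟨t, ht, h'⟩ := ih _ (by omega) _ rfl h.1 h.2
          exact ⟨t, ReflTransGen.head hst ht, h'⟩
        · exact ⟨_, ReflTransGen.single hst, h⟩
    exact fun s hs => key _ s rfl hs.1 hs.2

/-- If every doubly stuck state that is reached from `s₀` through states without full equilibria has
a full equilibrium, then there is a full equilibrium from `s₀`. -/
theorem full_main [Finite S] (G : Game S A B) (T₁ T₂ : Set S) (s₀ : S)
    (h : ∀ s, ReflTransGen (G.FStep T₁ T₂) s₀ s → G.DStuck T₁ T₂ s → G.Full T₁ T₂ s) :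
    G.Full T₁ T₂ s₀ := by
  by_cases hb : G.VisitsBoth T₁ T₂ s₀
  · exact path_full hb
  · exact full_aux hb h

theorem nash_of_full (h : G.Full T₁ T₂ s₀) : ∃ σ τ, G.IsNash T₁ T₂ s₀ σ τ := by
  obtain ⟨σ, τ, h, _⟩ := h
  exact ⟨σ, τ, h⟩

theorem full_of_sum' [Finite S] (h : 1 ≤ G.val₁ T₁ s₀ + G.val₂ T₂ s₀) : G.Full T₁ T₂ s₀ := by
  by_cases hb : G.VisitsBoth T₁ T₂ s₀
  · exact path_full hb
  · exact full_of_sum hb h

theorem full_noStuck [Finite S] (h : G.NoStuck T₁ T₂ s₀) : G.Full T₁ T₂ s₀ := by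
  by_cases hb : G.VisitsBoth T₁ T₂ s₀
  · exact path_full hb
  · exact full_of_noStuck hb h

theorem full_noStuck' [Finite S] (h : G.swap.NoStuck T₂ T₁ s₀) : G.Full T₁ T₂ s₀ :=
  full_swap (full_noStuck h)

theorem full_of_settled [Finite S] (h : G.Settled T₁ T₂ s₀) : G.Full T₁ T₂ s₀ := by
  refine full_noStuck (noStuck_of_zero h.1 fun hs => ?_)
  obtain ⟨_, t, ht, hst⟩ := h
  exact hs.2 t ht hst

theorem full_of_settled' [Finite S] (h : G.swap.Settled T₂ T₁ s₀) : G.Full T₁ T₂ s₀ :=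
  full_swap (full_of_settled h)

/-- A state without a full equilibrium leads, through such states, to a doubly stuck state without
a full equilibrium. -/
theorem exists_dstuck [Finite S] (h : ¬ G.Full T₁ T₂ s₀) :
    ∃ d, ReflTransGen (G.FStep T₁ T₂) s₀ d ∧ G.Stuck T₁ T₂ d ∧ G.swap.Stuck T₂ T₁ d ∧
      ¬ G.Full T₁ T₂ d := by
  by_contra hcon
  push Not at hcon
  exact h (full_main G T₁ T₂ s₀ fun s hs hd => hcon s hs hd.1 hd.2)

/-- The same with a path on which only the last state is doubly stuck. -/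
theorem first_dstuck [Finite S] (h : ¬ G.Full T₁ T₂ s₀) :
    ∃ d, ReflTransGen (fun s t => ¬ G.Full T₁ T₂ s ∧ ¬ (G.Stuck T₁ T₂ s ∧ G.swap.Stuck T₂ T₁ s) ∧
      G.Step s t) s₀ d ∧ G.Stuck T₁ T₂ d ∧ G.swap.Stuck T₂ T₁ d ∧ ¬ G.Full T₁ T₂ d := by
  obtain ⟨d, hd, h1, h2, h3⟩ := exists_dstuck h
  clear h
  induction hd using ReflTransGen.head_induction_on with
  | refl => exact ⟨d, ReflTransGen.refl, h1, h2, h3⟩
  | @head t t' hstep _ ih =>
    by_cases hst : G.Stuck T₁ T₂ t ∧ G.swap.Stuck T₂ T₁ t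
    · exact ⟨t, ReflTransGen.refl, hst.1, hst.2, hstep.1⟩
    · obtain ⟨d', h4, h5⟩ := ih
      exact ⟨d', ReflTransGen.head ⟨hstep.1, hst, hstep.2⟩ h4, h5⟩

end Game

end Pool.Agent.H95.NE
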