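import Pool.Agent.H95.NE.Defs

/-!
The definition of a full equilibrium.
-/

set_option autoImplicit false

namespace Pool.Agent.H95.NE

namespace Game

variable {S A B : Type*} (G : Game S A B)

/-- From `s` there is a full equilibrium: a Nash equilibrium with payoffs that add up to at least
`1`. -/
def Full (T₁ T₂ : Set S) (s : S) : Prop :=
  ∃ σ τ, G.IsNash T₁ T₂ s σ τ ∧ 1 ≤ G.pay T₁ s σ τ + G.pay T₂ s σ τ

/-- A move with available actions from a state without a full equilibrium. -/
def FStep (T₁ T₂ : Set S) (s s' : S) : Prop := ¬ G.Full T₁ T₂ s ∧ G.Step s s'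

end Game

end Pool.Agent.H95.NE
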