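import Pool.Agent.H95.NE.Star

/-!
Deleting weak actions does not lose the existence of an equilibrium.
-/

set_option autoImplicit false

open Finset Relation

namespace Pool.Agent.H95.NE

namespace Game

variable {S A B : Type*} {G G' : Game S A B} {T T₁ T₂ : Set S} {s₀ : S}
  {τ : List (A × B) → B → ℝ}

open scoped Classical in
/-- The best `n`-stage reply against `τ`. -/
noncomputable def br (G : Game S A B) (T : Set S) (s₀ : S) (τ : List (A × B) → B → ℝ) :
    ℕ → List (A × B) → ℝ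
  | 0, h => if G.st s₀ h ∈ T then 1 else 0
  | n + 1, h => if G.st s₀ h ∈ T then 1 else
      (G.act₁ (G.st s₀ h)).sup' (G.ne₁ _) fun a =>
        ∑ b ∈ G.act₂ (G.st s₀ h), τ h b * br G T s₀ τ n ((a, b) :: h)

theorem br_mem {h : List (A × B)} (hh : G.st s₀ h ∈ T) (n : ℕ) : br G T s₀ τ n h = 1 := by
  cases n <;> simp [br, hh]

theorem br_zero {h : List (A × B)} (hh : G.st s₀ h ∉ T) : br G T s₀ τ 0 h = 0 := by
  simp [br, hh]

theorem br_succ {h : List (A × B)} (hh : G.st s₀ h ∉ T) (n : ℕ) : br G T s₀ τ (n + 1) h =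
    (G.act₁ (G.st s₀ h)).sup' (G.ne₁ _) fun a =>
        ∑ b ∈ G.act₂ (G.st s₀ h), τ h b * br G T s₀ τ n ((a, b) :: h) := by
  simp [br, hh]

theorem le_br {h : List (A × B)} (hh : G.st s₀ h ∉ T) (n : ℕ) {a : A}
    (ha : a ∈ G.act₁ (G.st s₀ h)) :
    ∑ b ∈ G.act₂ (G.st s₀ h), τ h b * br G T s₀ τ n ((a, b) :: h) ≤ br G T s₀ τ (n + 1) h := by
  rw [br_succ hh]
  exact Finset.le_sup' (fun a => ∑ b ∈ G.act₂ (G.st s₀ h), τ h b * br G T s₀ τ n ((a, b) :: h)) ha

theorem br_nonneg (hτ : G.Strat₂ s₀ τ) (n : ℕ) : ∀ h, 0 ≤ br G T s₀ τ n h := by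
  induction n with
  | zero =>
    intro h
    by_cases hh : G.st s₀ h ∈ T
    · rw [br_mem hh]; norm_num
    · rw [br_zero hh]
  | succ n ih =>
    intro h
    by_cases hh : G.st s₀ h ∈ T
    · rw [br_mem hh]; norm_num
    · obtain ⟨a, ha⟩ := G.ne₁ (G.st s₀ h)
      exact (Finset.sum_nonneg fun b hb => mul_nonneg ((hτ h).1 b hb) (ih _)).trans (le_br hh n ha)

theorem br_le_one (hτ : G.Strat₂ s₀ τ) (n : ℕ) : ∀ h, br G T s₀ τ n h ≤ 1 := by
  induction n with
  | zero =>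
    intro h
    by_cases hh : G.st s₀ h ∈ T
    · rw [br_mem hh]
    · rw [br_zero hh]; norm_num
  | succ n ih =>
    intro h
    by_cases hh : G.st s₀ h ∈ T
    · rw [br_mem hh]
    · rw [br_succ hh]
      exact Finset.sup'_le _ _ fun a _ => mix_le (hτ h) fun b _ => ih _

theorem br_mono_succ (hτ : G.Strat₂ s₀ τ) (n : ℕ) :
    ∀ h, br G T s₀ τ n h ≤ br G T s₀ τ (n + 1) h := by
  induction n with
  | zero =>
    intro h
    by_cases hh : G.st s₀ h ∈ T
    · rw [br_mem hh, br_mem hh]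
    · rw [br_zero hh]; exact br_nonneg hτ _ _
  | succ n ih =>
    intro h
    by_cases hh : G.st s₀ h ∈ T
    · rw [br_mem hh, br_mem hh]
    · rw [br_succ hh n]
      exact Finset.sup'_le _ _ fun a ha => (Finset.sum_le_sum fun b hb =>
        mul_le_mul_of_nonneg_left (ih _) ((hτ h).1 b hb)).trans (le_br hh (n + 1) ha)

theorem Lv_le_br (hτ : G.Strat₂ s₀ τ) (n : ℕ) : ∀ h, G.Lv T n (G.st s₀ h) ≤ br G T s₀ τ n h := by
  induction n with
  | zero =>
    intro h
    by_cases hh : G.st s₀ h ∈ T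
    · rw [br_mem hh, Lv_mem hh]
    · rw [br_zero hh, Lv_zero hh]
  | succ n ih =>
    intro h
    by_cases hh : G.st s₀ h ∈ T
    · rw [br_mem hh, Lv_mem hh]
    · rw [Lv_succ hh]
      refine V_le (G.ne₁ _) (G.ne₂ _) (y := τ h) ⟨hτ h, fun a ha => ?_⟩
      exact (Finset.sum_le_sum fun b hb =>
        mul_le_mul_of_nonneg_left (ih ((a, b) :: h)) ((hτ h).1 b hb)).trans (le_br hh n ha)

open scoped Classical in
theorem br_le (hτ : G.Strat₂ s₀ τ) {c : ℝ} (hc : ∀ σ, G.Strat₁ s₀ σ → G.pay T s₀ σ τ ≤ c) (n : ℕ) :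
    br G T s₀ τ n [] ≤ c := by
  have hm : ∀ (k : ℕ) (h : List (A × B)), ∃ a ∈ G.act₁ (G.st s₀ h), G.st s₀ h ∉ T →
      br G T s₀ τ (k + 1) h =
        ∑ b ∈ G.act₂ (G.st s₀ h), τ h b * br G T s₀ τ k ((a, b) :: h) := by
    intro k h
    obtain ⟨a, ha, he⟩ := Finset.exists_mem_eq_sup' (G.ne₁ (G.st s₀ h)) fun a =>
      ∑ b ∈ G.act₂ (G.st s₀ h), τ h b * br G T s₀ τ k ((a, b) :: h)
    exact ⟨a, ha, fun hh => by rw [br_succ hh, he]⟩
  choose α hα hα' using hm
  set σ : List (A × B) → A → ℝ := fun h a => if a = α (n - 1 - h.length) h then 1 else 0 with hσd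
  have hσ : G.Strat₁ s₀ σ := fun h => mix_dirac (hα _ h)
  have key : ∀ m : ℕ, ∀ h : List (A × B), h.length + m = n →
      br G T s₀ τ m h ≤ G.prob T s₀ σ τ m h := by
    intro m
    induction m with
    | zero =>
      intro h _
      by_cases hh : G.st s₀ h ∈ T
      · rw [prob_mem hh, br_mem hh]
      · rw [prob_zero' hh, br_zero hh]
    | succ m ih =>
      intro h hl
      by_cases hh : G.st s₀ h ∈ T
      · rw [prob_mem hh, br_mem hh]
      · have e : n - 1 - h.length = m := by omega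
        rw [prob_succ hh, dsum, hα' m h hh]
        have e2 : σ h = fun a => if a = α m h then 1 else 0 := by
          simp only [hσd, e]
        rw [e2]
        simp only [ite_mul, one_mul, zero_mul]
        rw [Finset.sum_ite_eq' (G.act₁ (G.st s₀ h)) (α m h), if_pos (hα m h)]
        exact Finset.sum_le_sum fun b hb => mul_le_mul_of_nonneg_left
          (ih ((α m h, b) :: h) (by simp; omega)) ((hτ h).1 b hb)
  exact (key n [] (by simp)).trans ((prob_le_pay hσ hτ n).trans (hc σ hσ))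

/-- The best reply value against `τ`. -/
noncomputable def W (G : Game S A B) (T : Set S) (s₀ : S) (τ : List (A × B) → B → ℝ)
    (h : List (A × B)) : ℝ := ⨆ n, br G T s₀ τ n h

theorem W_bdd (hτ : G.Strat₂ s₀ τ) (h : List (A × B)) :
    BddAbove (Set.range fun n => br G T s₀ τ n h) :=
  ⟨1, by rintro _ ⟨n, rfl⟩; exact br_le_one hτ n h⟩

theorem br_le_W (hτ : G.Strat₂ s₀ τ) (n : ℕ) (h : List (A × B)) :
    br G T s₀ τ n h ≤ W G T s₀ τ h := le_ciSup (W_bdd hτ h) n

theorem L_le_W (hτ : G.Strat₂ s₀ τ) (h : List (A × B)) : G.L T (G.st s₀ h) ≤ W G T s₀ τ h :=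
  ciSup_le fun n => (Lv_le_br hτ n h).trans (br_le_W hτ n h)

theorem sum_W_le (hτ : G.Strat₂ s₀ τ) {h : List (A × B)} (hh : G.st s₀ h ∉ T) {a : A}
    (ha : a ∈ G.act₁ (G.st s₀ h)) :
    ∑ b ∈ G.act₂ (G.st s₀ h), τ h b * W G T s₀ τ ((a, b) :: h) ≤ W G T s₀ τ h := by
  have hlim : ∀ k : List (A × B),
      Filter.Tendsto (fun n => br G T s₀ τ n k) Filter.atTop (nhds (W G T s₀ τ k)) := fun k =>
    tendsto_atTop_ciSup (monotone_nat_of_le_succ fun n => br_mono_succ hτ n k) (W_bdd hτ k)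
  have h1 : Filter.Tendsto
      (fun n => ∑ b ∈ G.act₂ (G.st s₀ h), τ h b * br G T s₀ τ n ((a, b) :: h)) Filter.atTop
      (nhds (∑ b ∈ G.act₂ (G.st s₀ h), τ h b * W G T s₀ τ ((a, b) :: h))) :=
    tendsto_finsetSum _ fun b _ => (hlim _).const_mul _
  exact le_of_tendsto' h1 fun n => (le_br hh n ha).trans (br_le_W hτ _ _)

theorem st_congr (hδ : G'.δ = G.δ) (h : List (A × B)) : G'.st s₀ h = G.st s₀ h := by
  induction h with
  | nil => rfl
  | cons p h ih =>
    change G'.δ (G'.st s₀ h) p.1 p.2 = G.δ (G.st s₀ h) p.1 p.2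
    rw [ih, hδ]

/-- Deviations in the larger game are not better than in the smaller one. -/
theorem dev [Finite S] (hδ : G'.δ = G.δ) (hτ : G'.Strat₂ s₀ τ)
    (hweak : ∀ s, s ∉ T → ∀ a ∈ G.act₁ s, a ∉ G'.act₁ s → ∃ x, Mix (G'.act₁ s) x ∧
      ∀ b ∈ G'.act₂ s, G.L T (G.δ s a b) ≤ ∑ a' ∈ G'.act₁ s, x a' * G'.L T (G.δ s a' b))
    {c : ℝ} (hc : ∀ σ, G'.Strat₁ s₀ σ → G'.pay T s₀ σ τ ≤ c)
    {τ' : List (A × B) → B → ℝ} (hτ' : G.Strat₂ s₀ τ')
    (e1 : ∀ h, G'.Leg s₀ h → ∀ m : B → ℝ, ∑ b ∈ G.act₂ (G.st s₀ h), τ' h b * m b =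
      ∑ b ∈ G'.act₂ (G.st s₀ h), τ h b * m b)
    (e2 : ∀ h, ¬ G'.Leg s₀ h → G.st s₀ h ∉ T → ∀ a ∈ G.act₁ (G.st s₀ h),
      ∑ b ∈ G.act₂ (G.st s₀ h), τ' h b * G.L T (G.δ (G.st s₀ h) a b) ≤ G.L T (G.st s₀ h))
    {σ : List (A × B) → A → ℝ} (hσ : G.Strat₁ s₀ σ) : G.pay T s₀ σ τ' ≤ c := by
  have hst : ∀ h, G'.st s₀ h = G.st s₀ h := fun h => st_congr hδ h
  -- after an illegal move
  have key1 : ∀ n, ∀ h, ¬ G'.Leg s₀ h → G.prob T s₀ σ τ' n h ≤ G.L T (G.st s₀ h) := by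
    intro n
    induction n with
    | zero =>
      intro h hl
      by_cases hh : G.st s₀ h ∈ T
      · rw [prob_mem hh, L_mem hh]
      · rw [prob_zero' hh]; exact L_nonneg _
    | succ n ih =>
      intro h hl
      by_cases hh : G.st s₀ h ∈ T
      · rw [prob_mem hh, L_mem hh]
      · rw [prob_succ hh]
        refine (dsum_le (g := fun a b => G.L T (G.δ (G.st s₀ h) a b)) (hσ h).1 (hτ' h).1
          fun a ha b hb => ih ((a, b) :: h) fun hl' => hl hl'.1).trans ?_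
        rw [dsum]
        exact mix_le (hσ h) fun a ha => e2 h hl hh a ha
  have key2 : ∀ n, ∀ h, G'.Leg s₀ h → G.prob T s₀ σ τ' n h ≤ W G' T s₀ τ h := by
    intro n
    induction n with
    | zero =>
      intro h hl
      by_cases hh : G.st s₀ h ∈ T
      · rw [prob_mem hh, ← br_mem (G := G') (τ := τ) (by rwa [hst]) 0]
        exact br_le_W hτ _ _
      · rw [prob_zero' hh]
        exact (br_nonneg hτ 0 h).trans (br_le_W hτ _ _)
    | succ n ih =>
      intro h hl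
      by_cases hh : G.st s₀ h ∈ T
      · rw [prob_mem hh, ← br_mem (G := G') (τ := τ) (by rwa [hst]) 0]
        exact br_le_W hτ _ _
      · have hh' : G'.st s₀ h ∉ T := by rwa [hst]
        have hτh := hτ h
        rw [hst] at hτh
        have hsum : ∀ a ∈ G'.act₁ (G.st s₀ h),
            ∑ b ∈ G'.act₂ (G.st s₀ h), τ h b * W G' T s₀ τ ((a, b) :: h) ≤ W G' T s₀ τ h := by
          intro a ha
          have := sum_W_le hτ hh' (a := a) (by rwa [hst])
          rwa [hst] at this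
        rw [prob_succ hh, dsum]
        refine mix_le (hσ h) fun a ha => ?_
        rw [e1 h hl fun b => G.prob T s₀ σ τ' n ((a, b) :: h)]
        by_cases ha' : a ∈ G'.act₁ (G.st s₀ h)
        · refine le_trans (Finset.sum_le_sum fun b hb => mul_le_mul_of_nonneg_left
            (ih ((a, b) :: h) ⟨hl, by rwa [hst], by rwa [hst]⟩) (hτh.1 b hb)) (hsum a ha')
        · obtain ⟨x, hx, hx'⟩ := hweak _ hh a ha ha'
          calc ∑ b ∈ G'.act₂ (G.st s₀ h), τ h b * G.prob T s₀ σ τ' n ((a, b) :: h)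
              ≤ ∑ b ∈ G'.act₂ (G.st s₀ h), τ h b * ∑ a' ∈ G'.act₁ (G.st s₀ h),
                  x a' * W G' T s₀ τ ((a', b) :: h) := by
                refine Finset.sum_le_sum fun b hb => mul_le_mul_of_nonneg_left ?_ (hτh.1 b hb)
                refine (key1 n ((a, b) :: h) fun hl' => ha' (by
                  have := hl'.2.1
                  rwa [hst] at this)).trans ((hx' b hb).trans ?_)
                refine Finset.sum_le_sum fun a' ha'' => mul_le_mul_of_nonneg_left ?_ (hx.1 a' ha'')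
                have := L_le_W (T := T) hτ ((a', b) :: h)
                rw [hst] at this
                exact this
            _ = ∑ a' ∈ G'.act₁ (G.st s₀ h), x a' * ∑ b ∈ G'.act₂ (G.st s₀ h),
                  τ h b * W G' T s₀ τ ((a', b) :: h) :=
                (bil _ _ (fun a' b => W G' T s₀ τ ((a', b) :: h)) x (τ h)).symm
            _ ≤ W G' T s₀ τ h := mix_le hx hsum
  refine pay_le fun n => (key2 n [] trivial).trans (ciSup_le fun n => br_le hτ hc n)

theorem swap_leg (h : List (B × A)) : G.swap.Leg s₀ h ↔ G.Leg s₀ (h.map Prod.swap) := by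
  induction h with
  | nil => exact Iff.rfl
  | cons p h ih =>
    change (G.swap.Leg s₀ h ∧ p.1 ∈ G.act₂ (G.swap.st s₀ h) ∧ p.2 ∈ G.act₁ (G.swap.st s₀ h)) ↔
      (G.Leg s₀ (h.map Prod.swap) ∧ p.2 ∈ G.act₁ (G.st s₀ (h.map Prod.swap)) ∧
        p.1 ∈ G.act₂ (G.st s₀ (h.map Prod.swap)))
    rw [ih, swap_st']
    tauto

theorem prune_nash [Finite S] (hp : Prunes T₁ T₂ G G') (h : ∃ σ τ, G'.IsNash T₁ T₂ s₀ σ τ) :
    ∃ σ τ, G.IsNash T₁ T₂ s₀ σ τ := by
  classical
  obtain ⟨σ, τ, hσ, hτ, n1, n2⟩ := h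
  have hst : ∀ h, G'.st s₀ h = G.st s₀ h := fun h => st_congr hp.δ_eq h
  obtain ⟨_, py, _, hpy, hcap1, _⟩ := pathPair G T₁ T₂
  obtain ⟨_, qx, _, hqx, hcap2, _⟩ := pathPair G.swap T₂ T₁
  let σ' : List (A × B) → A → ℝ := fun h => if G'.Leg s₀ h then
    ext (G'.act₁ (G.st s₀ h)) (σ h) else qx (G.st s₀ h)
  let τ' : List (A × B) → B → ℝ := fun h => if G'.Leg s₀ h then
    ext (G'.act₂ (G.st s₀ h)) (τ h) else py (G.st s₀ h)
  have S1 : G.Strat₁ s₀ σ' := by
    intro h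
    by_cases hl : G'.Leg s₀ h
    · simp only [σ', if_pos hl]
      refine ext_mix (hp.sub₁ _) ?_
      have := hσ h
      rwa [hst] at this
    · simp only [σ', if_neg hl]
      exact hqx _
  have S2 : G.Strat₂ s₀ τ' := by
    intro h
    by_cases hl : G'.Leg s₀ h
    · simp only [τ', if_pos hl]
      refine ext_mix (hp.sub₂ _) ?_
      have := hτ h
      rwa [hst] at this
    · simp only [τ', if_neg hl]
      exact hpy _
  have e1 : ∀ h, G'.Leg s₀ h → ∀ m : B → ℝ, ∑ b ∈ G.act₂ (G.st s₀ h), τ' h b * m b =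
      ∑ b ∈ G'.act₂ (G.st s₀ h), τ h b * m b := by
    intro h hl m
    simp only [τ', if_pos hl]
    exact ext_sum (hp.sub₂ _) _ _
  have e1' : ∀ h, G'.Leg s₀ h → ∀ m : A → ℝ, ∑ a ∈ G.act₁ (G.st s₀ h), σ' h a * m a =
      ∑ a ∈ G'.act₁ (G.st s₀ h), σ h a * m a := by
    intro h hl m
    simp only [σ', if_pos hl]
    exact ext_sum (hp.sub₁ _) _ _
  have hprob : ∀ T n h, G'.Leg s₀ h → G.prob T s₀ σ' τ' n h = G'.prob T s₀ σ τ n h := by
    intro T n
    induction n with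
    | zero =>
      intro h _
      rw [prob_zero, prob_zero, hst]
    | succ n ih =>
      intro h hl
      by_cases hh : G.st s₀ h ∈ T
      · rw [prob_mem hh, prob_mem (by rwa [hst])]
      · rw [prob_succ hh, prob_succ (by rwa [hst]), dsum, dsum, hst, e1' h hl]
        refine Finset.sum_congr rfl fun a ha => ?_
        rw [e1 h hl fun b => G.prob T s₀ σ' τ' n ((a, b) :: h)]
        congr 1
        refine Finset.sum_congr rfl fun b hb => ?_
        rw [ih ((a, b) :: h) ⟨hl, by rwa [hst], by rwa [hst]⟩]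
  have hpay : ∀ T, G.pay T s₀ σ' τ' = G'.pay T s₀ σ τ := by
    intro T
    unfold pay
    congr 1
    funext n
    exact hprob T n [] trivial
  refine ⟨σ', τ', S1, S2, fun σ₁ hσ₁ => ?_, fun τ₁ hτ₁ => ?_⟩
  · rw [hpay]
    refine dev hp.δ_eq hτ (fun s hs a ha ha' => ?_) n1 S2 e1 (fun h hl hh a ha => ?_) hσ₁
    · obtain ⟨x, hx, hx'⟩ := hp.weak₁ s hs a ha ha'
      refine ⟨x, hx, fun b hb => ?_⟩
      simpa only [val₁_eq] using hx' b hb
    · simp only [τ', if_neg hl]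
      exact hcap1 _ hh a ha
  · rw [hpay, ← swap_pay]
    refine dev (G := G.swap) (G' := G'.swap) (τ := fun h => σ (h.map Prod.swap)) ?_
      (swap_strat₁ hσ) (fun s hs b hb hb' => ?_) (fun τ₂ hτ₂ => ?_) (swap_strat₁ S1)
      (fun h hl m => ?_) (fun h hl hh b hb => ?_) (swap_strat₂ hτ₁)
    · change (fun s b a => G'.δ s a b) = fun s b a => G.δ s a b
      rw [hp.δ_eq]
    · obtain ⟨y, hy, hy'⟩ := hp.weak₂ s hs b hb hb'
      refine ⟨y, hy, fun a ha => ?_⟩
      have := hy' a ha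
      simp only [val₂_eq, val₁_eq] at this
      exact this
    · have h1 := n2 _ (swap_strat₁ (G := G'.swap) hτ₂)
      rw [← swap_pay] at h1
      simpa only [map_swap_swap] using h1
    · have h1 := e1' (h.map Prod.swap) ((swap_leg h).1 hl) m
      rw [swap_st'] at h1
      exact h1
    · have hl' : ¬ G'.Leg s₀ (h.map Prod.swap) := fun h' => hl ((swap_leg h).2 h')
      simp only [σ', if_neg hl', swap_st']
      exact hcap2 _ hh b hb

theorem prunes_nash [Finite S] (hp : ReflTransGen (Prunes T₁ T₂) G G')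
    (h : ∃ σ τ, G'.IsNash T₁ T₂ s₀ σ τ) : ∃ σ τ, G.IsNash T₁ T₂ s₀ σ τ := by
  induction hp using ReflTransGen.head_induction_on with
  | refl => exact h
  | head h1 _ ih => exact prune_nash h1 ih

end Game

end Pool.Agent.H95.NE
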