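import Pool.Agent.H95.NE.Undec
import Pool.Agent.H95.NE.Prune
import Pool.Agent.H40.NE.Stat
import Pool.Agent.H95.NE.FullDef

/-!
Full equilibria: equilibria whose payoffs add up to at least `1`.
-/

set_option autoImplicit false

open Finset Relation

namespace Pool.Agent.H95.NE

namespace Game

variable {S A B : Type*} {G : Game S A B} {T T₁ T₂ : Set S} {s₀ : S}

theorem full_swap {s : S} (h : G.swap.Full T₂ T₁ s) : G.Full T₁ T₂ s := by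
  obtain ⟨σ, τ, h1, h2⟩ := h
  have e : ∀ T : Set S, G.pay T s (fun h => τ (h.map Prod.swap)) (fun h => σ (h.map Prod.swap)) =
      G.swap.pay T s σ τ := fun T => swap_pay (G := G.swap) σ τ
  refine ⟨_, _, swap_nash h1, ?_⟩
  rw [e, e, add_comm]
  exact h2

theorem verify_full [Finite S] {x : S → A → ℝ} {y : S → B → ℝ} (hx : ∀ s, Mix (G.act₁ s) (x s))
    (hy : ∀ s, Mix (G.act₂ s) (y s)) {P₁ P₂ : S → ℝ} (h10 : ∀ s, 0 ≤ P₁ s) (h20 : ∀ s, 0 ≤ P₂ s)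
    (h11 : ∀ s ∈ T₁, 1 ≤ P₁ s) (h21 : ∀ s ∈ T₂, 1 ≤ P₂ s)
    (h12 : ∀ s, s ∉ T₁ → ∀ a ∈ G.act₁ s, ∑ b ∈ G.act₂ s, y s b * P₁ (G.δ s a b) ≤ P₁ s)
    (h22 : ∀ s, s ∉ T₂ → ∀ b ∈ G.act₂ s, ∑ a ∈ G.act₁ s, x s a * P₂ (G.δ s a b) ≤ P₂ s)
    (hsum : P₁ s₀ + P₂ s₀ ≤ 1) {X : Set S} (hX₀ : s₀ ∈ X)
    (hX : ∀ s ∈ X, s ∉ T₁ ∪ T₂ → ∀ s', G.PStep x y s s' → s' ∈ X)
    (hT : ∀ s ∈ X, ∃ t ∈ T₁ ∪ T₂, ReflTransGen (G.PStep x y) s t) : G.Full T₁ T₂ s₀ := by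
  have S1 : G.Strat₁ s₀ (fun h => x (G.st s₀ h)) := fun h => hx _
  have S2 : G.Strat₂ s₀ (fun h => y (G.st s₀ h)) := fun h => hy _
  have hone : G.pay (T₁ ∪ T₂) s₀ (fun h => x (G.st s₀ h)) (fun h => y (G.st s₀ h)) = 1 :=
    as_reach hx hy hX hT hX₀
  have hs := pay_union (T₁ := T₁) (T₂ := T₂) S1 S2
  rw [hone] at hs
  exact ⟨_, _, verify hx hy h10 h20 h11 h21 h12 h22 hsum hX₀ hX hT, hs⟩

theorem full_of_noStuck [Finite S] (hnb : ¬ G.VisitsBoth T₁ T₂ s₀) (hns : G.NoStuck T₁ T₂ s₀) :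
    G.Full T₁ T₂ s₀ := by
  obtain ⟨x1, y1, hx1, hy1, hcx1, hcy1, hcl1, hre1⟩ := corePair G T₁ T₂
  have hHHc : ∀ s ∈ {s | ReflTransGen G.Step s₀ s}, ∀ a ∈ G.act₁ s, ∀ b ∈ G.act₂ s,
      G.δ s a b ∈ {s | ReflTransGen G.Step s₀ s} :=
    fun s hs a ha b hb => ReflTransGen.tail hs ⟨a, ha, b, hb, rfl⟩
  obtain ⟨g2, hg20, hg21, hg2T, hg2H, hg2x⟩ := capg (G := G) (T₁ := T₁) (T₂ := T₂)
    (H := {s | ReflTransGen G.Step s₀ s})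
    hHHc (fun s hs t ht h1 h2 => hnb ⟨s, t, hs, ht, Or.inl ⟨h1, h2⟩⟩)
    (fun s hs t ht h1 h2 => hnb ⟨s, t, hs, ht, Or.inr ⟨h1, h2⟩⟩) hx1 hcx1
  refine verify_full hx1 hy1 (P₁ := G.L T₁) (P₂ := g2) (fun s => L_nonneg s) hg20
    (fun s hs => (L_mem hs).ge) hg2T hcy1 hg2x ?_ (X := {s | G.NoStuck T₁ T₂ s}) hns hcl1 hre1
  have := hg2H s₀ ReflTransGen.refl
  linarith

theorem full_of_noStuck' [Finite S] (hnb : ¬ G.VisitsBoth T₁ T₂ s₀)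
    (hns : G.swap.NoStuck T₂ T₁ s₀) : G.Full T₁ T₂ s₀ :=
  full_swap (full_of_noStuck (fun h => hnb (swap_both (G := G.swap) h)) hns)

theorem full_of_sum [Finite S] (hnb : ¬ G.VisitsBoth T₁ T₂ s₀)
    (h : 1 ≤ G.val₁ T₁ s₀ + G.val₂ T₂ s₀) : G.Full T₁ T₂ s₀ := by
  obtain ⟨hle, x3, y3, hx3, hy3, hc31, hc32, hcl3, hre3⟩ := zPair G T₁ T₂ s₀ hnb
  have h0 : G.L T₁ s₀ = 1 - G.swap.L T₂ s₀ := by
    rw [val₂_eq, val₁_eq, val₁_eq] at h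
    have := hle s₀ ReflTransGen.refl
    linarith
  refine verify_full hx3 hy3 (P₁ := G.L T₁) (P₂ := G.swap.L T₂) (fun s => L_nonneg s)
    (fun s => L_nonneg s) (fun s hs => (L_mem hs).ge) (fun s hs => (L_mem (G := G.swap) hs).ge)
    hc31 hc32 (by rw [h0]; linarith)
    (X := {s | ReflTransGen G.Step s₀ s ∧ G.L T₁ s = 1 - G.swap.L T₂ s}) ⟨ReflTransGen.refl, h0⟩
    (fun s hs hsT s' h => ⟨?_, hcl3 s hs.1 hs.2 hsT s' h⟩) (fun s hs => hre3 s hs.1 hs.2)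
  obtain ⟨a, ha, b, hb, _, _, rfl⟩ := h
  exact ReflTransGen.tail hs.1 ⟨a, ha, b, hb, rfl⟩

theorem full_of_mem₁ [Finite S] (hnb : ¬ G.VisitsBoth T₁ T₂ s₀) (h : s₀ ∈ T₁) :
    G.Full T₁ T₂ s₀ :=
  full_of_noStuck hnb (one_case (by rw [val₁_eq]; exact L_mem h))

theorem full_of_mem₂ [Finite S] (hnb : ¬ G.VisitsBoth T₁ T₂ s₀) (h : s₀ ∈ T₂) :
    G.Full T₁ T₂ s₀ :=
  full_of_noStuck' hnb (one_case (by rw [val₁_eq]; exact L_mem (G := G.swap) h))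

theorem both_of_reach {s : S} (h : ReflTransGen G.Step s₀ s) (hs : G.VisitsBoth T₁ T₂ s) :
    G.VisitsBoth T₁ T₂ s₀ := by
  obtain ⟨s', t, h1, h2, h3⟩ := hs
  exact ⟨s', t, h.trans h1, h2, h3⟩

/-! ## The sum of the payoffs is at most one -/

variable {σ : List (A × B) → A → ℝ} {τ : List (A × B) → B → ℝ}

theorem prob_unreach (n : ℕ) : ∀ h : List (A × B),
    (∀ t, ReflTransGen G.Step (G.st s₀ h) t → t ∉ T) → G.prob T s₀ σ τ n h = 0 := by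
  induction n with
  | zero =>
    intro h hh
    exact prob_zero' (hh _ ReflTransGen.refl)
  | succ n ih =>
    intro h hh
    rw [prob_succ (hh _ ReflTransGen.refl)]
    refine Finset.sum_eq_zero fun a ha => Finset.sum_eq_zero fun b hb => ?_
    rw [ih ((a, b) :: h) fun t ht => hh t (ReflTransGen.head ⟨a, ha, b, hb, rfl⟩ ht), mul_zero]

theorem prob_sum_le (hσ : G.Strat₁ s₀ σ) (hτ : G.Strat₂ s₀ τ) (hnb : ¬ G.VisitsBoth T₁ T₂ s₀)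
    (n : ℕ) : ∀ h : List (A × B), ReflTransGen G.Step s₀ (G.st s₀ h) →
    G.prob T₁ s₀ σ τ n h + G.prob T₂ s₀ σ τ n h ≤ 1 := by
  have h12 : ∀ (n : ℕ) (h : List (A × B)), ReflTransGen G.Step s₀ (G.st s₀ h) →
      G.st s₀ h ∈ T₁ → G.prob T₂ s₀ σ τ n h = 0 := fun n h hr h1 =>
    prob_unreach n h fun t ht h2 => hnb ⟨_, t, hr, ht, Or.inl ⟨h1, h2⟩⟩
  have h21 : ∀ (n : ℕ) (h : List (A × B)), ReflTransGen G.Step s₀ (G.st s₀ h) →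
      G.st s₀ h ∈ T₂ → G.prob T₁ s₀ σ τ n h = 0 := fun n h hr h1 =>
    prob_unreach n h fun t ht h2 => hnb ⟨_, t, hr, ht, Or.inr ⟨h1, h2⟩⟩
  induction n with
  | zero =>
    intro h hr
    by_cases h1 : G.st s₀ h ∈ T₁
    · rw [h12 0 h hr h1, prob_mem h1]; norm_num
    · have := prob_le_one (T := T₂) hσ hτ 0 h
      rw [prob_zero' h1]
      linarith
  | succ n ih =>
    intro h hr
    by_cases h1 : G.st s₀ h ∈ T₁
    · rw [h12 _ h hr h1, prob_mem h1]; norm_num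
    by_cases h2 : G.st s₀ h ∈ T₂
    · rw [h21 _ h hr h2, prob_mem h2]; norm_num
    rw [prob_succ h1, prob_succ h2, ← Finset.sum_add_distrib]
    simp only [← Finset.sum_add_distrib, ← mul_add]
    refine (dsum_le (g := fun _ _ => (1 : ℝ)) (hσ h).1 (hτ h).1 fun a ha b hb =>
      ih ((a, b) :: h) (hr.tail ⟨a, ha, b, hb, rfl⟩)).trans (le_of_eq ?_)
    rw [dsum]
    simp only [mul_one, (hτ h).2, (hσ h).2]

theorem pay_sum_le (hσ : G.Strat₁ s₀ σ) (hτ : G.Strat₂ s₀ τ) (hnb : ¬ G.VisitsBoth T₁ T₂ s₀) :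
    G.pay T₁ s₀ σ τ + G.pay T₂ s₀ σ τ ≤ 1 :=
  le_of_tendsto' ((Pool.Agent.H40.NE.pay_tendsto hσ hτ).add
    (Pool.Agent.H40.NE.pay_tendsto hσ hτ)) fun n => prob_sum_le hσ hτ hnb n [] ReflTransGen.refl

/-! ## The potentials of an equilibrium -/

/-- The best reply value of player 2 against `σ`. -/
noncomputable def W2 (G : Game S A B) (T : Set S) (s₀ : S) (σ : List (A × B) → A → ℝ)
    (h : List (A × B)) : ℝ :=
  W G.swap T s₀ (fun h => σ (h.map Prod.swap)) (h.map Prod.swap)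

theorem W_nonneg (hτ : G.Strat₂ s₀ τ) (h : List (A × B)) : 0 ≤ W G T s₀ τ h :=
  (L_nonneg _).trans (L_le_W hτ h)

theorem W_mem (hτ : G.Strat₂ s₀ τ) {h : List (A × B)} (hh : G.st s₀ h ∈ T) :
    1 ≤ W G T s₀ τ h := (L_mem hh).ge.trans (L_le_W hτ h)

theorem L_le_W2 (hσ : G.Strat₁ s₀ σ) (h : List (A × B)) :
    G.swap.L T (G.st s₀ h) ≤ W2 G T s₀ σ h := by
  have := L_le_W (T := T) (swap_strat₁ hσ) (h.map Prod.swap)
  rwa [swap_st] at this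

theorem W2_nonneg (hσ : G.Strat₁ s₀ σ) (h : List (A × B)) : 0 ≤ W2 G T s₀ σ h :=
  (L_nonneg _).trans (L_le_W2 hσ h)

theorem W2_mem (hσ : G.Strat₁ s₀ σ) {h : List (A × B)} (hh : G.st s₀ h ∈ T) :
    1 ≤ W2 G T s₀ σ h := (L_mem (G := G.swap) hh).ge.trans (L_le_W2 hσ h)

theorem sum_W2_le (hσ : G.Strat₁ s₀ σ) {h : List (A × B)} (hh : G.st s₀ h ∉ T) {b : B}
    (hb : b ∈ G.act₂ (G.st s₀ h)) :
    ∑ a ∈ G.act₁ (G.st s₀ h), σ h a * W2 G T s₀ σ ((a, b) :: h) ≤ W2 G T s₀ σ h := by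
  have := sum_W_le (G := G.swap) (T := T) (swap_strat₁ hσ) (h := h.map Prod.swap)
    (by rwa [swap_st]) (a := b) (by rw [swap_st]; exact hb)
  rw [swap_st, map_swap_swap] at this
  exact this

theorem W_nash (hN : G.IsNash T₁ T₂ s₀ σ τ) : W G T₁ s₀ τ [] ≤ G.pay T₁ s₀ σ τ :=
  ciSup_le fun n => br_le hN.2.1 hN.2.2.1 n

theorem W2_nash (hN : G.IsNash T₁ T₂ s₀ σ τ) : W2 G T₂ s₀ σ [] ≤ G.pay T₂ s₀ σ τ := by
  refine ciSup_le fun n => br_le (swap_strat₁ hN.1) (fun ρ hρ => ?_) n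
  have h1 := hN.2.2.2 _ (swap_strat₁ (G := G.swap) hρ)
  rw [← swap_pay] at h1
  simpa only [map_swap_swap] using h1

end Game

end Pool.Agent.H95.NE
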