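import Pool.Agent.H95.NE.Mat

/-!
Deterministic two-player concurrent games: plays, strategies, the probability of reaching a set, the
value of a player, and value iteration.
-/

set_option autoImplicit false

open Finset

namespace Pool.Agent.H95.NE

namespace Game

variable {S A B : Type*} {G : Game S A B} {T : Set S} {s₀ : S} {σ : List (A × B) → A → ℝ} {τ : List (A × B) → B → ℝ}

theorem dsum {F : Finset A} {E : Finset B} (x : A → ℝ) (y : B → ℝ) (f : A → B → ℝ) :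
    ∑ a ∈ F, ∑ b ∈ E, x a * y b * f a b = ∑ a ∈ F, x a * ∑ b ∈ E, y b * f a b := by
  refine Finset.sum_congr rfl fun a _ => ?_
  rw [Finset.mul_sum]
  exact Finset.sum_congr rfl fun b _ => mul_assoc _ _ _

theorem dsum' {F : Finset A} {E : Finset B} (x : A → ℝ) (y : B → ℝ) (f : A → B → ℝ) :
    ∑ a ∈ F, ∑ b ∈ E, x a * y b * f a b = ∑ b ∈ E, y b * ∑ a ∈ F, x a * f a b := by
  rw [dsum, bil]

open scoped Classical in
theorem prob_zero (h : List (A × B)) : G.prob T s₀ σ τ 0 h = if G.st s₀ h ∈ T then 1 else 0 := by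
  rw [prob]

theorem prob_mem {h : List (A × B)} (hh : G.st s₀ h ∈ T) (n : ℕ) : G.prob T s₀ σ τ n h = 1 := by
  cases n <;> simp [prob, hh]

theorem prob_zero' {h : List (A × B)} (hh : G.st s₀ h ∉ T) : G.prob T s₀ σ τ 0 h = 0 := by
  simp [prob, hh]

theorem prob_succ {h : List (A × B)} (hh : G.st s₀ h ∉ T) (n : ℕ) : G.prob T s₀ σ τ (n + 1) h =
    ∑ a ∈ G.act₁ (G.st s₀ h), ∑ b ∈ G.act₂ (G.st s₀ h),
        σ h a * τ h b * G.prob T s₀ σ τ n ((a, b) :: h) := by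
  simp [prob, hh]

theorem prob_nonneg (hσ : G.Strat₁ s₀ σ) (hτ : G.Strat₂ s₀ τ) (n : ℕ) :
    ∀ h, 0 ≤ G.prob T s₀ σ τ n h := by
  induction n with
  | zero => intro h; rw [prob_zero]; split_ifs <;> norm_num
  | succ n ih =>
    intro h
    by_cases hh : G.st s₀ h ∈ T
    · rw [prob_mem hh]; norm_num
    · rw [prob_succ hh]
      exact Finset.sum_nonneg fun a ha => Finset.sum_nonneg fun b hb =>
        mul_nonneg (mul_nonneg ((hσ h).1 a ha) ((hτ h).1 b hb)) (ih _)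

theorem prob_le_one (hσ : G.Strat₁ s₀ σ) (hτ : G.Strat₂ s₀ τ) (n : ℕ) :
    ∀ h, G.prob T s₀ σ τ n h ≤ 1 := by
  induction n with
  | zero => intro h; rw [prob_zero]; split_ifs <;> norm_num
  | succ n ih =>
    intro h
    by_cases hh : G.st s₀ h ∈ T
    · rw [prob_mem hh]
    · rw [prob_succ hh, dsum]
      exact mix_le (hσ h) fun a _ => mix_le (hτ h) fun b _ => ih _

theorem dsum_le {F : Finset A} {E : Finset B} {x : A → ℝ} {y : B → ℝ} (hx : ∀ a ∈ F, 0 ≤ x a)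
    (hy : ∀ b ∈ E, 0 ≤ y b) {f g : A → B → ℝ} (h : ∀ a ∈ F, ∀ b ∈ E, f a b ≤ g a b) :
    ∑ a ∈ F, ∑ b ∈ E, x a * y b * f a b ≤ ∑ a ∈ F, ∑ b ∈ E, x a * y b * g a b :=
  Finset.sum_le_sum fun a ha => Finset.sum_le_sum fun b hb =>
    mul_le_mul_of_nonneg_left (h a ha b hb) (mul_nonneg (hx a ha) (hy b hb))

theorem prob_mono_succ (hσ : G.Strat₁ s₀ σ) (hτ : G.Strat₂ s₀ τ) (n : ℕ) :
    ∀ h, G.prob T s₀ σ τ n h ≤ G.prob T s₀ σ τ (n + 1) h := by
  induction n with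
  | zero =>
    intro h
    by_cases hh : G.st s₀ h ∈ T
    · rw [prob_mem hh, prob_mem hh]
    · rw [prob_zero' hh]; exact prob_nonneg hσ hτ _ _
  | succ n ih =>
    intro h
    by_cases hh : G.st s₀ h ∈ T
    · rw [prob_mem hh, prob_mem hh]
    · rw [prob_succ hh, prob_succ hh]
      exact dsum_le (hσ h).1 (hτ h).1 fun a _ b _ => ih _

theorem bdd (hσ : G.Strat₁ s₀ σ) (hτ : G.Strat₂ s₀ τ) :
    BddAbove (Set.range fun n => G.prob T s₀ σ τ n []) :=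
  ⟨1, by rintro _ ⟨n, rfl⟩; exact prob_le_one hσ hτ n []⟩

theorem prob_le_pay (hσ : G.Strat₁ s₀ σ) (hτ : G.Strat₂ s₀ τ) (n : ℕ) :
    G.prob T s₀ σ τ n [] ≤ G.pay T s₀ σ τ := le_ciSup (bdd hσ hτ) n

theorem pay_le {c : ℝ} (h : ∀ n, G.prob T s₀ σ τ n [] ≤ c) : G.pay T s₀ σ τ ≤ c := ciSup_le h

theorem pay_le_one (hσ : G.Strat₁ s₀ σ) (hτ : G.Strat₂ s₀ τ) : G.pay T s₀ σ τ ≤ 1 :=
  pay_le fun n => prob_le_one hσ hτ n []

theorem pay_nonneg (hσ : G.Strat₁ s₀ σ) (hτ : G.Strat₂ s₀ τ) : 0 ≤ G.pay T s₀ σ τ :=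
  (prob_nonneg hσ hτ 0 []).trans (prob_le_pay hσ hτ 0)

/-- Upper bound for player 1 if player 2 plays the stationary strategy `y`. -/
theorem ub₁ {y : S → B → ℝ} (hy : ∀ s, Mix (G.act₂ s) (y s)) {Q : Set S}
    (hQ : ∀ s ∈ Q, ∀ a ∈ G.act₁ s, ∀ b ∈ G.act₂ s, G.δ s a b ∈ Q) {f : S → ℝ}
    (h0 : ∀ s ∈ Q, 0 ≤ f s) (h1 : ∀ s ∈ Q, s ∈ T → 1 ≤ f s)
    (h2 : ∀ s ∈ Q, s ∉ T → ∀ a ∈ G.act₁ s, ∑ b ∈ G.act₂ s, y s b * f (G.δ s a b) ≤ f s)
    (hσ : G.Strat₁ s₀ σ) (n : ℕ) : ∀ h, G.st s₀ h ∈ Q →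
      G.prob T s₀ σ (fun h => y (G.st s₀ h)) n h ≤ f (G.st s₀ h) := by
  induction n with
  | zero =>
    intro h hq
    rw [prob_zero]; split_ifs with hh
    · exact h1 _ hq hh
    · exact h0 _ hq
  | succ n ih =>
    intro h hq
    by_cases hh : G.st s₀ h ∈ T
    · rw [prob_mem hh]; exact h1 _ hq hh
    · rw [prob_succ hh]
      refine (dsum_le (g := fun a b => f (G.δ (G.st s₀ h) a b)) (hσ h).1 (hy _).1
        fun a ha b hb => ih ((a, b) :: h) (hQ _ hq a ha b hb)).trans ?_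
      rw [dsum]
      exact mix_le (hσ h) fun a ha => h2 _ hq hh a ha

/-- Upper bound for player 2 if player 1 plays the stationary strategy `x`. -/
theorem ub₂ {x : S → A → ℝ} (hx : ∀ s, Mix (G.act₁ s) (x s)) {Q : Set S}
    (hQ : ∀ s ∈ Q, ∀ a ∈ G.act₁ s, ∀ b ∈ G.act₂ s, G.δ s a b ∈ Q) {f : S → ℝ}
    (h0 : ∀ s ∈ Q, 0 ≤ f s) (h1 : ∀ s ∈ Q, s ∈ T → 1 ≤ f s)
    (h2 : ∀ s ∈ Q, s ∉ T → ∀ b ∈ G.act₂ s, ∑ a ∈ G.act₁ s, x s a * f (G.δ s a b) ≤ f s)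
    (hτ : G.Strat₂ s₀ τ) (n : ℕ) : ∀ h, G.st s₀ h ∈ Q →
      G.prob T s₀ (fun h => x (G.st s₀ h)) τ n h ≤ f (G.st s₀ h) := by
  induction n with
  | zero =>
    intro h hq
    rw [prob_zero]; split_ifs with hh
    · exact h1 _ hq hh
    · exact h0 _ hq
  | succ n ih =>
    intro h hq
    by_cases hh : G.st s₀ h ∈ T
    · rw [prob_mem hh]; exact h1 _ hq hh
    · rw [prob_succ hh]
      refine (dsum_le (g := fun a b => f (G.δ (G.st s₀ h) a b)) (hx _).1 (hτ h).1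
        fun a ha b hb => ih ((a, b) :: h) (hQ _ hq a ha b hb)).trans ?_
      rw [dsum']
      exact mix_le (hτ h) fun b hb => h2 _ hq hh b hb

variable (G T)

open scoped Classical in
/-- Value iteration. -/
noncomputable def Lv : ℕ → S → ℝ
  | 0, s => if s ∈ T then 1 else 0
  | n + 1, s => if s ∈ T then 1 else V (G.act₁ s) (G.act₂ s) fun a b => Lv n (G.δ s a b)

/-- The limit of value iteration. -/
noncomputable def L (s : S) : ℝ := ⨆ n, G.Lv T n s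

variable {G T}

theorem Lv_mem {s : S} (hs : s ∈ T) (n : ℕ) : G.Lv T n s = 1 := by
  cases n <;> simp [Lv, hs]

theorem Lv_zero {s : S} (hs : s ∉ T) : G.Lv T 0 s = 0 := by simp [Lv, hs]

theorem Lv_succ {s : S} (hs : s ∉ T) (n : ℕ) : G.Lv T (n + 1) s =
    V (G.act₁ s) (G.act₂ s) fun a b => G.Lv T n (G.δ s a b) := by simp [Lv, hs]

theorem V_ge {F : Finset A} {E : Finset B} (hF : F.Nonempty) (hE : E.Nonempty) {M : A → B → ℝ}
    {c : ℝ} (h : ∀ a ∈ F, ∀ b ∈ E, c ≤ M a b) : c ≤ V F E M :=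
  le_V hF hE ⟨mix_unif hF, fun b hb => le_mix (mix_unif hF) fun a ha => h a ha b hb⟩

theorem V_le' {F : Finset A} {E : Finset B} (hF : F.Nonempty) (hE : E.Nonempty) {M : A → B → ℝ}
    {c : ℝ} (h : ∀ a ∈ F, ∀ b ∈ E, M a b ≤ c) : V F E M ≤ c :=
  V_le hF hE ⟨mix_unif hE, fun a ha => mix_le (mix_unif hE) fun b hb => h a ha b hb⟩

theorem Lv_nonneg (n : ℕ) : ∀ s, 0 ≤ G.Lv T n s := by
  induction n with
  | zero => intro s; rw [Lv]; split_ifs <;> norm_num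
  | succ n ih =>
    intro s
    by_cases hs : s ∈ T
    · rw [Lv_mem hs]; norm_num
    · rw [Lv_succ hs]; exact V_ge (G.ne₁ s) (G.ne₂ s) fun a _ b _ => ih _

theorem Lv_le_one (n : ℕ) : ∀ s, G.Lv T n s ≤ 1 := by
  induction n with
  | zero => intro s; rw [Lv]; split_ifs <;> norm_num
  | succ n ih =>
    intro s
    by_cases hs : s ∈ T
    · rw [Lv_mem hs]
    · rw [Lv_succ hs]; exact V_le' (G.ne₁ s) (G.ne₂ s) fun a _ b _ => ih _

theorem Lv_mono_succ (n : ℕ) : ∀ s, G.Lv T n s ≤ G.Lv T (n + 1) s := by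
  induction n with
  | zero =>
    intro s
    by_cases hs : s ∈ T
    · rw [Lv_mem hs, Lv_mem hs]
    · rw [Lv_zero hs]; exact Lv_nonneg _ _
  | succ n ih =>
    intro s
    by_cases hs : s ∈ T
    · rw [Lv_mem hs, Lv_mem hs]
    · rw [Lv_succ hs, Lv_succ hs]
      exact V_mono (G.ne₁ s) (G.ne₂ s) fun a _ b _ => ih _

theorem Lv_mono (s : S) : Monotone fun n => G.Lv T n s :=
  monotone_nat_of_le_succ fun n => Lv_mono_succ n s

theorem Lv_bdd (s : S) : BddAbove (Set.range fun n => G.Lv T n s) :=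
  ⟨1, by rintro _ ⟨n, rfl⟩; exact Lv_le_one n s⟩

theorem Lv_le_L (n : ℕ) (s : S) : G.Lv T n s ≤ G.L T s := le_ciSup (Lv_bdd s) n

theorem L_nonneg (s : S) : 0 ≤ G.L T s := (Lv_nonneg 0 s).trans (Lv_le_L 0 s)

theorem L_le_one (s : S) : G.L T s ≤ 1 := ciSup_le fun n => Lv_le_one n s

theorem L_mem {s : S} (hs : s ∈ T) : G.L T s = 1 :=
  le_antisymm (L_le_one s) (by rw [← Lv_mem (G := G) hs 0]; exact Lv_le_L 0 s)

theorem exists_close [Finite S] {ε : ℝ} (hε : 0 < ε) : ∃ n, ∀ s, G.L T s ≤ G.Lv T n s + ε := by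
  have h : ∀ s, ∃ n, G.L T s ≤ G.Lv T n s + ε := by
    intro s
    obtain ⟨n, hn⟩ := exists_lt_of_lt_ciSup (show G.L T s - ε < ⨆ n, G.Lv T n s by
      change G.L T s - ε < G.L T s; linarith)
    exact ⟨n, by linarith⟩
  choose N hN using h
  obtain ⟨m, hm⟩ := (Set.finite_range N).bddAbove
  exact ⟨m, fun s => (hN s).trans (by
    have := Lv_mono (G := G) (T := T) s (hm ⟨s, rfl⟩)
    simp only at this
    linarith)⟩

theorem L_fix [Finite S] {s : S} (hs : s ∉ T) :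
    V (G.act₁ s) (G.act₂ s) (fun a b => G.L T (G.δ s a b)) = G.L T s := by
  apply le_antisymm
  · refine le_of_forall_pos_le_add fun ε hε => ?_
    obtain ⟨n, hn⟩ := exists_close (G := G) (T := T) hε
    obtain ⟨y, hy⟩ := V_up (G.ne₁ s) (G.ne₂ s) fun a b => G.Lv T n (G.δ s a b)
    rw [← Lv_succ hs] at hy
    refine (V_le (G.ne₁ s) (G.ne₂ s) (c := G.Lv T (n + 1) s + ε) ⟨hy.1, fun a ha => ?_⟩).trans
      (by have := Lv_le_L (G := G) (T := T) (n + 1) s; linarith)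
    calc ∑ b ∈ G.act₂ s, y b * G.L T (G.δ s a b)
        ≤ ∑ b ∈ G.act₂ s, y b * (G.Lv T n (G.δ s a b) + ε) :=
          Finset.sum_le_sum fun b hb => mul_le_mul_of_nonneg_left (hn _) (hy.1.1 b hb)
      _ = ∑ b ∈ G.act₂ s, y b * G.Lv T n (G.δ s a b) + ε := by
          simp only [mul_add, Finset.sum_add_distrib, ← Finset.sum_mul, hy.1.2, one_mul]
      _ ≤ G.Lv T (n + 1) s + ε := by have := hy.2 a ha; linarith
  · refine ciSup_le fun n => (Lv_mono_succ n s).trans ?_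
    rw [Lv_succ hs]
    exact V_mono (G.ne₁ s) (G.ne₂ s) fun a _ b _ => Lv_le_L n _

/-- `L` is the least pre-fixed point. -/
theorem L_least {f : S → ℝ} (h0 : ∀ s, 0 ≤ f s) (h1 : ∀ s ∈ T, 1 ≤ f s)
    (h2 : ∀ s, s ∉ T → ∃ y, UpG (G.act₁ s) (G.act₂ s) (fun a b => f (G.δ s a b)) y (f s)) (s : S) :
    G.L T s ≤ f s := by
  refine ciSup_le fun n => ?_
  induction n generalizing s with
  | zero =>
    by_cases hs : s ∈ T
    · rw [Lv_mem hs]; exact h1 s hs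
    · rw [Lv_zero hs]; exact h0 s
  | succ n ih =>
    by_cases hs : s ∈ T
    · rw [Lv_mem hs]; exact h1 s hs
    · rw [Lv_succ hs]
      obtain ⟨y, hy⟩ := h2 s hs
      exact (V_mono (G.ne₁ s) (G.ne₂ s) fun a _ b _ => ih _).trans (V_le (G.ne₁ s) (G.ne₂ s) hy)

open scoped Classical in
/-- Player 1 can secure `Lv n s₀` with an `n`-stage strategy. -/
theorem lb (s₀ : S) (n : ℕ) : ∃ σ, G.Strat₁ s₀ σ ∧ ∀ τ, G.Strat₂ s₀ τ →
    G.Lv T n s₀ ≤ G.pay T s₀ σ τ := by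
  choose x hx using fun (k : ℕ) (s : S) => V_lo (G.ne₁ s) (G.ne₂ s) fun a b => G.Lv T k (G.δ s a b)
  refine ⟨fun h => x (n - 1 - h.length) (G.st s₀ h), fun h => (hx _ _).1, fun τ hτ => ?_⟩
  have key : ∀ m : ℕ, ∀ h : List (A × B), h.length + m = n → G.Lv T m (G.st s₀ h) ≤
      G.prob T s₀ (fun h => x (n - 1 - h.length) (G.st s₀ h)) τ m h := by
    intro m
    induction m with
    | zero =>
      intro h _
      by_cases hh : G.st s₀ h ∈ T
      · rw [prob_mem hh, Lv_mem hh]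
      · rw [prob_zero' hh, Lv_zero hh]
    | succ m ih =>
      intro h hl
      by_cases hh : G.st s₀ h ∈ T
      · rw [prob_mem hh, Lv_mem hh]
      · rw [prob_succ hh, Lv_succ hh]
        have e : n - 1 - h.length = m := by omega
        refine le_trans ?_ (dsum_le (f := fun a b => G.Lv T m (G.δ (G.st s₀ h) a b))
          (hx _ _).1.1 (hτ h).1 fun a _ b _ => ih ((a, b) :: h) (by simp; omega))
        rw [dsum', e]
        exact le_mix (hτ h) fun b hb => (hx m _).2 b hb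
  exact (key n [] (by simp)).trans (prob_le_pay (fun h => (hx _ _).1) hτ n)

theorem mem_val_le [Finite S] {c : ℝ} (hc : ∃ σ, G.Strat₁ s₀ σ ∧ ∀ τ, G.Strat₂ s₀ τ →
    c ≤ G.pay T s₀ σ τ) : c ≤ G.L T s₀ := by
  obtain ⟨σ, hσ, h⟩ := hc
  have hy : ∀ s, ∃ y, Mix (G.act₂ s) y ∧
      (s ∉ T → ∀ a ∈ G.act₁ s, ∑ b ∈ G.act₂ s, y b * G.L T (G.δ s a b) ≤ G.L T s) := by
    intro s
    by_cases hs : s ∈ T
    · exact ⟨_, mix_unif (G.ne₂ s), fun h => absurd hs h⟩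
    · obtain ⟨y, hy⟩ := V_up (G.ne₁ s) (G.ne₂ s) fun a b => G.L T (G.δ s a b)
      rw [L_fix hs] at hy
      exact ⟨y, hy.1, fun _ => hy.2⟩
  choose y hy1 hy2 using hy
  refine (h (fun h => y (G.st s₀ h)) fun h => hy1 _).trans (pay_le fun n => ?_)
  exact ub₁ (Q := Set.univ) hy1 (fun _ _ _ _ _ _ => trivial) (fun s _ => L_nonneg s)
    (fun s _ hs => (L_mem hs).ge) (fun s _ hs => hy2 s hs) hσ n [] trivial

theorem val₁_eq [Finite S] (s : S) : G.val₁ T s = G.L T s := by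
  apply le_antisymm
  · refine csSup_le ?_ fun c hc => mem_val_le hc
    obtain ⟨σ, hσ, h⟩ := lb (G := G) (T := T) s 0
    exact ⟨_, σ, hσ, h⟩
  · refine ciSup_le fun n => le_csSup ⟨G.L T s, fun c hc => mem_val_le hc⟩ (lb s n)

end Game

end Pool.Agent.H95.NE
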