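import Pool.Agent.H95.NE.Final

/-!
The fixed point and the main lemma with general payoffs in the terminal states.
-/

set_option autoImplicit false

open Finset Relation

namespace Pool.Agent.H95.NE

namespace Game

variable {S A B : Type*} (G : Game S A B)

open scoped Classical in
/-- The value operator with terminal states: payoff `c` on `W₁` and `W₂`. -/
noncomputable def TopC (W₁ W₂ : Set S) (c : S → ℝ) (g : S → ℝ) (s : S) : ℝ :=
  if s ∈ W₁ ∨ s ∈ W₂ then c s else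
    V (G.act₁ s) (G.act₂ s) fun a b => g (G.δ s a b)

variable {G} {W₁ W₂ Q : Set S} {c : S → ℝ}

theorem TopC_mono {g g' : S → ℝ} (h : ∀ s, g s ≤ g' s) (s : S) :
    G.TopC W₁ W₂ c g s ≤ G.TopC W₁ W₂ c g' s := by
  unfold TopC
  split_ifs
  · exact le_rfl
  · exact V_mono (G.ne₁ s) (G.ne₂ s) fun a _ b _ => h _

theorem TopC_nonneg (hc : ∀ s, 0 ≤ c s) {g : S → ℝ} (h : ∀ s, 0 ≤ g s) (s : S) :
    0 ≤ G.TopC W₁ W₂ c g s := by
  unfold TopC
  split_ifs
  · exact hc s
  · exact V_ge (G.ne₁ s) (G.ne₂ s) fun a _ b _ => h _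

theorem TopC_le_one (hc : ∀ s, c s ≤ 1) {g : S → ℝ} (h : ∀ s, g s ≤ 1) (s : S) :
    G.TopC W₁ W₂ c g s ≤ 1 := by
  unfold TopC
  split_ifs
  · exact hc s
  · exact V_le' (G.ne₁ s) (G.ne₂ s) fun a _ b _ => h _

theorem exists_fC (G : Game S A B) (W₁ W₂ Q : Set S) {c : S → ℝ} (hc0 : ∀ s, 0 ≤ c s)
    (hc1 : ∀ s, c s ≤ 1) : ∃ f : S → ℝ, (∀ s, 0 ≤ f s) ∧
    (∀ s, f s ≤ 1) ∧ (∀ s, G.TopC W₁ W₂ c f s = f s) ∧
    (∀ Y : S → ℝ, (∀ s, 0 ≤ Y s) → (∀ s, Y s ≤ 1) → (∀ s, Y s ≤ G.TopC W₁ W₂ c (comb Q f Y) s) →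
      ∀ s, Y s ≤ f s) ∧
    ∀ X : S → ℝ, (∀ s, 0 ≤ X s) → (∀ s, X s ≤ f s) → ∃ W : S → ℝ, (∀ s, 0 ≤ W s) ∧
      (∀ s, W s = G.TopC W₁ W₂ c (comb Q X W) s) ∧ (∀ s, W s ≤ f s) ∧
      ((∀ s, W s ≤ X s) → ∀ s, f s ≤ X s) := by
  let Φ : (S → unitInterval) → (S → unitInterval) := fun g s =>
    ⟨G.TopC W₁ W₂ c (fun s => (g s : ℝ)) s, TopC_nonneg hc0 (fun s => (g s).2.1) s,
      TopC_le_one hc1 (fun s => (g s).2.2) s⟩
  have hΦ : Monotone Φ := fun g g' h s => TopC_mono (fun s => h s) s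
  obtain ⟨f, h1, h2, h3⟩ := exists_mu_nu Φ hΦ Q
  refine ⟨fun s => (f s : ℝ), fun s => (f s).2.1, fun s => (f s).2.2, fun s => ?_,
    fun Y hY0 hY1 hY => ?_, fun X hX0 hX => ?_⟩
  · exact congrArg Subtype.val (congrFun h1 s)
  · have h4 := h2 (fun s => ⟨Y s, hY0 s, hY1 s⟩) (fun s => by
      refine Subtype.coe_le_coe.1 ?_
      change Y s ≤ G.TopC W₁ W₂ c (fun s => ((comb Q f (fun s => ⟨Y s, hY0 s, hY1 s⟩) s :
        unitInterval) : ℝ)) s
      have e : (fun s => ((comb Q f (fun s => ⟨Y s, hY0 s, hY1 s⟩) s : unitInterval) : ℝ)) =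
          comb Q (fun s => (f s : ℝ)) Y := by
        funext s
        rw [comb_coe]
      rw [e]
      exact hY s)
    exact fun s => h4 s
  · obtain ⟨W, h4, h5, h6⟩ := h3 fun s => ⟨X s, hX0 s, (hX s).trans (f s).2.2⟩
    refine ⟨fun s => (W s : ℝ), fun s => (W s).2.1, fun s => ?_, fun s => ?_, fun h s => ?_⟩
    · have h7 := congrArg Subtype.val (congrFun h4 s)
      change (W s : ℝ) = G.TopC W₁ W₂ c (fun s => ((comb Q (fun s => ⟨X s, hX0 s,
        (hX s).trans (f s).2.2⟩) W s : unitInterval) : ℝ)) s at h7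
      have e : (fun s => ((comb Q (fun s => ⟨X s, hX0 s, (hX s).trans (f s).2.2⟩) W s :
          unitInterval) : ℝ)) = comb Q X (fun s => (W s : ℝ)) := by
        funext s
        rw [comb_coe]
      rw [e] at h7
      exact h7
    · exact h5 (fun s => hX s) s
    · exact h6 (fun s => h s) s

theorem TopC_R {g : S → ℝ} {s : S} (h1 : s ∉ W₁) (h2 : s ∉ W₂) : G.TopC W₁ W₂ c g s =
    V (G.act₁ s) (G.act₂ s) fun a b => g (G.δ s a b) := by
  rw [TopC, if_neg fun h => h.elim h1 h2]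

theorem lemAC [Finite S] {f : S → ℝ} (hf0 : ∀ s, 0 ≤ f s) (hf1 : ∀ s, f s ≤ 1)
    (hfix : ∀ s, G.TopC W₁ W₂ c f s = f s)
    (hA : ∀ Y : S → ℝ, (∀ s, 0 ≤ Y s) → (∀ s, Y s ≤ 1) →
      (∀ s, Y s ≤ G.TopC W₁ W₂ c (comb Q f Y) s) → ∀ s, Y s ≤ f s)
    (hQ2 : ∀ s, s ∉ Q → s ∉ W₁ → s ∉ W₂ → f s < 1)
    {L : Set S} (hL : ∀ s ∈ L, s ∉ Q ∧ s ∉ W₁ ∧ s ∉ W₂)
    (hC : ∀ s ∈ L, ∃ x, LoG (G.act₁ s) (G.act₂ s) (fun a b => f (G.δ s a b)) x (f s) ∧
      ∀ b ∈ G.act₂ s, (∀ a ∈ G.act₁ s, 0 < x a → G.δ s a b ∈ L) ∨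
        f s < ∑ a ∈ G.act₁ s, x a * f (G.δ s a b)) : ¬ L.Nonempty := by
  classical
  rintro ⟨s₀, hs₀⟩
  have hC' : ∀ s, ∃ x, s ∈ L → LoG (G.act₁ s) (G.act₂ s) (fun a b => f (G.δ s a b)) x (f s) ∧
      ∀ b ∈ G.act₂ s, (∀ a ∈ G.act₁ s, 0 < x a → G.δ s a b ∈ L) ∨
        f s < ∑ a ∈ G.act₁ s, x a * f (G.δ s a b) := by
    intro s
    by_cases hs : s ∈ L
    · obtain ⟨x, hx⟩ := hC s hs
      exact ⟨x, fun _ => hx⟩
    · exact ⟨fun _ => 0, fun h => absurd h hs⟩
  choose x hx using hC'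
  have hgap : ∀ s, ∃ η > 0, s ∈ L → η ≤ 1 - f s ∧ ∀ b ∈ G.act₂ s,
      f s < ∑ a ∈ G.act₁ s, x s a * f (G.δ s a b) →
        f s + η ≤ ∑ a ∈ G.act₁ s, x s a * f (G.δ s a b) := by
    intro s
    by_cases hs : s ∈ L
    · obtain ⟨η, h1, h2⟩ := exists_gap (G.act₂ s)
        (fun b => f s < ∑ a ∈ G.act₁ s, x s a * f (G.δ s a b))
        (fun b => - ∑ a ∈ G.act₁ s, x s a * f (G.δ s a b)) (- f s) (fun b _ h => by linarith)
      obtain ⟨h3, h4, h5⟩ := hL s hs
      have h6 := hQ2 s h3 h4 h5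
      refine ⟨min η (1 - f s), lt_min h1 (by linarith), fun _ => ⟨min_le_right _ _,
        fun b hb h => ?_⟩⟩
      have := h2 b hb h
      have := min_le_left η (1 - f s)
      linarith
    · exact ⟨1, one_pos, fun h => absurd h hs⟩
  choose η hη1 hη2 using hgap
  have : Nonempty S := ⟨s₀⟩
  obtain ⟨s₃, hs₃⟩ := Finite.exists_min η
  set e := η s₃ with he
  have he0 : 0 < e := hη1 s₃
  have hcomb : comb Q f (fun s => if s ∈ L then f s + e else f s) =
      fun s => if s ∈ L then f s + e else f s := by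
    funext s
    by_cases h1 : s ∈ Q
    · have h2 : s ∉ L := fun h => (hL s h).1 h1
      simp only [comb, if_pos h1, if_neg h2]
    · simp only [comb, if_neg h1]
  have hYf : ∀ s, f s ≤ (if s ∈ L then f s + e else f s) := by
    intro s
    split_ifs <;> linarith
  have hle := hA (fun s => if s ∈ L then f s + e else f s) (fun s => (hf0 s).trans (hYf s))
    (fun s => by
      split_ifs with h
      · have := (hη2 s h).1
        have := hs₃ s
        linarith
      · exact hf1 s) (fun s => by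
      rw [hcomb]
      by_cases hs : s ∈ L
      · rw [if_pos hs]
        obtain ⟨h1, h2, h3⟩ := hL s hs
        rw [TopC_R h2 h3]
        obtain ⟨h4, h5⟩ := hx s hs
        refine le_V (G.ne₁ s) (G.ne₂ s) (x := x s) ⟨h4.1, fun b hb => ?_⟩
        rcases h5 b hb with h6 | h6
        · have e1 : ∑ a ∈ G.act₁ s, x s a * (if G.δ s a b ∈ L then f (G.δ s a b) + e else
              f (G.δ s a b)) = ∑ a ∈ G.act₁ s, x s a * (f (G.δ s a b) + e) := by
            refine Finset.sum_congr rfl fun a ha => ?_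
            rcases (h4.1.1 a ha).lt_or_eq with h7 | h7
            · rw [if_pos (h6 a ha h7)]
            · rw [← h7]; simp
          rw [e1]
          simp only [mul_add, Finset.sum_add_distrib, ← Finset.sum_mul, h4.1.2, one_mul]
          have := h4.2 b hb
          linarith
        · have h7 := (hη2 s hs).2 b hb h6
          have h8 := hs₃ s
          have h9 : ∑ a ∈ G.act₁ s, x s a * f (G.δ s a b) ≤ ∑ a ∈ G.act₁ s, x s a *
              (if G.δ s a b ∈ L then f (G.δ s a b) + e else f (G.δ s a b)) :=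
            Finset.sum_le_sum fun a ha => mul_le_mul_of_nonneg_left (hYf _) (h4.1.1 a ha)
          linarith
      · rw [if_neg hs]
        rw [← hfix s]
        exact TopC_mono hYf s) s₀
  simp only [if_pos hs₀] at hle
  linarith

theorem noClosedC [Finite S] {f : S → ℝ} (hf0 : ∀ s, 0 ≤ f s) (hf1 : ∀ s, f s ≤ 1)
    (hfix : ∀ s, G.TopC W₁ W₂ c f s = f s)
    (hA : ∀ Y : S → ℝ, (∀ s, 0 ≤ Y s) → (∀ s, Y s ≤ 1) →
      (∀ s, Y s ≤ G.TopC W₁ W₂ c (comb Q f Y) s) → ∀ s, Y s ≤ f s)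
    (hB : ∀ X : S → ℝ, (∀ s, 0 ≤ X s) → (∀ s, X s ≤ f s) → ∃ W : S → ℝ, (∀ s, 0 ≤ W s) ∧
      (∀ s, W s = G.TopC W₁ W₂ c (comb Q X W) s) ∧ (∀ s, W s ≤ f s) ∧
      ((∀ s, W s ≤ X s) → ∀ s, f s ≤ X s))
    (hQ1 : ∀ s ∈ Q, s ∉ W₁ → s ∉ W₂ → 0 < f s)
    (hQ2 : ∀ s, s ∉ Q → s ∉ W₁ → s ∉ W₂ → f s < 1)
    {K : Set S} (hK : ∀ s ∈ K, s ∉ W₁ ∧ s ∉ W₂)
    (hopt : ∀ s ∈ K, ∀ x y, G.Opt f s x y → ∀ a ∈ G.act₁ s, ∀ b ∈ G.act₂ s, 0 < x a → 0 < y b →
      G.δ s a b ∈ K) : ¬ K.Nonempty := by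
  classical
  intro hKne
  obtain ⟨s₁, hs₁, hmax⟩ := Set.exists_max_image K f (Set.toFinite K) hKne
  set M := f s₁ with hM
  set K' : Set S := {s | s ∈ K ∧ f s = M} with hK'
  have hK'opt : ∀ s ∈ K', ∀ x y, G.Opt f s x y → ∀ a ∈ G.act₁ s, ∀ b ∈ G.act₂ s, 0 < x a →
      0 < y b → G.δ s a b ∈ K' := by
    intro s hs x y hxy a ha b hb hxa hyb
    refine ⟨hopt s hs.1 x y hxy a ha b hb hxa hyb, ?_⟩
    refine dsum_eq hxy.1.1 hxy.2.1 (f := fun a b => f (G.δ s a b)) (c := M)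
      (fun a ha b hb h1 h2 => hmax _ (hopt s hs.1 x y hxy a ha b hb h1 h2)) ?_ ha hb hxa hyb
    rw [dsum', ← hs.2]
    exact le_mix hxy.2.1 hxy.1.2
  have hV : ∀ s, s ∉ W₁ → s ∉ W₂ →
      V (G.act₁ s) (G.act₂ s) (fun a b => f (G.δ s a b)) = f s := by
    intro s h1 h2
    rw [← TopC_R h1 h2, hfix]
  -- strictly complementary pairs for all sets of rows
  have hpair : ∀ (s : S) (H : Finset A), ∃ x y, H.Nonempty →
      LoG H (G.act₂ s) (fun a b => f (G.δ s a b)) x (V H (G.act₂ s) fun a b => f (G.δ s a b)) ∧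
      UpG H (G.act₂ s) (fun a b => f (G.δ s a b)) y (V H (G.act₂ s) fun a b => f (G.δ s a b)) ∧
      (∀ a ∈ H, 0 < x a ∨ ∑ b ∈ G.act₂ s, y b * f (G.δ s a b) <
        V H (G.act₂ s) fun a b => f (G.δ s a b)) ∧
      ∀ b ∈ G.act₂ s, 0 < y b ∨ (V H (G.act₂ s) fun a b => f (G.δ s a b)) <
        ∑ a ∈ H, x a * f (G.δ s a b) := by
    intro s H
    by_cases hH : H.Nonempty
    · obtain ⟨x, y, h⟩ := bothStrict hH (G.ne₂ s) fun a b => f (G.δ s a b)
      exact ⟨x, y, fun _ => h⟩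
    · exact ⟨fun _ => 0, fun _ => 0, fun h => absurd h hH⟩
  choose xx yy hxy using hpair
  have hoptH : ∀ s, s ∉ W₁ → s ∉ W₂ → ∀ H : Finset A, H.Nonempty → H ⊆ G.act₁ s →
      V H (G.act₂ s) (fun a b => f (G.δ s a b)) = f s →
      G.Opt f s (ext H (xx s H)) (yy s H) := by
    intro s h1 h2 H hH hsub hVH
    obtain ⟨h3, h4, h5, h6⟩ := hxy s H hH
    rw [hVH] at h3 h4
    refine ⟨ext_loG hsub h3, h4.1, fun a ha hxa => ?_⟩
    by_cases haH : a ∈ H
    · rw [ext, if_pos haH] at hxa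
      exact slack h3 h4 haH hxa
    · rw [ext, if_neg haH] at hxa
      exact absurd hxa (lt_irrefl _)
  by_cases hcase : ∀ s ∈ K', s ∉ Q
  · -- all states are in the second part
    refine lemAC hf0 hf1 hfix hA hQ2 (L := K') (fun s hs => ⟨hcase s hs, hK s hs.1⟩)
      (fun s hs => ?_) ⟨s₁, hs₁, rfl⟩
    obtain ⟨h1, h2⟩ := hK s hs.1
    obtain ⟨h3, h4, h5, h6⟩ := hxy s (G.act₁ s) (G.ne₁ s)
    have h7 := hoptH s h1 h2 (G.act₁ s) (G.ne₁ s) subset_rfl (hV s h1 h2)
    refine ⟨ext (G.act₁ s) (xx s (G.act₁ s)), h7.1, fun b hb => ?_⟩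
    rcases h6 b hb with h8 | h8
    · left
      exact fun a ha hxa => hK'opt s hs _ _ h7 a ha b hb hxa h8
    · right
      rw [ext_sum subset_rfl _ fun a => f (G.δ s a b)]
      rwa [hV s h1 h2] at h8
  · push Not at hcase
    obtain ⟨s₂, hs₂, hs₂Q⟩ := hcase
    have hMpos : 0 < M := by
      rw [← hs₂.2]
      exact hQ1 s₂ hs₂Q (hK s₂ hs₂.1).1 (hK s₂ hs₂.1).2
    -- the gap
    have hgap : ∀ s, ∃ η > 0, s ∈ K' → (∀ H ∈ (G.act₁ s).powerset,
        (V H (G.act₂ s) fun a b => f (G.δ s a b)) < M →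
          (V H (G.act₂ s) fun a b => f (G.δ s a b)) ≤ M - η) ∧
        ∀ H ∈ (G.act₁ s).powerset, ∀ a ∈ H, ¬ 0 < xx s H a →
          ∑ b ∈ G.act₂ s, yy s H b * f (G.δ s a b) ≤ M - η := by
      intro s
      by_cases hs : s ∈ K'
      · obtain ⟨h1, h2⟩ := hK s hs.1
        obtain ⟨η1, h3, h4⟩ := exists_gap (G.act₁ s).powerset
          (fun H => (V H (G.act₂ s) fun a b => f (G.δ s a b)) < M)
          (fun H => V H (G.act₂ s) fun a b => f (G.δ s a b)) M (fun H _ h => h)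
        obtain ⟨η2, h5, h6⟩ := exists_gap ((G.act₁ s).powerset ×ˢ (G.act₁ s))
          (fun p => p.2 ∈ p.1 ∧ ¬ 0 < xx s p.1 p.2)
          (fun p => ∑ b ∈ G.act₂ s, yy s p.1 b * f (G.δ s p.2 b)) M (fun p hp h => by
            rw [Finset.mem_product, Finset.mem_powerset] at hp
            have hne : p.1.Nonempty := ⟨p.2, h.1⟩
            have h7 := ((hxy s p.1 hne).2.2.1 p.2 h.1).resolve_left h.2
            have h8 := V_sub hp.1 hne (G.ne₂ s) fun a b => f (G.δ s a b)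
            rw [hV s h1 h2, hs.2] at h8
            linarith)
        refine ⟨min η1 η2, lt_min h3 h5, fun _ => ⟨fun H hH h => ?_, fun H hH a ha h => ?_⟩⟩
        · have := h4 H hH h
          have := min_le_left η1 η2
          linarith
        · have := h6 (H, a) (Finset.mem_product.2 ⟨hH, Finset.mem_powerset.1 hH ha⟩) ⟨ha, h⟩
          have := min_le_right η1 η2
          dsimp only at *
          linarith
      · exact ⟨1, one_pos, fun h => absurd h hs⟩
    choose η hη1 hη2 using hgap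
    have : Nonempty S := ⟨s₁⟩
    obtain ⟨s₃, hs₃⟩ := Finite.exists_min η
    set e := min (η s₃) M with he
    have he0 : 0 < e := lt_min (hη1 s₃) hMpos
    have heM : e ≤ M := min_le_right _ _
    have heη : ∀ s, e ≤ η s := fun s => (min_le_left _ _).trans (hs₃ s)
    have hgap1 : ∀ s ∈ K', ∀ H ⊆ G.act₁ s, (V H (G.act₂ s) fun a b => f (G.δ s a b)) < M →
        (V H (G.act₂ s) fun a b => f (G.δ s a b)) ≤ M - e := by
      intro s hs H hH h
      have := (hη2 s hs).1 H (Finset.mem_powerset.2 hH) h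
      have := heη s
      linarith
    have hgap2 : ∀ s ∈ K', ∀ H ⊆ G.act₁ s, ∀ a ∈ H, ¬ 0 < xx s H a →
        ∑ b ∈ G.act₂ s, yy s H b * f (G.δ s a b) ≤ M - e := by
      intro s hs H hH a ha h
      have := (hη2 s hs).2 H (Finset.mem_powerset.2 hH) a ha h
      have := heη s
      linarith
    set X : S → ℝ := fun s => if s ∈ K' then f s - e else f s with hX
    have hXK : ∀ s ∈ K', X s = M - e := by
      intro s hs
      simp only [hX, if_pos hs, hs.2]
    have hXf : ∀ s, X s ≤ f s := by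
      intro s
      simp only [hX]
      split_ifs <;> linarith
    have hX0 : ∀ s, 0 ≤ X s := by
      intro s
      by_cases hs : s ∈ K'
      · rw [hXK s hs]; linarith
      · simp only [hX, if_neg hs]; exact hf0 s
    obtain ⟨W, hW0, hWfix, hWf, hWX⟩ := hB X hX0 hXf
    set C := comb Q X W with hC
    have hCf : ∀ s, C s ≤ f s := by
      intro s
      simp only [hC, comb]
      split_ifs
      · exact hXf s
      · exact hWf s
    by_cases hW : ∀ s ∈ K', s ∉ Q → W s ≤ M - e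
    · -- contradiction to leastness
      have hCK : ∀ s ∈ K', C s ≤ M - e := by
        intro s hs
        simp only [hC, comb]
        split_ifs with h
        · exact (hXK s hs).le
        · exact hW s hs h
      have hWX' : ∀ s, W s ≤ X s := by
        intro s
        by_cases hs : s ∈ K'
        · rw [hXK s hs]
          by_cases hsQ : s ∈ Q
          · obtain ⟨h1, h2⟩ := hK s hs.1
            rw [hWfix s, TopC_R h1 h2]
            obtain ⟨h3, h4, h5, h6⟩ := hxy s (G.act₁ s) (G.ne₁ s)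
            have h7 := hoptH s h1 h2 (G.act₁ s) (G.ne₁ s) subset_rfl (hV s h1 h2)
            refine V_le (G.ne₁ s) (G.ne₂ s) (y := yy s (G.act₁ s)) ⟨h4.1, fun a ha => ?_⟩
            by_cases hxa : 0 < xx s (G.act₁ s) a
            · refine mix_le' h4.1 fun b hb hyb => hCK _ ?_
              exact hK'opt s hs _ _ h7 a ha b hb (by rw [ext, if_pos ha]; exact hxa) hyb
            · refine le_trans ?_ (hgap2 s hs _ subset_rfl a ha hxa)
              exact Finset.sum_le_sum fun b hb => mul_le_mul_of_nonneg_left (hCf _) (h4.1.1 b hb)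
          · exact hW s hs hsQ
        · simp only [hX, if_neg hs]
          exact hWf s
      have h1 := hWX hWX' s₂
      rw [hXK s₂ hs₂, hs₂.2] at h1
      linarith
    · -- a set which player 1 holds
      push Not at hW
      obtain ⟨s₄, hs₄, hs₄Q, hs₄W⟩ := hW
      obtain ⟨s₅, hs₅, hmaxW⟩ := Set.exists_max_image {s | s ∈ K' ∧ s ∉ Q} W (Set.toFinite _)
        ⟨s₄, hs₄, hs₄Q⟩
      set w := W s₅ with hw
      have hwM : M - e < w := lt_of_lt_of_le hs₄W (hmaxW s₄ ⟨hs₄, hs₄Q⟩)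
      set U : Set S := {s | (s ∈ K' ∧ s ∉ Q) ∧ W s = w} with hU
      have hCw : ∀ s ∈ K', C s ≤ w := by
        intro s hs
        simp only [hC, comb]
        split_ifs with h
        · rw [hXK s hs]; exact hwM.le
        · exact hmaxW s ⟨hs, h⟩
      have hCU : ∀ s ∈ K', C s = w → s ∈ U := by
        intro s hs h
        simp only [hC, comb] at h
        split_ifs at h with h'
        · rw [hXK s hs] at h
          linarith
        · exact ⟨⟨hs, h'⟩, h⟩
      refine lemAC hf0 hf1 hfix hA hQ2 (L := U) (fun s hs => ⟨hs.1.2, hK s hs.1.1.1⟩)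
        (fun s hs => ?_) ⟨s₅, hs₅, rfl⟩
      have hsK := hs.1.1
      obtain ⟨h1, h2⟩ := hK s hsK.1
      have hVC : V (G.act₁ s) (G.act₂ s) (fun a b => C (G.δ s a b)) = w := by
        rw [← hs.2, hWfix s, TopC_R h1 h2]
      obtain ⟨x', hx'⟩ := V_lo (G.ne₁ s) (G.ne₂ s) fun a b => C (G.δ s a b)
      rw [hVC] at hx'
      set 𝓗 := (G.act₁ s).powerset.filter fun H => (∀ a ∈ G.act₁ s, 0 < x' a → a ∈ H) ∧
        f s ≤ V H (G.act₂ s) fun a b => f (G.δ s a b) with h𝓗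
      have hne : 𝓗.Nonempty := ⟨G.act₁ s, by
        rw [h𝓗, Finset.mem_filter]
        exact ⟨Finset.mem_powerset.2 subset_rfl, fun a ha _ => ha, (hV s h1 h2).ge⟩⟩
      obtain ⟨H, hH, hHmin⟩ := Finset.exists_min_image 𝓗 Finset.card hne
      rw [h𝓗, Finset.mem_filter, Finset.mem_powerset] at hH
      obtain ⟨hHsub, hHsupp, hHV⟩ := hH
      obtain ⟨a₀, ha₀, hxa₀⟩ := hx'.1.exists_pos
      have hHne : H.Nonempty := ⟨a₀, hHsupp a₀ ha₀ hxa₀⟩
      have hVH : V H (G.act₂ s) (fun a b => f (G.δ s a b)) = f s :=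
        le_antisymm ((V_sub hHsub hHne (G.ne₂ s) _).trans (hV s h1 h2).le) hHV
      have hO := hoptH s h1 h2 H hHne hHsub hVH
      obtain ⟨h3, h4, h5, h6⟩ := hxy s H hHne
      have hsucc : ∀ a ∈ H, 0 < xx s H a → ∀ b ∈ G.act₂ s, 0 < yy s H b → G.δ s a b ∈ K' :=
        fun a ha hxa b hb hyb => hK'opt s hsK _ _ hO a (hHsub ha) b hb
          (by rw [ext, if_pos ha]; exact hxa) hyb
      have hψ : ∀ a ∈ G.act₁ s, 0 < x' a → ∑ b ∈ G.act₂ s, yy s H b * C (G.δ s a b) ≤ w := by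
        intro a ha hxa
        have haH := hHsupp a ha hxa
        by_cases hxxa : 0 < xx s H a
        · exact mix_le' h4.1 fun b hb hyb => hCw _ (hsucc a haH hxxa b hb hyb)
        · refine le_trans (Finset.sum_le_sum fun b hb =>
            mul_le_mul_of_nonneg_left (hCf _) (h4.1.1 b hb)) ?_
          have := hgap2 s hsK H hHsub a haH hxxa
          linarith
      have hkey : ∀ a ∈ G.act₁ s, 0 < x' a → 0 < xx s H a ∧
          ∀ b ∈ G.act₂ s, 0 < yy s H b → G.δ s a b ∈ U := by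
        intro a ha hxa
        have haH := hHsupp a ha hxa
        have h7 : ∑ b ∈ G.act₂ s, yy s H b * C (G.δ s a b) = w := by
          refine sum_eq_of' hx'.1 (f := fun a => ∑ b ∈ G.act₂ s, yy s H b * C (G.δ s a b)) hψ ?_
            ha hxa
          rw [bil]
          exact le_mix h4.1 hx'.2
        have h8 : 0 < xx s H a := by
          by_contra hxxa
          have h9 := hgap2 s hsK H hHsub a haH hxxa
          have h10 : ∑ b ∈ G.act₂ s, yy s H b * C (G.δ s a b) ≤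
              ∑ b ∈ G.act₂ s, yy s H b * f (G.δ s a b) :=
            Finset.sum_le_sum fun b hb => mul_le_mul_of_nonneg_left (hCf _) (h4.1.1 b hb)
          linarith
        refine ⟨h8, fun b hb hyb => ?_⟩
        have h9 := hsucc a haH h8 b hb hyb
        refine hCU _ h9 ?_
        exact sum_eq_of' h4.1 (f := fun b => C (G.δ s a b))
          (fun b hb hyb => hCw _ (hsucc a haH h8 b hb hyb)) h7.ge hb hyb
      set H' := H.filter fun a => 0 < xx s H a ∧ ∀ b ∈ G.act₂ s, 0 < yy s H b → G.δ s a b ∈ U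
        with hH'
      have hH'sub : H' ⊆ H := Finset.filter_subset _ _
      have hsupp' : ∀ a ∈ G.act₁ s, 0 < x' a → a ∈ H' := fun a ha hxa =>
        Finset.mem_filter.2 ⟨hHsupp a ha hxa, hkey a ha hxa⟩
      have hzero : ∀ a ∈ G.act₁ s, a ∉ H' → x' a = 0 := by
        intro a ha h
        by_contra hne
        exact h (hsupp' a ha (lt_of_le_of_ne (hx'.1.1 a ha) (Ne.symm hne)))
      have hsum' : ∀ m : A → ℝ, ∑ a ∈ H', x' a * m a = ∑ a ∈ G.act₁ s, x' a * m a := by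
        intro m
        refine Finset.sum_subset (hH'sub.trans hHsub) fun a ha h => ?_
        rw [hzero a ha h, zero_mul]
      have hmix' : Mix H' x' := by
        refine ⟨fun a ha => hx'.1.1 a (hHsub (hH'sub ha)), ?_⟩
        have := hsum' fun _ => 1
        simp only [mul_one] at this
        rw [this, hx'.1.2]
      have hH'V : f s ≤ V H' (G.act₂ s) fun a b => f (G.δ s a b) := by
        have h7 : w ≤ V H' (G.act₂ s) fun a b => f (G.δ s a b) := by
          refine le_V ⟨a₀, hsupp' a₀ ha₀ hxa₀⟩ (G.ne₂ s) (x := x') ⟨hmix', fun b hb => ?_⟩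
          rw [hsum' fun a => f (G.δ s a b)]
          refine (hx'.2 b hb).trans ?_
          exact Finset.sum_le_sum fun a ha => mul_le_mul_of_nonneg_left (hCf _) (hx'.1.1 a ha)
        by_contra hlt
        push Not at hlt
        rw [hsK.2] at hlt
        have := hgap1 s hsK H' (hH'sub.trans hHsub) hlt
        linarith
      have hH'mem : H' ∈ 𝓗 := by
        rw [h𝓗, Finset.mem_filter, Finset.mem_powerset]
        exact ⟨hH'sub.trans hHsub, hsupp', hH'V⟩
      have hHH' : H' = H := Finset.eq_of_subset_of_card_le hH'sub (hHmin H' hH'mem)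
      refine ⟨ext H (xx s H), hO.1, fun b hb => ?_⟩
      rcases h6 b hb with h7 | h7
      · left
        intro a ha hxa
        by_cases haH : a ∈ H
        · have h8 : a ∈ H' := by rw [hHH']; exact haH
          exact (Finset.mem_filter.1 h8).2.2 b hb h7
        · rw [ext, if_neg haH] at hxa
          exact absurd hxa (lt_irrefl _)
      · right
        rw [ext_sum hHsub _ fun a => f (G.δ s a b)]
        rwa [hVH] at h7

end Game

end Pool.Agent.H95.NE
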