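import Pool.Agent.H95.NE.NoClosed

/-!
Strategies with finite memory: the lifted game. Verification of equilibria.
-/

set_option autoImplicit false

open Finset Relation

namespace Pool.Agent.H95.NE

namespace Game

variable {S A B μ : Type*} (G : Game S A B)

/-- The game with a memory state in `μ`. -/
def lift (u : μ → S → A → B → μ) : Game (S × μ) A B where
  act₁ := fun p => G.act₁ p.1
  act₂ := fun p => G.act₂ p.1
  ne₁ := fun p => G.ne₁ p.1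
  ne₂ := fun p => G.ne₂ p.1
  δ := fun p a b => (G.δ p.1 a b, u p.2 p.1 a b)

variable {G} {u : μ → S → A → B → μ} {T T₁ T₂ : Set S} {s₀ : S} {m₀ : μ}

theorem lift_st (h : List (A × B)) : ((G.lift u).st (s₀, m₀) h).1 = G.st s₀ h := by
  induction h with
  | nil => rfl
  | cons p h ih =>
    change G.δ ((G.lift u).st (s₀, m₀) h).1 p.1 p.2 = G.δ (G.st s₀ h) p.1 p.2
    rw [ih]

theorem lift_strat₁ {σ : List (A × B) → A → ℝ} :
    (G.lift u).Strat₁ (s₀, m₀) σ ↔ G.Strat₁ s₀ σ := by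
  unfold Strat₁
  refine forall_congr' fun h => ?_
  change Mix (G.act₁ ((G.lift u).st (s₀, m₀) h).1) (σ h) ↔ _
  rw [lift_st]

theorem lift_strat₂ {τ : List (A × B) → B → ℝ} :
    (G.lift u).Strat₂ (s₀, m₀) τ ↔ G.Strat₂ s₀ τ := by
  unfold Strat₂
  refine forall_congr' fun h => ?_
  change Mix (G.act₂ ((G.lift u).st (s₀, m₀) h).1) (τ h) ↔ _
  rw [lift_st]

theorem lift_prob (σ : List (A × B) → A → ℝ) (τ : List (A × B) → B → ℝ) (n : ℕ) : ∀ h,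
    (G.lift u).prob (Prod.fst ⁻¹' T) (s₀, m₀) σ τ n h = G.prob T s₀ σ τ n h := by
  induction n with
  | zero =>
    intro h
    by_cases hh : G.st s₀ h ∈ T
    · rw [prob_mem hh, prob_mem]
      change ((G.lift u).st (s₀, m₀) h).1 ∈ T
      rwa [lift_st]
    · rw [prob_zero' hh, prob_zero']
      change ¬ ((G.lift u).st (s₀, m₀) h).1 ∈ T
      rwa [lift_st]
  | succ n ih =>
    intro h
    by_cases hh : G.st s₀ h ∈ T
    · rw [prob_mem hh, prob_mem]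
      change ((G.lift u).st (s₀, m₀) h).1 ∈ T
      rwa [lift_st]
    · rw [prob_succ hh, prob_succ]
      · simp only [ih]
        change ∑ a ∈ G.act₁ ((G.lift u).st (s₀, m₀) h).1,
          ∑ b ∈ G.act₂ ((G.lift u).st (s₀, m₀) h).1, _ = _
        rw [lift_st]
      · change ¬ ((G.lift u).st (s₀, m₀) h).1 ∈ T
        rwa [lift_st]

theorem lift_pay (σ : List (A × B) → A → ℝ) (τ : List (A × B) → B → ℝ) :
    (G.lift u).pay (Prod.fst ⁻¹' T) (s₀, m₀) σ τ = G.pay T s₀ σ τ := by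
  unfold pay
  congr 1
  funext n
  exact lift_prob σ τ n []

theorem nash_of_lift {σ : List (A × B) → A → ℝ} {τ : List (A × B) → B → ℝ}
    (h : (G.lift u).IsNash (Prod.fst ⁻¹' T₁) (Prod.fst ⁻¹' T₂) (s₀, m₀) σ τ) :
    G.IsNash T₁ T₂ s₀ σ τ := by
  obtain ⟨h1, h2, h3, h4⟩ := h
  refine ⟨lift_strat₁.1 h1, lift_strat₂.1 h2, fun σ' hσ' => ?_, fun τ' hτ' => ?_⟩
  · have := h3 σ' (lift_strat₁.2 hσ')
    rwa [lift_pay, lift_pay] at this
  · have := h4 τ' (lift_strat₂.2 hτ')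
    rwa [lift_pay, lift_pay] at this

/-- Verification of a stationary equilibrium by potentials. -/
theorem verify [Finite S] {x : S → A → ℝ} {y : S → B → ℝ} (hx : ∀ s, Mix (G.act₁ s) (x s))
    (hy : ∀ s, Mix (G.act₂ s) (y s)) {P₁ P₂ : S → ℝ} (h10 : ∀ s, 0 ≤ P₁ s) (h20 : ∀ s, 0 ≤ P₂ s)
    (h11 : ∀ s ∈ T₁, 1 ≤ P₁ s) (h21 : ∀ s ∈ T₂, 1 ≤ P₂ s)
    (h12 : ∀ s, s ∉ T₁ → ∀ a ∈ G.act₁ s, ∑ b ∈ G.act₂ s, y s b * P₁ (G.δ s a b) ≤ P₁ s)
    (h22 : ∀ s, s ∉ T₂ → ∀ b ∈ G.act₂ s, ∑ a ∈ G.act₁ s, x s a * P₂ (G.δ s a b) ≤ P₂ s)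
    (hsum : P₁ s₀ + P₂ s₀ ≤ 1) {X : Set S} (hX₀ : s₀ ∈ X)
    (hX : ∀ s ∈ X, s ∉ T₁ ∪ T₂ → ∀ s', G.PStep x y s s' → s' ∈ X)
    (hT : ∀ s ∈ X, ∃ t ∈ T₁ ∪ T₂, ReflTransGen (G.PStep x y) s t) :
    G.IsNash T₁ T₂ s₀ (fun h => x (G.st s₀ h)) (fun h => y (G.st s₀ h)) := by
  have S1 : G.Strat₁ s₀ (fun h => x (G.st s₀ h)) := fun h => hx _
  have S2 : G.Strat₂ s₀ (fun h => y (G.st s₀ h)) := fun h => hy _
  have hone : G.pay (T₁ ∪ T₂) s₀ (fun h => x (G.st s₀ h)) (fun h => y (G.st s₀ h)) = 1 :=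
    as_reach hx hy hX hT hX₀
  have hs := pay_union (T₁ := T₁) (T₂ := T₂) S1 S2
  have hu1 : ∀ σ', G.Strat₁ s₀ σ' →
      G.pay T₁ s₀ σ' (fun h => y (G.st s₀ h)) ≤ P₁ s₀ := fun σ' hσ' => pay_le fun n =>
    ub₁ (Q := Set.univ) hy (fun _ _ _ _ _ _ => trivial) (fun s _ => h10 s)
      (fun s _ hs => h11 s hs) (fun s _ hs => h12 s hs) hσ' n [] trivial
  have hu2 : ∀ τ', G.Strat₂ s₀ τ' →
      G.pay T₂ s₀ (fun h => x (G.st s₀ h)) τ' ≤ P₂ s₀ := fun τ' hτ' => pay_le fun n =>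
    ub₂ (Q := Set.univ) hx (fun _ _ _ _ _ _ => trivial) (fun s _ => h20 s)
      (fun s _ hs => h21 s hs) (fun s _ hs => h22 s hs) hτ' n [] trivial
  refine ⟨S1, S2, fun σ' hσ' => ?_, fun τ' hτ' => ?_⟩
  · have h1 := hu1 σ' hσ'
    have h2 := hu2 _ S2
    linarith
  · have h1 := hu1 _ S1
    have h2 := hu2 τ' hτ'
    linarith

/-- Positional play that caps player 1 at the value, and reaches `T₂` from the states with value `0`
from which safe moves lead to `T₂`. -/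
theorem pathPair [Finite S] (G : Game S A B) (T₁ T₂ : Set S) : ∃ (x : S → A → ℝ) (y : S → B → ℝ),
    (∀ s, Mix (G.act₁ s) (x s)) ∧ (∀ s, Mix (G.act₂ s) (y s)) ∧
    (∀ s, s ∉ T₁ → ∀ a ∈ G.act₁ s, ∑ b ∈ G.act₂ s, y s b * G.L T₁ (G.δ s a b) ≤ G.L T₁ s) ∧
    ∀ s, G.L T₁ s = 0 → ∀ n, G.Sr T₁ T₂ n s → s ∈ T₂ ∨ ∃ k < n, ∀ a ∈ G.act₁ s, ∀ b ∈ G.act₂ s,
      0 < x s a → 0 < y s b → G.Sr T₁ T₂ k (G.δ s a b) ∧ G.L T₁ (G.δ s a b) = 0 := by
  classical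
  have hv : ∀ s, G.val₁ T₁ s = G.L T₁ s := fun s => val₁_eq s
  have hxy : ∀ s, ∃ x y, Mix (G.act₁ s) x ∧ Mix (G.act₂ s) y ∧
      (s ∉ T₁ → ∀ a ∈ G.act₁ s, ∑ b ∈ G.act₂ s, y b * G.L T₁ (G.δ s a b) ≤ G.L T₁ s) ∧
      (G.L T₁ s = 0 → ∀ n, G.Sr T₁ T₂ n s → s ∈ T₂ ∨ ∃ k < n, ∀ a ∈ G.act₁ s, ∀ b ∈ G.act₂ s,
        0 < x a → 0 < y b → G.Sr T₁ T₂ k (G.δ s a b) ∧ G.L T₁ (G.δ s a b) = 0) := by
    intro s
    by_cases hk : G.L T₁ s = 0 ∧ (∃ n, G.Sr T₁ T₂ n s) ∧ s ∉ T₂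
    · obtain ⟨h0, hn, hs2⟩ := hk
      have hs1 : s ∉ T₁ := fun h => by rw [L_mem h] at h0; norm_num at h0
      have hspec := Nat.find_spec hn
      cases hk : Nat.find hn with
      | zero => rw [hk] at hspec; exact absurd hspec hs2
      | succ k =>
        rw [hk] at hspec
        obtain ⟨a₀, ha₀, b₀, hb₀, hsafe, hsr⟩ := hspec
        refine ⟨fun a => if a = a₀ then 1 else 0, fun b => if b = b₀ then 1 else 0, mix_dirac ha₀,
          mix_dirac hb₀, fun _ a ha => ?_, fun _ n hn' => Or.inr ⟨k, ?_, fun a ha b hb hxa hyb => ?_⟩⟩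
        · simp only [ite_mul, one_mul, zero_mul]
          rw [Finset.sum_ite_eq' (G.act₂ s) b₀, if_pos hb₀, ← hv, hsafe a ha]
          exact L_nonneg _
        · have := Nat.find_min' hn hn'
          omega
        · have ea : a = a₀ := by
            by_contra hne
            simp only [if_neg hne, lt_irrefl] at hxa
          have eb : b = b₀ := by
            by_contra hne
            simp only [if_neg hne, lt_irrefl] at hyb
          subst ea eb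
          exact ⟨hsr, by rw [← hv]; exact hsafe a ha⟩
    · by_cases hs : s ∈ T₁
      · refine ⟨_, _, mix_unif (G.ne₁ s), mix_unif (G.ne₂ s), fun h => absurd hs h, fun h0 => ?_⟩
        rw [L_mem hs] at h0
        norm_num at h0
      · obtain ⟨y, hy⟩ := V_up (G.ne₁ s) (G.ne₂ s) fun a b => G.L T₁ (G.δ s a b)
        rw [L_fix hs] at hy
        refine ⟨_, y, mix_unif (G.ne₁ s), hy.1, fun _ => hy.2, fun h0 n hn => Or.inl ?_⟩
        by_contra hs2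
        exact hk ⟨h0, ⟨n, hn⟩, hs2⟩
  choose x y h1 h2 h3 h4 using hxy
  exact ⟨x, y, h1, h2, h3, h4⟩

end Game

end Pool.Agent.H95.NE
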