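import Pool.Graph.R_seed8.H249R2.PM.Farkas
import Pool.Agent.H95.NE.Defs

/-!
Matrix games with finite action sets `F` and `E`: value, optimal strategies, and a strictly
complementary pair of optimal strategies.
-/

set_option autoImplicit false

open Finset

namespace Pool.Agent.H95.NE

/-- The row player secures at least `c` by `x`. -/
def LoG {A B : Type*} (F : Finset A) (E : Finset B) (M : A → B → ℝ) (x : A → ℝ) (c : ℝ) : Prop :=
  Mix F x ∧ ∀ b ∈ E, c ≤ ∑ a ∈ F, x a * M a b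

/-- The column player secures at most `c` by `y`. -/
def UpG {A B : Type*} (F : Finset A) (E : Finset B) (M : A → B → ℝ) (y : B → ℝ) (c : ℝ) : Prop :=
  Mix E y ∧ ∀ a ∈ F, ∑ b ∈ E, y b * M a b ≤ c

theorem fk {A B : Type*} (F : Finset A) (E : Finset B) (M : A → B → ℝ) (f : A → ℝ)
    (h : ∀ x : A → ℝ, (∀ a ∈ F, 0 ≤ x a) → (∀ b ∈ E, 0 ≤ ∑ a ∈ F, x a * M a b) →
      0 ≤ ∑ a ∈ F, x a * f a) :
    ∃ u : B → ℝ, (∀ b, 0 ≤ u b) ∧ ∀ a ∈ F, ∑ b ∈ E, u b * M a b ≤ f a := by
  classical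
  let ℓ : F ⊕ E → ((A → ℝ) →ₗ[ℝ] ℝ) := Sum.elim
    (fun a => -(LinearMap.proj (a : A)))
    (fun b => -(∑ a ∈ F, (M a b) • (LinearMap.proj a : (A → ℝ) →ₗ[ℝ] ℝ)))
  let g : (A → ℝ) →ₗ[ℝ] ℝ := -(∑ a ∈ F, (f a) • (LinearMap.proj a : (A → ℝ) →ₗ[ℝ] ℝ))
  have hl1 : ∀ (a : F) (x : A → ℝ), ℓ (Sum.inl a) x = - x a := fun a x => rfl
  have hl2 : ∀ (b : E) (x : A → ℝ), ℓ (Sum.inr b) x = - ∑ a ∈ F, x a * M a b := by
    intro b x
    simp only [ℓ, Sum.elim_inr, LinearMap.neg_apply, LinearMap.sum_apply, LinearMap.smul_apply,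
      LinearMap.proj_apply, smul_eq_mul]
    congr 1
    exact Finset.sum_congr rfl fun a _ => mul_comm _ _
  have hg : ∀ x : A → ℝ, g x = - ∑ a ∈ F, x a * f a := by
    intro x
    simp only [g, LinearMap.neg_apply, LinearMap.sum_apply, LinearMap.smul_apply,
      LinearMap.proj_apply, smul_eq_mul]
    congr 1
    exact Finset.sum_congr rfl fun a _ => mul_comm _ _
  obtain ⟨w0, w, hw0, hw, hf⟩ := Pool.Agent.H249R2.PM.farkas_fin ℓ (fun _ => 0) g 0 0
    (fun i => by simp) (fun x hx => by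
      rw [hg]
      have h1 : ∀ a ∈ F, 0 ≤ x a := by
        intro a ha
        have := hx (Sum.inl ⟨a, ha⟩)
        rw [hl1] at this
        simpa using this
      have h2 : ∀ b ∈ E, 0 ≤ ∑ a ∈ F, x a * M a b := by
        intro b hb
        have := hx (Sum.inr ⟨b, hb⟩)
        rw [hl2] at this
        simpa using this
      have := h x h1 h2
      linarith)
  refine ⟨fun b => if hb : b ∈ E then w (Sum.inr ⟨b, hb⟩) else 0, fun b => ?_, fun a ha => ?_⟩
  · by_cases hb : b ∈ E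
    · simp only [hb, dif_pos]; exact hw _
    · simp [hb]
  · have h0 := hf 0
    have hzero : w0 = 0 := by simpa using h0.symm
    have h1 := hf (Pi.single a 1)
    rw [hg, hzero, Fintype.sum_sum_type] at h1
    simp only [hl1, hl2] at h1
    have e1 : ∑ a' ∈ F, (Pi.single a (1 : ℝ) : A → ℝ) a' * f a' = f a := by
      rw [Finset.sum_eq_single a]
      · simp
      · intro b _ hb; simp [hb]
      · intro h; exact absurd ha h
    have e2 : ∀ b, ∑ a' ∈ F, (Pi.single a (1 : ℝ) : A → ℝ) a' * M a' b = M a b := by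
      intro b
      rw [Finset.sum_eq_single a]
      · simp
      · intro b _ hb; simp [hb]
      · intro h; exact absurd ha h
    rw [e1] at h1
    simp only [e2] at h1
    have e3 : ∑ b ∈ E, (if hb : b ∈ E then w (Sum.inr ⟨b, hb⟩) else 0) * M a b =
        ∑ b : E, w (Sum.inr b) * (0 - - M a b) := by
      rw [← Finset.sum_coe_sort E]
      refine Finset.sum_congr rfl fun b _ => ?_
      simp [b.2]
    rw [e3]
    have h2 : 0 ≤ ∑ i : F, w (Sum.inl i) * (0 - -(Pi.single a (1 : ℝ) : A → ℝ) i) := by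
      refine Finset.sum_nonneg fun i _ => mul_nonneg (hw _) ?_
      by_cases h : (i : A) = a
      · simp [h]
      · simp [h]
    linarith

theorem sum_shift {A : Type*} (F : Finset A) {x : A → ℝ} (hx : ∑ a ∈ F, x a = 1) (m : A → ℝ)
    (c : ℝ) : ∑ a ∈ F, x a * (m a - c) = ∑ a ∈ F, x a * m a - c := by
  simp only [mul_sub, Finset.sum_sub_distrib, ← Finset.sum_mul, hx, one_mul]

theorem mix_div {A : Type*} (F : Finset A) {x : A → ℝ} (h0 : ∀ a ∈ F, 0 ≤ x a)
    (h : 0 < ∑ a ∈ F, x a) : Mix F fun a => x a / ∑ a' ∈ F, x a' :=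
  ⟨fun a ha => div_nonneg (h0 a ha) h.le, by rw [← Finset.sum_div, div_self h.ne']⟩

theorem sum_div_mul {A : Type*} (F : Finset A) (x m : A → ℝ) (k : ℝ) :
    ∑ a ∈ F, x a / k * m a = (∑ a ∈ F, x a * m a) / k := by
  rw [Finset.sum_div]
  exact Finset.sum_congr rfl fun a _ => by ring

theorem mix_unif {A : Type*} {F : Finset A} (hF : F.Nonempty) : Mix F fun _ => 1 / (F.card : ℝ) :=
  ⟨fun _ _ => by positivity, by
    rw [Finset.sum_const, nsmul_eq_mul, mul_one_div, div_self]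
    exact_mod_cast hF.card_ne_zero⟩

theorem alt1 {A B : Type*} {F : Finset A} (hF : F.Nonempty) (E : Finset B) (M : A → B → ℝ)
    (c : ℝ) : (∃ x, LoG F E M x c) ∨ ∃ y, ∃ c' < c, UpG F E M y c' := by
  by_cases h : ∃ x : A → ℝ, (∀ a ∈ F, 0 ≤ x a) ∧ (∀ b ∈ E, 0 ≤ ∑ a ∈ F, x a * (M a b - c)) ∧
      0 < ∑ a ∈ F, x a
  · obtain ⟨x, h1, h2, h3⟩ := h
    left
    have hm := mix_div F h1 h3
    refine ⟨_, hm, fun b hb => ?_⟩
    have h4 := sum_shift F hm.2 (fun a => M a b) c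
    rw [sum_div_mul] at h4
    have h5 := div_nonneg (h2 b hb) h3.le
    linarith
  · right
    push Not at h
    obtain ⟨u, hu, h1⟩ := fk F E (fun a b => M a b - c) (fun _ => -1) (by
      intro x hx hb
      have := h x hx hb
      simp only [mul_neg, mul_one, Finset.sum_neg_distrib]
      linarith)
    have hpos : 0 < ∑ b ∈ E, u b := by
      rcases (Finset.sum_nonneg fun b _ => hu b : 0 ≤ ∑ b ∈ E, u b).lt_or_eq with h2 | h2
      · exact h2
      · exfalso
        obtain ⟨a, ha⟩ := hF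
        have h3 := h1 a ha
        have h4 : ∀ b ∈ E, u b = 0 := (Finset.sum_eq_zero_iff_of_nonneg fun b _ => hu b).1 h2.symm
        rw [Finset.sum_eq_zero fun b hb => by rw [h4 b hb, zero_mul]] at h3
        linarith
    have hm := mix_div E (fun b _ => hu b) hpos
    refine ⟨_, c - 1 / ∑ b ∈ E, u b, by have := one_div_pos.2 hpos; linarith, hm, fun a ha => ?_⟩
    have h4 := sum_shift E hm.2 (fun b => M a b) c
    rw [sum_div_mul] at h4
    have h5 : (∑ b ∈ E, u b * (M a b - c)) / ∑ b ∈ E, u b ≤ (-1) / ∑ b ∈ E, u b :=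
      div_le_div_of_nonneg_right (h1 a ha) hpos.le
    rw [neg_div] at h5
    linarith

theorem loG_neg {A B : Type*} {F : Finset A} {E : Finset B} {M : A → B → ℝ} {x : A → ℝ} {c : ℝ} :
    LoG F E M x c ↔ UpG E F (fun b a => - M a b) x (-c) := by
  unfold LoG UpG
  refine and_congr_right fun _ => forall_congr' fun b => forall_congr' fun _ => ?_
  simp only [mul_neg, Finset.sum_neg_distrib, neg_le_neg_iff]

theorem upG_neg {A B : Type*} {F : Finset A} {E : Finset B} {M : A → B → ℝ} {y : B → ℝ} {c : ℝ} :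
    UpG F E M y c ↔ LoG E F (fun b a => - M a b) y (-c) := by
  unfold LoG UpG
  refine and_congr_right fun _ => forall_congr' fun b => forall_congr' fun _ => ?_
  simp only [mul_neg, Finset.sum_neg_distrib, neg_le_neg_iff]

theorem alt2 {A B : Type*} (F : Finset A) {E : Finset B} (hE : E.Nonempty) (M : A → B → ℝ)
    (c : ℝ) : (∃ y, UpG F E M y c) ∨ ∃ x, ∃ c' > c, LoG F E M x c' := by
  rcases alt1 hE F (fun b a => - M a b) (-c) with ⟨y, h⟩ | ⟨x, c', hc, h⟩
  · exact Or.inl ⟨y, upG_neg.2 h⟩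
  · refine Or.inr ⟨x, -c', by linarith, loG_neg.2 ?_⟩
    rwa [neg_neg]

theorem bil {A B : Type*} (F : Finset A) (E : Finset B) (M : A → B → ℝ) (x : A → ℝ) (y : B → ℝ) :
    ∑ a ∈ F, x a * ∑ b ∈ E, y b * M a b = ∑ b ∈ E, y b * ∑ a ∈ F, x a * M a b := by
  simp only [Finset.mul_sum]
  rw [Finset.sum_comm]
  exact Finset.sum_congr rfl fun b _ => Finset.sum_congr rfl fun a _ => by ring

theorem mix_le {A : Type*} {F : Finset A} {x : A → ℝ} (hx : Mix F x) {m : A → ℝ} {c : ℝ}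
    (h : ∀ a ∈ F, m a ≤ c) : ∑ a ∈ F, x a * m a ≤ c := by
  calc ∑ a ∈ F, x a * m a ≤ ∑ a ∈ F, x a * c :=
        Finset.sum_le_sum fun a ha => mul_le_mul_of_nonneg_left (h a ha) (hx.1 a ha)
    _ = c := by rw [← Finset.sum_mul, hx.2, one_mul]

theorem le_mix {A : Type*} {F : Finset A} {x : A → ℝ} (hx : Mix F x) {m : A → ℝ} {c : ℝ}
    (h : ∀ a ∈ F, c ≤ m a) : c ≤ ∑ a ∈ F, x a * m a := by
  calc c = ∑ a ∈ F, x a * c := by rw [← Finset.sum_mul, hx.2, one_mul]
    _ ≤ ∑ a ∈ F, x a * m a :=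
        Finset.sum_le_sum fun a ha => mul_le_mul_of_nonneg_left (h a ha) (hx.1 a ha)

theorem weak {A B : Type*} {F : Finset A} {E : Finset B} {M : A → B → ℝ} {x : A → ℝ} {y : B → ℝ}
    {c c' : ℝ} (hx : LoG F E M x c) (hy : UpG F E M y c') : c ≤ c' := by
  calc c ≤ ∑ b ∈ E, y b * ∑ a ∈ F, x a * M a b := le_mix hy.1 hx.2
    _ = ∑ a ∈ F, x a * ∑ b ∈ E, y b * M a b := (bil F E M x y).symm
    _ ≤ c' := mix_le hx.1 hy.2

/-- The minimax theorem. -/
theorem exists_value {A B : Type*} {F : Finset A} (hF : F.Nonempty) {E : Finset B}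
    (hE : E.Nonempty) (M : A → B → ℝ) : ∃ v, (∃ x, LoG F E M x v) ∧ ∃ y, UpG F E M y v := by
  set S : Set ℝ := {c | ∃ x, LoG F E M x c} with hS
  have hne : S.Nonempty := by
    rcases alt2 F hE M 0 with ⟨y, _⟩ | ⟨x, c', _, h⟩
    · refine ⟨- ∑ b ∈ E, |∑ a ∈ F, (1 / (F.card : ℝ)) * M a b|, _, mix_unif hF, fun b hb => ?_⟩
      have h1 := Finset.single_le_sum
        (f := fun b => |∑ a ∈ F, (1 / (F.card : ℝ)) * M a b|) (fun _ _ => abs_nonneg _) hb
      have h2 := neg_abs_le (∑ a ∈ F, (1 / (F.card : ℝ)) * M a b)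
      linarith
    · exact ⟨c', x, h⟩
  have hbd : BddAbove S := by
    refine ⟨∑ a ∈ F, |∑ b ∈ E, (1 / (E.card : ℝ)) * M a b|, ?_⟩
    rintro c ⟨x, hx⟩
    refine weak hx ⟨mix_unif hE, fun a ha => ?_⟩
    have h1 := Finset.single_le_sum
      (f := fun a => |∑ b ∈ E, (1 / (E.card : ℝ)) * M a b|) (fun _ _ => abs_nonneg _) ha
    exact (le_abs_self _).trans h1
  refine ⟨sSup S, ?_, ?_⟩
  · rcases alt1 hF E M (sSup S) with h | ⟨y, c', hc, h⟩
    · exact h
    · exfalso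
      have : sSup S ≤ c' := csSup_le hne fun c ⟨x, hx⟩ => weak hx h
      linarith
  · rcases alt2 F hE M (sSup S) with h | ⟨x, c', hc, h⟩
    · exact h
    · exfalso
      have : c' ≤ sSup S := le_csSup hbd ⟨x, h⟩
      linarith

open scoped Classical in
/-- The value of the matrix game. -/
noncomputable def V {A B : Type*} (F : Finset A) (E : Finset B) (M : A → B → ℝ) : ℝ :=
  if h : F.Nonempty ∧ E.Nonempty then (exists_value h.1 h.2 M).choose else 0

theorem V_lo {A B : Type*} {F : Finset A} (hF : F.Nonempty) {E : Finset B}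
    (hE : E.Nonempty) (M : A → B → ℝ) : ∃ x, LoG F E M x (V F E M) := by
  unfold V
  rw [dif_pos ⟨hF, hE⟩]
  exact (exists_value hF hE M).choose_spec.1

theorem V_up {A B : Type*} {F : Finset A} (hF : F.Nonempty) {E : Finset B}
    (hE : E.Nonempty) (M : A → B → ℝ) : ∃ y, UpG F E M y (V F E M) := by
  unfold V
  rw [dif_pos ⟨hF, hE⟩]
  exact (exists_value hF hE M).choose_spec.2

theorem strict1 {A B : Type*} [DecidableEq A] {F : Finset A} {E : Finset B} {M : A → B → ℝ} {v : ℝ}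
    {a₀ : A} (ha₀ : a₀ ∈ F) : (∃ x, LoG F E M x v ∧ 0 < x a₀) ∨
      ∃ y, UpG F E M y v ∧ ∑ b ∈ E, y b * M a₀ b < v := by
  by_cases h : ∃ y : B → ℝ, (∀ b ∈ E, 0 ≤ y b) ∧ (∀ a ∈ F, 0 ≤ ∑ b ∈ E, y b * (-(M a b - v))) ∧
      ∑ b ∈ E, y b * (M a₀ b - v) < 0
  · right
    obtain ⟨y, h1, h2, h3⟩ := h
    have hpos : 0 < ∑ b ∈ E, y b := by
      rcases (Finset.sum_nonneg fun b hb => h1 b hb : 0 ≤ ∑ b ∈ E, y b).lt_or_eq with h4 | h4
      · exact h4
      · exfalso
        have h5 : ∀ b ∈ E, y b = 0 := (Finset.sum_eq_zero_iff_of_nonneg fun b hb => h1 b hb).1 h4.symm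
        rw [Finset.sum_eq_zero fun b hb => by rw [h5 b hb, zero_mul]] at h3
        exact lt_irrefl _ h3
    have hm := mix_div E h1 hpos
    refine ⟨_, ⟨hm, fun a ha => ?_⟩, ?_⟩
    · have h4 := sum_shift E hm.2 (fun b => M a b) v
      rw [sum_div_mul] at h4
      have h5 := h2 a ha
      simp only [mul_neg, Finset.sum_neg_distrib] at h5
      have h6 : (∑ b ∈ E, y b * (M a b - v)) / ∑ b ∈ E, y b ≤ 0 :=
        div_nonpos_of_nonpos_of_nonneg (by linarith) hpos.le
      linarith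
    · have h4 := sum_shift E hm.2 (fun b => M a₀ b) v
      rw [sum_div_mul] at h4
      have h6 : (∑ b ∈ E, y b * (M a₀ b - v)) / ∑ b ∈ E, y b < 0 := div_neg_of_neg_of_pos h3 hpos
      linarith
  · left
    push Not at h
    obtain ⟨u, hu, h1⟩ := fk E F (fun b a => -(M a b - v)) (fun b => M a₀ b - v)
      (fun y hy hy' => h y hy hy')
    have hpos : 0 < ∑ a ∈ F, (u a + if a = a₀ then 1 else 0) := by
      rw [Finset.sum_add_distrib, Finset.sum_ite_eq' F a₀, if_pos ha₀]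
      have := Finset.sum_nonneg fun a (_ : a ∈ F) => hu a
      linarith
    have hm := mix_div F (x := fun a => u a + if a = a₀ then 1 else 0) (fun a _ => by
      have := hu a
      split_ifs <;> simp <;> linarith) hpos
    refine ⟨_, ⟨hm, fun b hb => ?_⟩, ?_⟩
    · have h4 := sum_shift F hm.2 (fun a => M a b) v
      rw [sum_div_mul] at h4
      have h5 := h1 b hb
      simp only [mul_neg, Finset.sum_neg_distrib] at h5
      have h6 : ∑ a ∈ F, (u a + if a = a₀ then 1 else 0) * (M a b - v) =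
          ∑ a ∈ F, u a * (M a b - v) + (M a₀ b - v) := by
        simp only [add_mul, Finset.sum_add_distrib, ite_mul, one_mul, zero_mul,
          Finset.sum_ite_eq' F a₀, if_pos ha₀]
      have h7 : 0 ≤ (∑ a ∈ F, (u a + if a = a₀ then 1 else 0) * (M a b - v)) /
          ∑ a ∈ F, (u a + if a = a₀ then 1 else 0) := div_nonneg (by rw [h6]; linarith) hpos.le
      linarith
    · have := hu a₀
      simp only [if_true]
      exact div_pos (by linarith) hpos

/-- A strictly complementary pair of optimal strategies. -/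
theorem strictPair {A B : Type*} {F : Finset A} (hF : F.Nonempty) {E : Finset B}
    (hE : E.Nonempty) (M : A → B → ℝ) : ∃ x y, LoG F E M x (V F E M) ∧ UpG F E M y (V F E M) ∧
      ∀ a ∈ F, 0 < x a ∨ ∑ b ∈ E, y b * M a b < V F E M := by
  classical
  obtain ⟨x₀, hx₀⟩ := V_lo hF hE M
  obtain ⟨y₀, hy₀⟩ := V_up hF hE M
  have h : ∀ a : A, ∃ x y, LoG F E M x (V F E M) ∧ UpG F E M y (V F E M) ∧
      (a ∈ F → 0 < x a ∨ ∑ b ∈ E, y b * M a b < V F E M) := by
    intro a
    by_cases ha : a ∈ F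
    · rcases strict1 (E := E) (M := M) (v := V F E M) ha with ⟨x, hx, h⟩ | ⟨y, hy, h⟩
      · exact ⟨x, y₀, hx, hy₀, fun _ => Or.inl h⟩
      · exact ⟨x₀, y, hx₀, hy, fun _ => Or.inr h⟩
    · exact ⟨x₀, y₀, hx₀, hy₀, fun h => absurd h ha⟩
  choose X Y hX hY hXY using h
  have hc : 0 < (F.card : ℝ) := by exact_mod_cast hF.card_pos
  have hU := mix_unif hF
  have key1 : ∀ m : A → ℝ, ∑ a ∈ F, (∑ a' ∈ F, 1 / (F.card : ℝ) * X a' a) * m a =
      ∑ a' ∈ F, 1 / (F.card : ℝ) * ∑ a ∈ F, X a' a * m a := by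
    intro m
    simp only [Finset.sum_mul, Finset.mul_sum]
    rw [Finset.sum_comm]
    exact Finset.sum_congr rfl fun b _ => Finset.sum_congr rfl fun a _ => by ring
  have key2 : ∀ m : B → ℝ, ∑ b ∈ E, (∑ a' ∈ F, 1 / (F.card : ℝ) * Y a' b) * m b =
      ∑ a' ∈ F, 1 / (F.card : ℝ) * ∑ b ∈ E, Y a' b * m b := by
    intro m
    simp only [Finset.sum_mul, Finset.mul_sum]
    rw [Finset.sum_comm]
    exact Finset.sum_congr rfl fun b _ => Finset.sum_congr rfl fun a _ => by ring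
  refine ⟨fun a => ∑ a' ∈ F, 1 / (F.card : ℝ) * X a' a, fun b => ∑ a' ∈ F, 1 / (F.card : ℝ) * Y a' b,
    ⟨⟨fun a ha => Finset.sum_nonneg fun a' _ => mul_nonneg (by positivity) ((hX a').1.1 a ha), ?_⟩,
      fun b hb => ?_⟩, ⟨⟨fun b hb => Finset.sum_nonneg fun a' _ =>
        mul_nonneg (by positivity) ((hY a').1.1 b hb), ?_⟩, fun a ha => ?_⟩, fun a ha => ?_⟩
  · have := key1 fun _ => 1
    simp only [mul_one] at this
    rw [this]
    rw [Finset.sum_congr rfl fun a' _ => by rw [(hX a').1.2, mul_one]]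
    exact hU.2
  · rw [key1 fun a => M a b]
    exact le_mix hU fun a' _ => (hX a').2 b hb
  · have := key2 fun _ => 1
    simp only [mul_one] at this
    rw [this]
    rw [Finset.sum_congr rfl fun a' _ => by rw [(hY a').1.2, mul_one]]
    exact hU.2
  · rw [key2 fun b => M a b]
    exact mix_le hU fun a' _ => (hY a').2 a ha
  · rcases hXY a ha with h | h
    · left
      exact Finset.sum_pos' (fun a' _ => mul_nonneg (by positivity) ((hX a').1.1 a ha))
        ⟨a, ha, by positivity⟩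
    · right
      rw [key2 fun b => M a b]
      calc ∑ a' ∈ F, 1 / (F.card : ℝ) * ∑ b ∈ E, Y a' b * M a b
          < ∑ a' ∈ F, 1 / (F.card : ℝ) * V F E M :=
            Finset.sum_lt_sum (fun a' _ => mul_le_mul_of_nonneg_left ((hY a').2 a ha)
              (by positivity)) ⟨a, ha, mul_lt_mul_of_pos_left h (by positivity)⟩
        _ = V F E M := by rw [← Finset.sum_mul, hU.2, one_mul]

theorem V_mono {A B : Type*} {F : Finset A} (hF : F.Nonempty) {E : Finset B}
    (hE : E.Nonempty) {M N : A → B → ℝ} (h : ∀ a ∈ F, ∀ b ∈ E, M a b ≤ N a b) :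
    V F E M ≤ V F E N := by
  obtain ⟨x, hx⟩ := V_lo hF hE M
  obtain ⟨y, hy⟩ := V_up hF hE N
  refine weak (M := N) ⟨hx.1, fun b hb => (hx.2 b hb).trans ?_⟩ hy
  exact Finset.sum_le_sum fun a ha => mul_le_mul_of_nonneg_left (h a ha b hb) (hx.1.1 a ha)

theorem V_le {A B : Type*} {F : Finset A} (hF : F.Nonempty) {E : Finset B}
    (hE : E.Nonempty) {M : A → B → ℝ} {y : B → ℝ} {c : ℝ} (h : UpG F E M y c) : V F E M ≤ c := by
  obtain ⟨x, hx⟩ := V_lo hF hE M
  exact weak hx h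

theorem le_V {A B : Type*} {F : Finset A} (hF : F.Nonempty) {E : Finset B}
    (hE : E.Nonempty) {M : A → B → ℝ} {x : A → ℝ} {c : ℝ} (h : LoG F E M x c) : c ≤ V F E M := by
  obtain ⟨y, hy⟩ := V_up hF hE M
  exact weak h hy

end Pool.Agent.H95.NE
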