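import Pool.Agent.H95.NE.PhaseC

/-!
The three kinds of positional play in the decided states.
-/

set_option autoImplicit false

open Finset Relation

namespace Pool.Agent.H95.NE

namespace Game

variable {S A B : Type*} {G : Game S A B} {T₁ T₂ : Set S} {s₀ : S}

/-- Positional play at the value of player 1. -/
theorem corePair [Finite S] (G : Game S A B) (T₁ T₂ : Set S) :
    ∃ (x : S → A → ℝ) (y : S → B → ℝ),
    (∀ s, Mix (G.act₁ s) (x s)) ∧ (∀ s, Mix (G.act₂ s) (y s)) ∧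
    (∀ s, s ∉ T₁ → ∀ b ∈ G.act₂ s, G.L T₁ s ≤ ∑ a ∈ G.act₁ s, x s a * G.L T₁ (G.δ s a b)) ∧
    (∀ s, s ∉ T₁ → ∀ a ∈ G.act₁ s, ∑ b ∈ G.act₂ s, y s b * G.L T₁ (G.δ s a b) ≤ G.L T₁ s) ∧
    (∀ s, G.NoStuck T₁ T₂ s → s ∉ T₁ ∪ T₂ → ∀ s', G.PStep x y s s' → G.NoStuck T₁ T₂ s') ∧
    ∀ s, G.NoStuck T₁ T₂ s → ∃ t ∈ T₁ ∪ T₂, ReflTransGen (G.PStep x y) s t := by
  classical
  have hv : ∀ s, G.val₁ T₁ s = G.L T₁ s := fun s => val₁_eq s
  -- the strategies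
  have hxy : ∀ s, ∃ x y, Mix (G.act₁ s) x ∧ Mix (G.act₂ s) y ∧ (s ∉ T₁ →
      LoG (G.act₁ s) (G.act₂ s) (fun a b => G.L T₁ (G.δ s a b)) x (G.L T₁ s) ∧
      UpG (G.act₁ s) (G.act₂ s) (fun a b => G.L T₁ (G.δ s a b)) y (G.L T₁ s) ∧
      (0 < G.L T₁ s → ∀ a ∈ G.act₁ s, 0 < x a ∨
        ∑ b ∈ G.act₂ s, y b * G.L T₁ (G.δ s a b) < G.L T₁ s) ∧
      ∀ k, G.L T₁ s = 0 → G.Sr T₁ T₂ (k + 1) s → (∀ j ≤ k, ¬ G.Sr T₁ T₂ j s) →
        ∀ a ∈ G.act₁ s, ∀ b ∈ G.act₂ s, 0 < x a → 0 < y b →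
          G.Sr T₁ T₂ k (G.δ s a b) ∧ G.L T₁ (G.δ s a b) = 0) := by
    intro s
    by_cases hs : s ∈ T₁
    · exact ⟨_, _, mix_unif (G.ne₁ s), mix_unif (G.ne₂ s), fun h => absurd hs h⟩
    rcases (L_nonneg (G := G) (T := T₁) s).lt_or_eq with hpos | h0
    · obtain ⟨x, y, hx, hy, h⟩ := strictPair (G.ne₁ s) (G.ne₂ s) fun a b => G.L T₁ (G.δ s a b)
      rw [L_fix hs] at hx hy
      simp only [L_fix hs] at h
      exact ⟨x, y, hx.1, hy.1, fun _ => ⟨hx, hy, fun _ => h, fun k h1 => absurd h1 hpos.ne'⟩⟩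
    · by_cases hk : ∃ k, G.Sr T₁ T₂ (k + 1) s ∧ ∀ j ≤ k, ¬ G.Sr T₁ T₂ j s
      · obtain ⟨k, ⟨a₀, ha₀, b₀, hb₀, hsafe, hsr⟩, hmin⟩ := hk
        refine ⟨fun a => if a = a₀ then 1 else 0, fun b => if b = b₀ then 1 else 0, mix_dirac ha₀,
          mix_dirac hb₀, fun _ => ⟨⟨mix_dirac ha₀, fun b hb => ?_⟩, ⟨mix_dirac hb₀, fun a ha => ?_⟩,
            fun h => absurd h0 h.ne, fun k' _ h1 h2 a ha b hb hxa hyb => ?_⟩⟩
        · rw [← h0]
          exact le_mix (mix_dirac ha₀) fun a _ => L_nonneg _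
        · simp only [ite_mul, one_mul, zero_mul]
          rw [Finset.sum_ite_eq' (G.act₂ s) b₀, if_pos hb₀, ← hv, hsafe a ha]
          exact L_nonneg _
        · have e : k' = k := by
            rcases lt_trichotomy k' k with h | h | h
            · exact absurd h1 (hmin _ h)
            · exact h
            · exact absurd ⟨a₀, ha₀, b₀, hb₀, hsafe, hsr⟩ (h2 (k + 1) h)
          subst e
          have ea : a = a₀ := by
            by_contra hne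
            simp only [if_neg hne, lt_irrefl] at hxa
          have eb : b = b₀ := by
            by_contra hne
            simp only [if_neg hne, lt_irrefl] at hyb
          subst ea eb
          exact ⟨hsr, by rw [← hv]; exact hsafe a ha⟩
      · obtain ⟨x, hx⟩ := V_lo (G.ne₁ s) (G.ne₂ s) fun a b => G.L T₁ (G.δ s a b)
        obtain ⟨y, hy⟩ := V_up (G.ne₁ s) (G.ne₂ s) fun a b => G.L T₁ (G.δ s a b)
        rw [L_fix hs] at hx hy
        exact ⟨x, y, hx.1, hy.1, fun _ => ⟨hx, hy, fun h => absurd h0 h.ne,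
          fun k _ h1 h2 => absurd ⟨k, h1, h2⟩ hk⟩⟩
  choose x y hx hy hxy using hxy
  -- the states
  set X : Set S := {s | G.NoStuck T₁ T₂ s} with hXdef
  have hzero : ∀ s ∈ X, G.L T₁ s = 0 → ∃ n, G.Sr T₁ T₂ n s := by
    intro s hs h0
    have h1 : ¬ G.Stuck T₁ T₂ s := hs s ReflTransGen.refl
    unfold Stuck at h1
    push Not at h1
    obtain ⟨t, ht, h2⟩ := h1 (by rw [hv]; exact h0)
    exact sr_of_reach h2 ht
  have hT1L : ∀ s, G.L T₁ s = 0 → s ∉ T₁ := by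
    intro s h0 hs
    rw [L_mem hs] at h0
    norm_num at h0
  have hX : ∀ s ∈ X, s ∉ T₁ ∪ T₂ → ∀ s', G.PStep x y s s' → s' ∈ X := by
    rintro s hs hsT s' ⟨a, ha, b, hb, hxa, hyb, rfl⟩
    have hs1 : s ∉ T₁ := fun h => hsT (Or.inl h)
    have hs2 : s ∉ T₂ := fun h => hsT (Or.inr h)
    obtain ⟨h1, h2, h3, h4⟩ := hxy s hs1
    rcases (L_nonneg (G := G) (T := T₁) s).lt_or_eq with hpos | h0
    · refine fun s'' h'' => hs s'' (ReflTransGen.head ⟨hs1, hs2, by rw [hv]; exact hpos, a, ha,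
        b, hb, ⟨x s, ⟨hx s, ?_⟩, hxa⟩, ⟨y s, ⟨hy s, ?_⟩, hyb⟩, rfl⟩ h'')
      · simp only [hv]; exact h1.2
      · simp only [hv]; exact h2.2
    · have hn := hzero s hs h0.symm
      have hspec := Nat.find_spec hn
      have hmin : ∀ j < Nat.find hn, ¬ G.Sr T₁ T₂ j s := fun j hj => Nat.find_min hn hj
      cases hk : Nat.find hn with
      | zero =>
        rw [hk] at hspec
        exact absurd hspec hs2
      | succ k =>
        rw [hk] at hspec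
        obtain ⟨h5, h6⟩ := h4 k h0.symm hspec (fun j hj => hmin j (by omega)) a ha b hb hxa hyb
        intro s'' h'' hst
        rcases ReflTransGen.cases_head h'' with rfl | ⟨s₄, h8, _⟩
        · obtain ⟨t, ht, h7⟩ := reach_of_sr k _ h5
          exact hst.2 t ht h7
        · have h9 := h8.2.2.1
          rw [hv, h6] at h9
          exact lt_irrefl _ h9
  have hz : ∀ n, ∀ s, G.L T₁ s = 0 → G.Sr T₁ T₂ n s →
      ∃ t ∈ T₁ ∪ T₂, ReflTransGen (G.PStep x y) s t := by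
    intro n
    induction n using Nat.strong_induction_on with
    | _ n ih =>
      intro s h0 hsr
      have hn : ∃ n, G.Sr T₁ T₂ n s := ⟨n, hsr⟩
      have hspec := Nat.find_spec hn
      have hmin : ∀ j < Nat.find hn, ¬ G.Sr T₁ T₂ j s := fun j hj => Nat.find_min hn hj
      have hle : Nat.find hn ≤ n := Nat.find_min' hn hsr
      cases hk : Nat.find hn with
      | zero =>
        rw [hk] at hspec
        exact ⟨s, Or.inr hspec, ReflTransGen.refl⟩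
      | succ k =>
        rw [hk] at hspec
        obtain ⟨a, ha, hxa⟩ := (hx s).exists_pos
        obtain ⟨b, hb, hyb⟩ := (hy s).exists_pos
        obtain ⟨_, _, _, h4⟩ := hxy s (hT1L s h0)
        obtain ⟨h5, h6⟩ := h4 k h0 hspec (fun j hj => hmin j (by omega)) a ha b hb hxa hyb
        obtain ⟨t, ht, h7⟩ := ih k (by omega) _ h6 h5
        exact ⟨t, ht, ReflTransGen.head ⟨a, ha, b, hb, hxa, hyb, rfl⟩ h7⟩
  -- absorption
  have hreach : ∀ s ∈ X, ∃ t ∈ T₁ ∪ T₂, ReflTransGen (G.PStep x y) s t := by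
    by_contra hcon
    push Not at hcon
    set D : Set S := {s | s ∈ X ∧ ∀ t ∈ T₁ ∪ T₂, ¬ ReflTransGen (G.PStep x y) s t} with hD
    obtain ⟨s₂, hs₂⟩ := hcon
    obtain ⟨s₁, hs₁, hmax⟩ := Set.exists_max_image D (G.L T₁) (Set.toFinite D) ⟨s₂, hs₂⟩
    have hDT : ∀ s ∈ D, s ∉ T₁ ∪ T₂ := fun s hs h => hs.2 s h ReflTransGen.refl
    have hDc : ∀ s ∈ D, ∀ s', G.PStep x y s s' → s' ∈ D := fun s hs s' h =>
      ⟨hX s hs.1 (hDT s hs) s' h, fun t ht h' => hs.2 t ht (ReflTransGen.head h h')⟩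
    have hM : 0 < G.L T₁ s₁ := by
      rcases (L_nonneg (G := G) (T := T₁) s₁).lt_or_eq with h | h
      · exact h
      · obtain ⟨n, hn⟩ := hzero s₁ hs₁.1 h.symm
        obtain ⟨t, ht, h'⟩ := hz n s₁ h.symm hn
        exact absurd h' (hs₁.2 t ht)
    set M := G.L T₁ s₁ with hMdef
    have hKc : ∀ s ∈ D, G.L T₁ s = M → ∀ a ∈ G.act₁ s, ∀ b ∈ G.act₂ s, 0 < x s a → 0 < y s b →
        G.δ s a b ∈ D ∧ G.L T₁ (G.δ s a b) = M := by
      intro s hs hsM a ha b hb hxa hyb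
      refine ⟨hDc s hs _ ⟨a, ha, b, hb, hxa, hyb, rfl⟩, ?_⟩
      refine dsum_eq (hx s) (hy s) (f := fun a b => G.L T₁ (G.δ s a b)) (c := M)
        (fun a ha b hb h1 h2 => hmax _ (hDc s hs _ ⟨a, ha, b, hb, h1, h2, rfl⟩)) ?_ ha hb hxa hyb
      rw [dsum', ← hsM]
      exact le_mix (hy s) (hxy s fun h => hDT s hs (Or.inl h)).1.2
    have hgap : ∀ s, ∃ η > 0, s ∈ D → G.L T₁ s = M → ∀ a ∈ G.act₁ s, ¬ 0 < x s a →
        ∑ b ∈ G.act₂ s, y s b * G.L T₁ (G.δ s a b) ≤ M - η := by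
      intro s
      by_cases hs : s ∈ D ∧ G.L T₁ s = M
      · have hs1 : s ∉ T₁ := fun h => hDT s hs.1 (Or.inl h)
        obtain ⟨η, h1, h2⟩ := exists_gap (G.act₁ s) (fun a => ¬ 0 < x s a)
          (fun a => ∑ b ∈ G.act₂ s, y s b * G.L T₁ (G.δ s a b)) M (fun a ha h => by
            have := (hxy s hs1).2.2.1 (by rw [hs.2]; exact hM) a ha
            rw [hs.2] at this
            exact this.resolve_left h)
        exact ⟨η, h1, fun _ _ => h2⟩
      · exact ⟨1, one_pos, fun h1 h2 => absurd ⟨h1, h2⟩ hs⟩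
    choose η hη1 hη2 using hgap
    have : Nonempty S := ⟨s₁⟩
    obtain ⟨s₃, hs₃⟩ := Finite.exists_min η
    set e := min (η s₃) M with he
    have he0 : 0 < e := lt_min (hη1 s₃) hM
    have heM : e ≤ M := min_le_right _ _
    have heη : ∀ s, e ≤ η s := fun s => (min_le_left _ _).trans (hs₃ s)
    have hfle : ∀ s, (if s ∈ D ∧ G.L T₁ s = M then G.L T₁ s - e else G.L T₁ s) ≤ G.L T₁ s := by
      intro s
      split_ifs <;> linarith
    have hle := L_least (G := G) (T := T₁)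
      (f := fun s => if s ∈ D ∧ G.L T₁ s = M then G.L T₁ s - e else G.L T₁ s) (fun s => by
        split_ifs with h
        · rw [h.2]; linarith
        · exact L_nonneg s) (fun s hs => by
        rw [if_neg fun h => hDT s h.1 (Or.inl hs), L_mem hs]) (fun s hs => by
        obtain ⟨h1, h2, h3, h4⟩ := hxy s hs
        refine ⟨y s, hy s, fun a ha => ?_⟩
        by_cases hK : s ∈ D ∧ G.L T₁ s = M
        · simp only [if_pos hK]
          by_cases hxa : 0 < x s a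
          · have h5 : ∀ b ∈ G.act₂ s, y s b * (if G.δ s a b ∈ D ∧ G.L T₁ (G.δ s a b) = M then
                G.L T₁ (G.δ s a b) - e else G.L T₁ (G.δ s a b)) = y s b * (M - e) := by
              intro b hb
              rcases ((hy s).1 b hb).lt_or_eq with hyb | hyb
              · have h6 := hKc s hK.1 hK.2 a ha b hb hxa hyb
                rw [if_pos h6, h6.2]
              · rw [← hyb]; simp
            rw [Finset.sum_congr rfl h5, ← Finset.sum_mul, (hy s).2, one_mul, hK.2]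
          · have h5 := hη2 s hK.1 hK.2 a ha hxa
            have h6 : ∑ b ∈ G.act₂ s, y s b * (if G.δ s a b ∈ D ∧ G.L T₁ (G.δ s a b) = M then
                G.L T₁ (G.δ s a b) - e else G.L T₁ (G.δ s a b)) ≤
                ∑ b ∈ G.act₂ s, y s b * G.L T₁ (G.δ s a b) :=
              Finset.sum_le_sum fun b hb => mul_le_mul_of_nonneg_left (hfle _) ((hy s).1 b hb)
            have := heη s
            rw [hK.2]
            linarith
        · simp only [if_neg hK]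
          exact (Finset.sum_le_sum fun b hb => mul_le_mul_of_nonneg_left (hfle _)
            ((hy s).1 b hb)).trans (h2.2 a ha)) s₁
    simp only [if_pos (show s₁ ∈ D ∧ G.L T₁ s₁ = M from ⟨hs₁, rfl⟩)] at hle
    linarith
  exact ⟨x, y, hx, hy, fun s hs => (hxy s hs).1.2, fun s hs => (hxy s hs).2.1.2, hX, hreach⟩

/-- Positional play where the values of the players add up to `1`. -/
theorem zPair [Finite S] (G : Game S A B) (T₁ T₂ : Set S) (s₀ : S)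
    (hnb : ¬ G.VisitsBoth T₁ T₂ s₀) :
    (∀ s, ReflTransGen G.Step s₀ s → G.L T₁ s ≤ 1 - G.swap.L T₂ s) ∧
    ∃ (x : S → A → ℝ) (y : S → B → ℝ),
    (∀ s, Mix (G.act₁ s) (x s)) ∧ (∀ s, Mix (G.act₂ s) (y s)) ∧
    (∀ s, s ∉ T₁ → ∀ a ∈ G.act₁ s, ∑ b ∈ G.act₂ s, y s b * G.L T₁ (G.δ s a b) ≤ G.L T₁ s) ∧
    (∀ s, s ∉ T₂ → ∀ b ∈ G.act₂ s,
      ∑ a ∈ G.act₁ s, x s a * G.swap.L T₂ (G.δ s a b) ≤ G.swap.L T₂ s) ∧
    (∀ s, ReflTransGen G.Step s₀ s → G.L T₁ s = 1 - G.swap.L T₂ s → s ∉ T₁ ∪ T₂ →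
      ∀ s', G.PStep x y s s' → G.L T₁ s' = 1 - G.swap.L T₂ s') ∧
    ∀ s, ReflTransGen G.Step s₀ s → G.L T₁ s = 1 - G.swap.L T₂ s →
      ∃ t ∈ T₁ ∪ T₂, ReflTransGen (G.PStep x y) s t := by
  classical
  set H : Set S := {s | ReflTransGen G.Step s₀ s} with hHdef
  have e2 : ∀ s t, ReflTransGen G.swap.Step s t → ReflTransGen G.Step s t :=
    fun s t h => ReflTransGen.mono (fun _ _ ⟨b, hb, a, ha, h⟩ => ⟨a, ha, b, hb, h⟩) _ _ h
  have hT1 : ∀ s ∈ H, s ∈ T₁ → G.swap.L T₂ s = 0 := fun s hs h => L_unreach fun t ht ht2 =>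
      hnb ⟨s, t, hs, e2 _ _ ht, Or.inl ⟨h, ht2⟩⟩
  have hT2 : ∀ s ∈ H, s ∈ T₂ → G.L T₁ s = 0 := fun s hs h => L_unreach fun t ht ht2 =>
      hnb ⟨s, t, hs, ht, Or.inr ⟨h, ht2⟩⟩
  have hH : ∀ s ∈ H, ∀ a ∈ G.act₁ s, ∀ b ∈ G.act₂ s, G.δ s a b ∈ H :=
    fun s hs a ha b hb => ReflTransGen.tail hs ⟨a, ha, b, hb, rfl⟩
  have hVN : ∀ s, s ∉ T₂ → V (G.act₁ s) (G.act₂ s) (fun a b => 1 - G.swap.L T₂ (G.δ s a b)) =
      1 - G.swap.L T₂ s := by
    intro s h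
    have h1 := V_compl (G.ne₂ s) (G.ne₁ s) fun b a => G.swap.L T₂ (G.δ s a b)
    have h2 := L_fix (G := G.swap) (T := T₂) (s := s) h
    rw [h1]
    rw [← h2]
    rfl
  have hle : ∀ s ∈ H, G.L T₁ s ≤ 1 - G.swap.L T₂ s := dom (W₁ := T₁) (W₂ := T₂)
    (fun s hs _ _ => hH s hs)
    (fun s _ => by have := L_le_one (G := G.swap) (T := T₂) s; linarith)
    (fun s hs h => by rw [hT1 s hs h]; norm_num) hT2 (fun _ _ h => h)
    (fun s _ _ h2 => (hVN s h2).le)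
  set Z : Set S := {s | s ∈ H ∧ G.L T₁ s = 1 - G.swap.L T₂ s} with hZ
  obtain ⟨_, py, _, hpy, hcap1, _⟩ := pathPair G T₁ T₂
  obtain ⟨_, qx, _, hqx, hcap2, _⟩ := pathPair G.swap T₂ T₁
  have hxy : ∀ s, ∃ x y, Mix (G.act₁ s) x ∧ Mix (G.act₂ s) y ∧
      (s ∉ T₁ → ∀ a ∈ G.act₁ s, ∑ b ∈ G.act₂ s, y b * G.L T₁ (G.δ s a b) ≤ G.L T₁ s) ∧
      (s ∉ T₂ → ∀ b ∈ G.act₂ s,
        ∑ a ∈ G.act₁ s, x a * G.swap.L T₂ (G.δ s a b) ≤ G.swap.L T₂ s) ∧
      (s ∈ Z → s ∉ T₁ → s ∉ T₂ → (∀ a ∈ G.act₁ s, ∀ b ∈ G.act₂ s, 0 < x a → 0 < y b →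
        G.δ s a b ∈ Z) ∧
        (0 < G.L T₁ s → ∀ a ∈ G.act₁ s, 0 < x a ∨
          ∑ b ∈ G.act₂ s, y b * G.L T₁ (G.δ s a b) < G.L T₁ s) ∧
        (G.L T₁ s = 0 → ∀ b ∈ G.act₂ s, 0 < y b ∨
          ∑ a ∈ G.act₁ s, x a * G.swap.L T₂ (G.δ s a b) < G.swap.L T₂ s)) := by
    intro s
    by_cases hZs : s ∈ Z ∧ s ∉ T₁ ∧ s ∉ T₂
    swap
    · exact ⟨qx s, py s, hqx s, hpy s, fun h => hcap1 s h, fun h => hcap2 s h,
        fun h1 h2 h3 => absurd ⟨h1, h2, h3⟩ hZs⟩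
    obtain ⟨hZs, h1, h2⟩ := hZs
    have hPN : ∀ a ∈ G.act₁ s, ∀ b ∈ G.act₂ s,
        G.L T₁ (G.δ s a b) ≤ 1 - G.swap.L T₂ (G.δ s a b) := fun a ha b hb =>
      hle _ (hH s hZs.1 a ha b hb)
    obtain ⟨xP, hxP⟩ := V_lo (G.ne₁ s) (G.ne₂ s) fun a b => G.L T₁ (G.δ s a b)
    obtain ⟨yP, hyP⟩ := V_up (G.ne₁ s) (G.ne₂ s) fun a b => G.L T₁ (G.δ s a b)
    rw [L_fix h1] at hxP hyP
    obtain ⟨xN, hxN⟩ := V_lo (G.ne₁ s) (G.ne₂ s) fun a b => 1 - G.swap.L T₂ (G.δ s a b)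
    obtain ⟨yN, hyN⟩ := V_up (G.ne₁ s) (G.ne₂ s) fun a b => 1 - G.swap.L T₂ (G.δ s a b)
    rw [hVN s h2, ← hZs.2] at hxN hyN
    have hcapN : ∀ x : A → ℝ, LoG (G.act₁ s) (G.act₂ s)
        (fun a b => 1 - G.swap.L T₂ (G.δ s a b)) x (G.L T₁ s) → ∀ b ∈ G.act₂ s,
        ∑ a ∈ G.act₁ s, x a * G.swap.L T₂ (G.δ s a b) ≤ G.swap.L T₂ s := by
      intro x hx b hb
      have h3 := hx.2 b hb
      simp only [mul_sub, mul_one, Finset.sum_sub_distrib, hx.1.2] at h3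
      have := hZs.2
      linarith
    by_cases hpos : 0 < G.L T₁ s
    · obtain ⟨x, y, h3, h4, h5, h6⟩ := quasi hPN ⟨xP, hxP⟩ ⟨yN, hyN⟩
      exact ⟨x, y, h3.1, h4.1, fun _ => h4.2, fun _ => hcapN x h3, fun _ _ _ =>
        ⟨fun a ha b hb hxa hyb => ⟨hH s hZs.1 a ha b hb, h5 a ha b hb hxa hyb⟩,
          fun _ => h6, fun h => absurd h hpos.ne'⟩⟩
    · have h0 : G.L T₁ s = 0 := le_antisymm (not_lt.1 hpos) (L_nonneg s)
      obtain ⟨y, x, h3, h4, h5, h6⟩ := quasi (F := G.act₂ s) (E := G.act₁ s)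
        (P := fun b a => - (1 - G.swap.L T₂ (G.δ s a b))) (N := fun b a => - G.L T₁ (G.δ s a b))
        (v := - G.L T₁ s) (fun b hb a ha => neg_le_neg (hPN a ha b hb))
        ⟨yN, upG_neg.1 hyN⟩ ⟨xP, loG_neg.1 hxP⟩
      have h3' := upG_neg.2 h3
      have h4' := loG_neg.2 h4
      refine ⟨x, y, h4'.1, h3'.1, fun _ => h3'.2, fun _ => hcapN x h4', fun _ _ _ =>
        ⟨fun a ha b hb hxa hyb => ⟨hH s hZs.1 a ha b hb,
          (neg_injective (h5 b hb a ha hyb hxa)).symm⟩,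
          fun h => absurd h hpos, fun _ b hb => (h6 b hb).imp id fun h => ?_⟩⟩
      simp only [mul_neg, mul_sub, mul_one, Finset.sum_sub_distrib, Finset.sum_neg_distrib,
        h4'.1.2] at h
      have := hZs.2
      linarith
  choose x y hx hy hc1 hc2 hxy using hxy
  have hreach : ∀ s ∈ Z, ∃ t ∈ T₁ ∪ T₂, ReflTransGen (G.PStep x y) s t := by
    by_contra hcon
    push Not at hcon
    set D : Set S := {s | s ∈ Z ∧ ∀ t ∈ T₁ ∪ T₂, ¬ ReflTransGen (G.PStep x y) s t} with hD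
    obtain ⟨s₂, hs₂⟩ := hcon
    obtain ⟨s₁, hs₁, hmax⟩ := Set.exists_max_image D (G.L T₁) (Set.toFinite D) ⟨s₂, hs₂⟩
    have hD1 : ∀ s ∈ D, s ∉ T₁ := fun s hs h => hs.2 s (Or.inl h) ReflTransGen.refl
    have hD2 : ∀ s ∈ D, s ∉ T₂ := fun s hs h => hs.2 s (Or.inr h) ReflTransGen.refl
    have hDc : ∀ s ∈ D, ∀ a ∈ G.act₁ s, ∀ b ∈ G.act₂ s, 0 < x s a → 0 < y s b →
        G.δ s a b ∈ D := fun s hs a ha b hb hxa hyb =>
      ⟨(hxy s hs.1 (hD1 s hs) (hD2 s hs)).1 a ha b hb hxa hyb, fun t ht h' =>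
        hs.2 t ht (ReflTransGen.head ⟨a, ha, b, hb, hxa, hyb, rfl⟩ h')⟩
    -- at the maximum the supports stay at the maximum
    have hbal : ∀ s ∈ D, ∀ a ∈ G.act₁ s, ∀ b ∈ G.act₂ s, 0 < x s a → 0 < y s b →
        G.L T₁ s = G.L T₁ s₁ → G.L T₁ (G.δ s a b) = G.L T₁ s₁ := by
      intro s hs a ha b hb hxa hyb hsM
      refine dsum_eq (hx s) (hy s) (f := fun a b => G.L T₁ (G.δ s a b)) (c := G.L T₁ s₁)
        (fun a ha b hb h1 h2 => hmax _ (hDc s hs a ha b hb h1 h2)) ?_ ha hb hxa hyb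
      -- the average of `1 - v₂` is at least `v₁ s`, and it is equal to `v₁` on the supports
      have h1 : ∑ a ∈ G.act₁ s, ∑ b ∈ G.act₂ s, x s a * y s b * G.L T₁ (G.δ s a b) =
          ∑ a ∈ G.act₁ s, ∑ b ∈ G.act₂ s, x s a * y s b *
            (1 - G.swap.L T₂ (G.δ s a b)) := by
        refine Finset.sum_congr rfl fun a ha => Finset.sum_congr rfl fun b hb => ?_
        rcases ((hx s).1 a ha).lt_or_eq with hxa | hxa
        · rcases ((hy s).1 b hb).lt_or_eq with hyb | hyb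
          · rw [((hxy s hs.1 (hD1 s hs) (hD2 s hs)).1 a ha b hb hxa hyb).2]
          · rw [← hyb]; simp
        · rw [← hxa]; simp
      rw [h1, dsum', ← hsM]
      refine le_mix (hy s) fun b hb => ?_
      have h2 := hc2 s (hD2 s hs) b hb
      simp only [mul_sub, mul_one, Finset.sum_sub_distrib, (hx s).2]
      have := hs.1.2
      linarith
    rcases (L_nonneg (G := G) (T := T₁) s₁).lt_or_eq with hpos | h0
    · refine lower (G := G) (T := T₁) (K := {s | s ∈ D ∧ G.L T₁ s = G.L T₁ s₁}) (y := y) hpos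
        (fun s hs => ⟨hD1 s hs.1, hs.2⟩) (fun s _ => hy s) (fun s hs a ha => ?_)
        ⟨s₁, hs₁, rfl⟩
      rcases (hxy s hs.1.1 (hD1 s hs.1) (hD2 s hs.1)).2.1 (by rw [hs.2]; exact hpos) a ha with
        hxa | h
      · left
        exact fun b hb hyb => ⟨hDc s hs.1 a ha b hb hxa hyb,
          hbal s hs.1 a ha b hb hxa hyb hs.2⟩
      · right
        rw [hs.2] at h
        exact h
    · have hz : ∀ s ∈ D, G.L T₁ s = 0 := fun s hs =>
        le_antisymm (by rw [h0]; exact hmax s hs) (L_nonneg s)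
      refine lower (G := G.swap) (T := T₂) (K := D) (y := x) one_pos
        (fun s hs => ⟨hD2 s hs, ?_⟩) (fun s _ => hx s) (fun s hs b hb => ?_) ⟨s₁, hs₁⟩
      · have h1 := hs.1.2
        rw [hz s hs] at h1
        linarith
      · rcases (hxy s hs.1 (hD1 s hs) (hD2 s hs)).2.2 (hz s hs) b hb with hyb | h
        · left
          exact fun a ha hxa => hDc s hs a ha b hb hxa hyb
        · right
          have h1 := hs.1.2
          rw [hz s hs] at h1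
          have h2 : G.swap.L T₂ s = 1 := by linarith
          rw [h2] at h
          exact h
  refine ⟨hle, x, y, hx, hy, hc1, hc2, fun s hs hsZ hsT s' h => ?_, fun s hs hsZ =>
    hreach s ⟨hs, hsZ⟩⟩
  obtain ⟨a, ha, b, hb, hxa, hyb, rfl⟩ := h
  exact ((hxy s ⟨hs, hsZ⟩ (fun h => hsT (Or.inl h)) (fun h => hsT (Or.inr h))).1 a ha b hb
    hxa hyb).2

end Game

end Pool.Agent.H95.NE
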