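import Pool.Agent.H95.NE.General

/-!
The play before a terminal state is entered, with general payoffs in the terminal states.
-/

set_option autoImplicit false

open Finset Relation

namespace Pool.Agent.H95.NE

namespace Game

variable {S A B : Type*} {G : Game S A B}

theorem domC {W₁ W₂ H T : Set S} {g : S → ℝ}
    (hH : ∀ s ∈ H, s ∉ W₁ → s ∉ W₂ → ∀ a ∈ G.act₁ s, ∀ b ∈ G.act₂ s, G.δ s a b ∈ H)
    (hg0 : ∀ s ∈ H, 0 ≤ g s) (hW : ∀ s ∈ H, (s ∈ W₁ ∨ s ∈ W₂) → G.L T s ≤ g s)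
    (hT : ∀ s ∈ H, s ∈ T → (s ∈ W₁ ∨ s ∈ W₂))
    (hR : ∀ s ∈ H, s ∉ W₁ → s ∉ W₂ →
      V (G.act₁ s) (G.act₂ s) (fun a b => g (G.δ s a b)) ≤ g s) : ∀ s ∈ H, G.L T s ≤ g s := by
  have key : ∀ n, ∀ s ∈ H, G.Lv T n s ≤ g s := by
    intro n
    induction n with
    | zero =>
      intro s hs
      by_cases h : s ∈ T
      · exact (Lv_le_L _ _).trans (hW s hs (hT s hs h))
      · rw [Lv_zero h]; exact hg0 s hs
    | succ n ih =>
      intro s hs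
      by_cases h1 : s ∈ W₁ ∨ s ∈ W₂
      · exact (Lv_le_L _ _).trans (hW s hs h1)
      have h3 : s ∉ T := fun h => h1 (hT s hs h)
      push Not at h1
      rw [Lv_succ h3]
      exact (V_mono (G.ne₁ s) (G.ne₂ s) fun a ha b hb => ih _ (hH s hs h1.1 h1.2 a ha b hb)).trans
        (hR s hs h1.1 h1.2)
  exact fun s hs => ciSup_le fun n => key n s hs

theorem phaseC [Finite S] [Nonempty S] {W₁ W₂ H T T' : Set S} {c : S → ℝ}
    (hc0 : ∀ s, 0 ≤ c s) (hc1 : ∀ s, c s ≤ 1)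
    (hH : ∀ s, s ∉ W₁ → s ∉ W₂ → ∀ a ∈ G.act₁ s, ∀ b ∈ G.act₂ s, G.δ s a b ∈ H)
    (hHW : ∀ s, s ∉ H → s ∈ W₂)
    (hT : ∀ s ∈ H, s ∈ T → (s ∈ W₁ ∨ s ∈ W₂))
    (hL : ∀ s ∈ H, (s ∈ W₁ ∨ s ∈ W₂) → G.L T s ≤ c s)
    (hT' : ∀ s ∈ H, s ∈ T' → (s ∈ W₂ ∨ s ∈ W₁))
    (hL' : ∀ s ∈ H, (s ∈ W₂ ∨ s ∈ W₁) → G.swap.L T' s ≤ 1 - c s)
    (hpos : ∀ s, s ∉ W₁ → s ∉ W₂ → G.L T s = 0 → 0 < G.swap.L T' s) :
    ∃ (f : S → ℝ) (xs : S → A → ℝ) (ys : S → B → ℝ) (r : S → ℕ), (∀ s, 0 ≤ f s) ∧ (∀ s, f s ≤ 1) ∧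
      (∀ s, (s ∈ W₁ ∨ s ∈ W₂) → f s = c s) ∧ (∀ s, Mix (G.act₁ s) (xs s)) ∧
      (∀ s, Mix (G.act₂ s) (ys s)) ∧ ∀ s, s ∉ W₁ → s ∉ W₂ →
        (∀ b ∈ G.act₂ s, f s ≤ ∑ a ∈ G.act₁ s, xs s a * f (G.δ s a b)) ∧
        (∀ a ∈ G.act₁ s, 0 < xs s a → ∑ b ∈ G.act₂ s, ys s b * f (G.δ s a b) ≤ f s) ∧
        (∀ a ∈ G.act₁ s, ∑ b ∈ G.act₂ s, ys s b * G.L T (G.δ s a b) ≤ f s) ∧
        ∃ a ∈ G.act₁ s, ∃ b ∈ G.act₂ s, 0 < xs s a ∧ 0 < ys s b ∧ r (G.δ s a b) < r s := by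
  classical
  obtain ⟨f, hf0, hf1, hfix, hA, hB⟩ := exists_fC G W₁ W₂ {s | 0 < G.L T s} hc0 hc1
  have hfc : ∀ s, (s ∈ W₁ ∨ s ∈ W₂) → f s = c s := fun s hs => by
    rw [← hfix s, TopC, if_pos hs]
  have hV : ∀ s, s ∉ W₁ → s ∉ W₂ →
      V (G.act₁ s) (G.act₂ s) (fun a b => f (G.δ s a b)) = f s := fun s h1 h2 => by
    rw [← TopC_R h1 h2, hfix]
  have hRH : ∀ s, s ∉ W₂ → s ∈ H := fun s h => by
    by_contra h'
    exact h (hHW s h')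
  have F1 : ∀ s ∈ H, G.L T s ≤ f s := domC (W₁ := W₁) (W₂ := W₂)
    (fun s _ h1 h2 => hH s h1 h2) (fun s _ => hf0 s)
    (fun s hs h => (hL s hs h).trans (hfc s h).ge) hT (fun s _ h1 h2 => (hV s h1 h2).le)
  have F2 : ∀ s ∈ H, G.swap.L T' s ≤ 1 - f s := domC (G := G.swap) (W₁ := W₂) (W₂ := W₁)
    (fun s _ h1 h2 b hb a ha => hH s h2 h1 a ha b hb) (fun s _ => by have := hf1 s; linarith)
    (fun s hs h => by rw [hfc s h.symm]; exact hL' s hs h) hT'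
    (fun s _ h1 h2 => by
      have := V_compl (G.ne₁ s) (G.ne₂ s) fun a b => f (G.δ s a b)
      rw [hV s h2 h1] at this
      exact this.le)
  have hQ1 : ∀ s ∈ {s | 0 < G.L T s}, s ∉ W₁ → s ∉ W₂ → 0 < f s := fun s hs _ h2 =>
    lt_of_lt_of_le hs (F1 s (hRH s h2))
  have hQ2 : ∀ s, s ∉ {s | 0 < G.L T s} → s ∉ W₁ → s ∉ W₂ → f s < 1 := by
    intro s hs h1 h2
    have h3 : G.L T s = 0 := le_antisymm (not_lt.1 hs) (L_nonneg s)
    have := hpos s h1 h2 h3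
    have := F2 s (hRH s h2)
    linarith
  -- the base pairs
  have hbase : ∀ s, ∃ x y, Mix (G.act₁ s) x ∧ Mix (G.act₂ s) y ∧ (s ∉ W₁ → s ∉ W₂ →
      LoG (G.act₁ s) (G.act₂ s) (fun a b => f (G.δ s a b)) x (f s) ∧
      UpG (G.act₁ s) (G.act₂ s) (fun a b => f (G.δ s a b)) y (f s) ∧
      (∀ a ∈ G.act₁ s, 0 < x a ∨ ∑ b ∈ G.act₂ s, y b * f (G.δ s a b) < f s) ∧
      ∀ b ∈ G.act₂ s, 0 < y b ∨ f s < ∑ a ∈ G.act₁ s, x a * f (G.δ s a b)) := by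
    intro s
    by_cases h : s ∉ W₁ ∧ s ∉ W₂
    · obtain ⟨x, y, h1, h2, h3, h4⟩ := bothStrict (G.ne₁ s) (G.ne₂ s) fun a b => f (G.δ s a b)
      rw [hV s h.1 h.2] at h1 h2
      simp only [hV s h.1 h.2] at h3 h4
      exact ⟨x, y, h1.1, h2.1, fun _ _ => ⟨h1, h2, h3, h4⟩⟩
    · exact ⟨_, _, mix_unif (G.ne₁ s), mix_unif (G.ne₂ s), fun h1 h2 => absurd ⟨h1, h2⟩ h⟩
  choose x0 y0 hx0 hy0 hxy using hbase
  have hopt0 : ∀ s, s ∉ W₁ → s ∉ W₂ → G.Opt f s (x0 s) (y0 s) := fun s h1 h2 =>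
    ⟨(hxy s h1 h2).1, hy0 s, fun a ha hxa => slack (hxy s h1 h2).1 (hxy s h1 h2).2.1 ha hxa⟩
  set D : Set S := {s | ∀ t, ReflTransGen (G.PStep x0 y0) s t → t ∉ W₁ ∧ t ∉ W₂} with hD
  have hDR : ∀ s ∈ D, s ∉ W₁ ∧ s ∉ W₂ := fun s hs => hs s ReflTransGen.refl
  have hDc : ∀ s ∈ D, ∀ a ∈ G.act₁ s, ∀ b ∈ G.act₂ s, 0 < x0 s a → 0 < y0 s b →
      G.δ s a b ∈ D :=
    fun s hs a ha b hb hxa hyb t ht => hs t (ReflTransGen.head ⟨a, ha, b, hb, hxa, hyb, rfl⟩ ht)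
  -- f is positive on D
  have hfD : ∀ s ∈ D, 0 < f s := by
    intro s hs
    rcases (hf0 s).lt_or_eq with h | h
    · exact h
    exfalso
    refine lemAC hf0 hf1 hfix hA hQ2 (L := {s | s ∈ D ∧ f s = 0})
      (fun s hs => ⟨fun h => ?_, hDR s hs.1⟩) (fun s hs => ?_) ⟨s, hs, h.symm⟩
    · have h1 := hQ1 s h (hDR s hs.1).1 (hDR s hs.1).2
      rw [hs.2] at h1
      exact lt_irrefl _ h1
    · obtain ⟨h1, h2, h3, h4⟩ := hxy s (hDR s hs.1).1 (hDR s hs.1).2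
      refine ⟨x0 s, h1, fun b hb => (h4 b hb).imp
        (fun hyb a ha hxa => ⟨hDc s hs.1 a ha b hb hxa hyb, ?_⟩) id⟩
      have h5 := h2.2 a ha
      rw [hs.2] at h5
      by_contra hne
      have h6 : 0 < f (G.δ s a b) := lt_of_le_of_ne (hf0 _) (Ne.symm hne)
      have h7 : 0 < ∑ b ∈ G.act₂ s, y0 s b * f (G.δ s a b) :=
        Finset.sum_pos' (fun b hb => mul_nonneg ((hy0 s).1 b hb) (hf0 _)) ⟨b, hb, mul_pos hyb h6⟩
      linarith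
  -- the gap
  have hgap : ∀ s, ∃ η > 0, s ∈ D → η ≤ f s ∧ ∀ a ∈ G.act₁ s, ¬ 0 < x0 s a →
      ∑ b ∈ G.act₂ s, y0 s b * f (G.δ s a b) ≤ f s - η := by
    intro s
    by_cases hs : s ∈ D
    · obtain ⟨η, h1, h2⟩ := exists_gap (G.act₁ s) (fun a => ¬ 0 < x0 s a)
        (fun a => ∑ b ∈ G.act₂ s, y0 s b * f (G.δ s a b)) (f s) (fun a ha h =>
          ((hxy s (hDR s hs).1 (hDR s hs).2).2.2.1 a ha).resolve_left h)
      refine ⟨min η (f s), lt_min h1 (hfD s hs), fun _ => ⟨min_le_right _ _, fun a ha h => ?_⟩⟩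
      have := h2 a ha h
      have := min_le_left η (f s)
      linarith
    · exact ⟨1, one_pos, fun h => absurd h hs⟩
  choose η hη1 hη2 using hgap
  obtain ⟨s₃, hs₃⟩ := Finite.exists_min η
  set e := η s₃ with he
  have he0 : 0 < e := hη1 s₃
  have hge : ∀ s ∈ D, ∀ a ∈ G.act₁ s, ∑ b ∈ G.act₂ s, y0 s b *
      (if G.δ s a b ∈ D then f (G.δ s a b) - e else f (G.δ s a b)) ≤ f s - e := by
    intro s hs a ha
    by_cases hxa : 0 < x0 s a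
    · have h1 : ∀ b ∈ G.act₂ s, y0 s b *
          (if G.δ s a b ∈ D then f (G.δ s a b) - e else f (G.δ s a b)) =
          y0 s b * (f (G.δ s a b) - e) := by
        intro b hb
        rcases ((hy0 s).1 b hb).lt_or_eq with hyb | hyb
        · rw [if_pos (hDc s hs a ha b hb hxa hyb)]
        · rw [← hyb]; simp
      rw [Finset.sum_congr rfl h1, sum_shift _ (hy0 s).2]
      have := (hxy s (hDR s hs).1 (hDR s hs).2).2.1.2 a ha
      linarith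
    · have h1 := (hη2 s hs).2 a ha hxa
      have h2 := hs₃ s
      have h3 : ∑ b ∈ G.act₂ s, y0 s b *
          (if G.δ s a b ∈ D then f (G.δ s a b) - e else f (G.δ s a b)) ≤
          ∑ b ∈ G.act₂ s, y0 s b * f (G.δ s a b) := by
        refine Finset.sum_le_sum fun b hb => mul_le_mul_of_nonneg_left ?_ ((hy0 s).1 b hb)
        split_ifs <;> linarith
      linarith
  have F3 : ∀ s ∈ H, G.L T s ≤ if s ∈ D then f s - e else f s :=
    domC (W₁ := W₁) (W₂ := W₂) (g := fun s => if s ∈ D then f s - e else f s)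
    (fun s _ h1 h2 => hH s h1 h2) (fun s _ => by
      split_ifs with h
      · have := (hη2 s h).1
        have := hs₃ s
        linarith
      · exact hf0 s) (fun s hs h => by
      rw [if_neg fun h' => h.elim (hDR s h').1 (hDR s h').2, hfc s h]
      exact hL s hs h) hT
    (fun s _ h1 h2 => by
      by_cases hs : s ∈ D
      · rw [if_pos hs]
        exact V_le (G.ne₁ s) (G.ne₂ s) (y := y0 s) ⟨hy0 s, hge s hs⟩
      · rw [if_neg hs]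
        refine (V_mono (G.ne₁ s) (G.ne₂ s) fun a _ b _ => ?_).trans (hV s h1 h2).le
        split_ifs <;> linarith)
  have hcap : ∀ s ∈ D, ∀ a ∈ G.act₁ s, ∑ b ∈ G.act₂ s, y0 s b * G.L T (G.δ s a b) ≤ f s - e :=
    fun s hs a ha => (Finset.sum_le_sum fun b hb => mul_le_mul_of_nonneg_left
      (F3 _ (hH s (hDR s hs).1 (hDR s hs).2 a ha b hb)) ((hy0 s).1 b hb)).trans (hge s hs a ha)
  -- every state is good
  have hGd : ∀ s, ∃ n, G.Gd f D (W₁ ∪ W₂) x0 y0 n s := by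
    by_contra hcon
    push Not at hcon
    obtain ⟨s₁, hs₁⟩ := hcon
    set K : Set S := {s | ∀ n, ¬ G.Gd f D (W₁ ∪ W₂) x0 y0 n s} with hK
    have hKR : ∀ s ∈ K, s ∉ W₁ ∧ s ∉ W₂ := fun s hs =>
      ⟨fun h => hs 0 (Or.inl h), fun h => hs 0 (Or.inr h)⟩
    have hKa : ∀ s ∈ K, ∀ x y, G.Opt f s x y → (s ∈ D ∨ (x = x0 s ∧ y = y0 s)) →
        ∀ a ∈ G.act₁ s, ∀ b ∈ G.act₂ s, 0 < x a → 0 < y b → G.δ s a b ∈ K :=
      fun s hs x y h1 h2 a ha b hb hxa hyb n hn =>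
        hs (n + 1) ⟨x, y, h1, h2, a, ha, b, hb, hxa, hyb, hn⟩
    have hKD : ∀ s ∈ K, s ∈ D := by
      intro s hs t ht
      have htK : t ∈ K := by
        induction ht with
        | refl => exact hs
        | tail _ hstep ih =>
          obtain ⟨a, ha, b, hb, hxa, hyb, rfl⟩ := hstep
          exact hKa _ ih _ _ (hopt0 _ (hKR _ ih).1 (hKR _ ih).2) (Or.inr ⟨rfl, rfl⟩) a ha b hb
            hxa hyb
      exact hKR t htK
    exact noClosedC hf0 hf1 hfix hA hB hQ1 hQ2 (K := K) hKR (fun s hs x y h a ha b hb hxa hyb =>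
      hKa s hs x y h (Or.inl (hKD s hs)) a ha b hb hxa hyb) ⟨s₁, hs₁⟩
  have hfin : ∀ s, ∃ x y, Mix (G.act₁ s) x ∧ Mix (G.act₂ s) y ∧ (s ∉ W₁ → s ∉ W₂ →
      (∀ b ∈ G.act₂ s, f s ≤ ∑ a ∈ G.act₁ s, x a * f (G.δ s a b)) ∧
      (∀ a ∈ G.act₁ s, 0 < x a → ∑ b ∈ G.act₂ s, y b * f (G.δ s a b) ≤ f s) ∧
      (∀ a ∈ G.act₁ s, ∑ b ∈ G.act₂ s, y b * G.L T (G.δ s a b) ≤ f s) ∧
      ∃ a ∈ G.act₁ s, ∃ b ∈ G.act₂ s, 0 < x a ∧ 0 < y b ∧
        Nat.find (hGd (G.δ s a b)) < Nat.find (hGd s)) := by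
    intro s
    by_cases hs : s ∉ W₁ ∧ s ∉ W₂
    swap
    · exact ⟨_, _, mix_unif (G.ne₁ s), mix_unif (G.ne₂ s), fun h1 h2 => absurd ⟨h1, h2⟩ hs⟩
    obtain ⟨h1, h2⟩ := hs
    have hspec := Nat.find_spec (hGd s)
    cases hk : Nat.find (hGd s) with
    | zero =>
      rw [hk] at hspec
      exact absurd hspec (fun h => h.elim h1 h2)
    | succ k =>
      rw [hk] at hspec
      obtain ⟨x1, y1, hopt, hal, a₀, ha₀, b₀, hb₀, hxa₀, hyb₀, hGk⟩ := hspec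
      have hr : Nat.find (hGd (G.δ s a₀ b₀)) < k + 1 := Nat.lt_succ_of_le (Nat.find_min' _ hGk)
      by_cases hsD : s ∈ D
      · have h1e : 0 < 1 + e := by linarith
        obtain ⟨q, hq0, hq1, hq⟩ : ∃ q : ℝ, 0 < q ∧ q < 1 ∧ q = (1 - q) * e :=
          ⟨e / (1 + e), by positivity, (div_lt_one h1e).2 (by linarith), by field_simp; ring⟩
        refine ⟨x1, fun b => (1 - q) * y0 s b + q * y1 b, hopt.1.1,
          mix_comb hq0.le hq1.le (hy0 s) hopt.2.1, fun _ _ => ⟨hopt.1.2, fun a ha hxa => ?_,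
            fun a ha => ?_, a₀, ha₀, b₀, hb₀, hxa₀, ?_, hr⟩⟩
        · rw [sum_comb (G.act₂ s) _ (y0 s) y1 fun b => f (G.δ s a b), hopt.2.2 a ha hxa]
          have h4 := (hxy s h1 h2).2.1.2 a ha
          have h5 := mul_le_mul_of_nonneg_left h4 (show 0 ≤ 1 - q by linarith)
          linarith
        · rw [sum_comb (G.act₂ s) _ (y0 s) y1 fun b => G.L T (G.δ s a b)]
          have h3 := mul_le_mul_of_nonneg_left (hcap s hsD a ha) (show 0 ≤ 1 - q by linarith)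
          have h4 : ∑ b ∈ G.act₂ s, y1 b * G.L T (G.δ s a b) ≤ 1 :=
            mix_le hopt.2.1 fun b _ => L_le_one _
          have h5 := mul_le_mul_of_nonneg_left h4 hq0.le
          have h6 := mul_nonneg hq0.le (hf0 s)
          have h7 : (1 - q) * (f s - e) = f s - q * f s - q := by
            rw [mul_sub, ← hq]; ring
          linarith
        · have h3 := mul_pos hq0 hyb₀
          have h4 := mul_nonneg (show 0 ≤ 1 - q by linarith) ((hy0 s).1 b₀ hb₀)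
          linarith
      · obtain ⟨rfl, rfl⟩ := hal.resolve_left hsD
        refine ⟨x0 s, y0 s, hx0 s, hy0 s, fun _ _ => ⟨(hxy s h1 h2).1.2,
          fun a ha _ => (hxy s h1 h2).2.1.2 a ha, fun a ha => ?_,
            a₀, ha₀, b₀, hb₀, hxa₀, hyb₀, hr⟩⟩
        exact (Finset.sum_le_sum fun b hb => mul_le_mul_of_nonneg_left
          (F1 _ (hH s h1 h2 a ha b hb)) ((hy0 s).1 b hb)).trans ((hxy s h1 h2).2.1.2 a ha)
  choose xs ys h1 h2 h3 using hfin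
  exact ⟨f, xs, ys, fun s => Nat.find (hGd s), hf0, hf1, hfc, h1, h2, h3⟩

end Game

end Pool.Agent.H95.NE
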