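import Pool.Agent.H95.NE.Prune

/-!
Two payoffs `P ≤ N` with the same value: a pair of mixed actions which is an equilibrium for both
and uses all rows that are tight against the mixed action of the column player.
-/

set_option autoImplicit false

open Finset Relation

namespace Pool.Agent.H95.NE

theorem quasi {A B : Type*} {F : Finset A} {E : Finset B} {P N : A → B → ℝ} {v : ℝ}
    (hPN : ∀ a ∈ F, ∀ b ∈ E, P a b ≤ N a b) (hP : ∃ x, LoG F E P x v) (hN : ∃ y, UpG F E N y v) :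
    ∃ x y, LoG F E N x v ∧ UpG F E P y v ∧
      (∀ a ∈ F, ∀ b ∈ E, 0 < x a → 0 < y b → P a b = N a b) ∧
      ∀ a ∈ F, 0 < x a ∨ ∑ b ∈ E, y b * P a b < v := by
  classical
  obtain ⟨xP, hxP⟩ := hP
  obtain ⟨yN, hyN⟩ := hN
  have hle : ∀ y : B → ℝ, (∀ b ∈ E, 0 ≤ y b) → ∀ a ∈ F,
      ∑ b ∈ E, y b * P a b ≤ ∑ b ∈ E, y b * N a b := fun y hy a ha =>
    Finset.sum_le_sum fun b hb => mul_le_mul_of_nonneg_left (hPN a ha b hb) (hy b hb)
  let tight : (B → ℝ) → Finset A := fun y => F.filter fun a => v ≤ ∑ b ∈ E, y b * P a b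
  let Y : Set (B → ℝ) := {y | UpG F E P y v ∧ ∀ a ∈ tight y, ∑ b ∈ E, y b * N a b ≤ v}
  have hmem : ∀ y a, a ∈ tight y ↔ a ∈ F ∧ v ≤ ∑ b ∈ E, y b * P a b := fun y a =>
    Finset.mem_filter
  have hYne : Y.Nonempty := ⟨yN, ⟨hyN.1, fun a ha => (hle yN hyN.1.1 a ha).trans (hyN.2 a ha)⟩,
    fun a ha => hyN.2 a ((hmem _ _).1 ha).1⟩
  obtain ⟨y, hyY, hmin⟩ := WellFounded.has_min
    (measure fun y : B → ℝ => (tight y).card).wf Y hYne
  obtain ⟨hyP, hyN'⟩ := hyY
  have hkey : ∀ a₀ ∈ tight y, ∃ x : A → ℝ, (∀ a ∈ tight y, 0 ≤ x a) ∧ 0 < x a₀ ∧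
      ∀ b ∈ E, 0 ≤ ∑ a ∈ tight y, x a * (N a b - v) := by
    intro a₀ ha₀
    by_contra hcon
    push Not at hcon
    obtain ⟨u, hu, h1⟩ := fk (tight y) E (fun a b => N a b - v)
      (fun a => if a = a₀ then -1 else 0) (by
        intro x hx hb
        have h2 : ¬ 0 < x a₀ := fun h => by
          obtain ⟨b, hb', h3⟩ := hcon x hx h
          exact absurd (hb b hb') (not_le.2 h3)
        have h3 : x a₀ = 0 := le_antisymm (not_lt.1 h2) (hx a₀ ha₀)
        rw [Finset.sum_eq_zero]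
        intro a _
        by_cases h : a = a₀
        · rw [h, h3, zero_mul]
        · rw [if_neg h, mul_zero])
    have hU : 0 < ∑ b ∈ E, u b := by
      rcases (Finset.sum_nonneg fun b _ => hu b : 0 ≤ ∑ b ∈ E, u b).lt_or_eq with h2 | h2
      · exact h2
      · exfalso
        have h3 := h1 a₀ ha₀
        have h4 : ∀ b ∈ E, u b = 0 := (Finset.sum_eq_zero_iff_of_nonneg fun b _ => hu b).1 h2.symm
        rw [Finset.sum_eq_zero fun b hb => by rw [h4 b hb, zero_mul], if_pos rfl] at h3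
        linarith
    set w : B → ℝ := fun b => u b / ∑ b' ∈ E, u b' with hw
    have hwm : Mix E w := mix_div E (fun b _ => hu b) hU
    have hw1 : ∀ a ∈ tight y, ∑ b ∈ E, w b * N a b ≤
        v + (if a = a₀ then -1 else 0) / ∑ b ∈ E, u b := by
      intro a ha
      have h4 := sum_shift E hwm.2 (fun b => N a b) v
      rw [hw, sum_div_mul] at h4
      have h5 := div_le_div_of_nonneg_right (h1 a ha) hU.le
      rw [hw]
      linarith
    have hw2 : ∀ a ∈ tight y, ∑ b ∈ E, w b * N a b ≤ v := by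
      intro a ha
      refine (hw1 a ha).trans ?_
      have : (if a = a₀ then (-1 : ℝ) else 0) / ∑ b ∈ E, u b ≤ 0 :=
        div_nonpos_of_nonpos_of_nonneg (by split_ifs <;> norm_num) hU.le
      linarith
    have hw3 : ∑ b ∈ E, w b * N a₀ b < v := by
      have h2 := hw1 a₀ ha₀
      rw [if_pos rfl] at h2
      have : (-1 : ℝ) / ∑ b ∈ E, u b < 0 := div_neg_of_neg_of_pos (by norm_num) hU
      linarith
    obtain ⟨η, hη, hη'⟩ := exists_gap F (fun a => a ∉ tight y)
      (fun a => ∑ b ∈ E, y b * P a b) v (fun a ha h => by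
        rw [hmem] at h
        push Not at h
        exact h ha)
    set c := ∑ a ∈ F, |∑ b ∈ E, w b * P a b - v| with hc
    have hc0 : 0 ≤ c := Finset.sum_nonneg fun _ _ => abs_nonneg _
    have hc' : ∀ a ∈ F, ∑ b ∈ E, w b * P a b ≤ v + c := by
      intro a ha
      have h2 := Finset.single_le_sum (f := fun a => |∑ b ∈ E, w b * P a b - v|)
        (fun _ _ => abs_nonneg _) ha
      have h3 := le_abs_self (∑ b ∈ E, w b * P a b - v)
      linarith
    obtain ⟨q, hq0, hq1, hq⟩ : ∃ q : ℝ, 0 < q ∧ q < 1 ∧ q * (η + c) < η := by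
      refine ⟨η / (2 * (η + c)), by positivity, ?_, ?_⟩
      · rw [div_lt_one (by positivity)]; linarith
      · rw [div_mul_eq_mul_div, div_lt_iff₀ (by positivity)]
        nlinarith
    set y' : B → ℝ := fun b => (1 - q) * y b + q * w b with hy'
    have hP' : ∀ a, ∑ b ∈ E, y' b * P a b =
        (1 - q) * ∑ b ∈ E, y b * P a b + q * ∑ b ∈ E, w b * P a b := fun a =>
      sum_comb E q y w fun b => P a b
    have hN'' : ∀ a, ∑ b ∈ E, y' b * N a b =
        (1 - q) * ∑ b ∈ E, y b * N a b + q * ∑ b ∈ E, w b * N a b := fun a =>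
      sum_comb E q y w fun b => N a b
    have h1q : 0 < 1 - q := by linarith
    have ht1 : ∀ a ∈ tight y, ∑ b ∈ E, y' b * P a b ≤ v := by
      intro a ha
      have haF := ((hmem _ _).1 ha).1
      rw [hP']
      have h2 := mul_le_mul_of_nonneg_left (hyP.2 a haF) h1q.le
      have h3 := mul_le_mul_of_nonneg_left ((hle w hwm.1 a haF).trans (hw2 a ha)) hq0.le
      linarith
    have ht2 : ∑ b ∈ E, y' b * P a₀ b < v := by
      have haF := ((hmem _ _).1 ha₀).1
      rw [hP']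
      have h2 := mul_le_mul_of_nonneg_left (hyP.2 a₀ haF) h1q.le
      have h3 := mul_lt_mul_of_pos_left ((hle w hwm.1 a₀ haF).trans_lt hw3) hq0
      linarith
    have ht3 : ∀ a ∈ F, a ∉ tight y → ∑ b ∈ E, y' b * P a b < v := by
      intro a ha h
      rw [hP']
      have h2 := mul_le_mul_of_nonneg_left (hη' a ha h) h1q.le
      have h3 := mul_le_mul_of_nonneg_left (hc' a ha) hq0.le
      nlinarith
    have hsub : ∀ a ∈ tight y', a ∈ tight y ∧ a ≠ a₀ := by
      intro a ha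
      obtain ⟨haF, h2⟩ := (hmem _ _).1 ha
      constructor
      · by_contra h
        exact absurd h2 (not_le.2 (ht3 a haF h))
      · rintro rfl
        exact absurd h2 (not_le.2 ht2)
    refine hmin y' ⟨⟨mix_comb hq0.le hq1.le hyP.1 hwm, fun a ha => ?_⟩, fun a ha => ?_⟩ ?_
    · by_cases h : a ∈ tight y
      · exact ht1 a h
      · exact (ht3 a ha h).le
    · rw [hN'']
      have h2 := mul_le_mul_of_nonneg_left (hyN' a (hsub a ha).1) h1q.le
      have h3 := mul_le_mul_of_nonneg_left (hw2 a (hsub a ha).1) hq0.le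
      linarith
    · change (tight y').card < (tight y).card
      refine Finset.card_lt_card ((Finset.ssubset_iff_of_subset fun a ha => (hsub a ha).1).2
        ⟨a₀, ha₀, fun h => (hsub a₀ h).2 rfl⟩)
  -- the row player
  have hne : ∃ a₀, a₀ ∈ tight y := by
    obtain ⟨a, ha, hxa⟩ := hxP.1.exists_pos
    refine ⟨a, (hmem _ _).2 ⟨ha, ?_⟩⟩
    refine (sum_eq_of' hxP.1 (f := fun a => ∑ b ∈ E, y b * P a b) (fun a ha _ => hyP.2 a ha) ?_
      ha hxa).ge
    rw [bil]
    exact le_mix hyP.1 hxP.2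
  have hkey' : ∀ a₀ : A, ∃ x : A → ℝ, a₀ ∈ tight y → (∀ a ∈ tight y, 0 ≤ x a) ∧ 0 < x a₀ ∧
      ∀ b ∈ E, 0 ≤ ∑ a ∈ tight y, x a * (N a b - v) := by
    intro a₀
    by_cases h : a₀ ∈ tight y
    · obtain ⟨x, hx⟩ := hkey a₀ h
      exact ⟨x, fun _ => hx⟩
    · exact ⟨fun _ => 0, fun h' => absurd h' h⟩
  choose X hX using hkey'
  set z : A → ℝ := fun a => ∑ a₀ ∈ tight y, X a₀ a with hz
  have hz0 : ∀ a ∈ tight y, 0 < z a := fun a ha =>
    Finset.sum_pos' (fun a₀ ha₀ => (hX a₀ ha₀).1 a ha) ⟨a, ha, (hX a ha).2.1⟩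
  have hzb : ∀ b ∈ E, 0 ≤ ∑ a ∈ tight y, z a * (N a b - v) := by
    intro b hb
    simp only [hz, Finset.sum_mul]
    rw [Finset.sum_comm]
    exact Finset.sum_nonneg fun a₀ ha₀ => (hX a₀ ha₀).2.2 b hb
  obtain ⟨a₁, ha₁⟩ := hne
  have hZ : 0 < ∑ a ∈ tight y, z a :=
    Finset.sum_pos' (fun a ha => (hz0 a ha).le) ⟨a₁, ha₁, hz0 a₁ ha₁⟩
  have hm := mix_div (tight y) (fun a ha => (hz0 a ha).le) hZ
  have hsubF : tight y ⊆ F := Finset.filter_subset _ _
  have hLoG : LoG (tight y) E N (fun a => z a / ∑ a' ∈ tight y, z a') v := by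
    refine ⟨hm, fun b hb => ?_⟩
    have h4 := sum_shift (tight y) hm.2 (fun a => N a b) v
    rw [sum_div_mul] at h4
    have h5 := div_nonneg (hzb b hb) hZ.le
    linarith
  refine ⟨ext (tight y) fun a => z a / ∑ a' ∈ tight y, z a', y, ext_loG hsubF hLoG, hyP,
    fun a ha b hb hxa hyb => ?_, fun a ha => ?_⟩
  · have hat : a ∈ tight y := by
      by_contra h
      rw [ext, if_neg h] at hxa
      exact lt_irrefl _ hxa
    by_contra hne
    have h1 : P a b < N a b := lt_of_le_of_ne (hPN a ha b hb) hne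
    have h2 : ∑ b ∈ E, y b * P a b < ∑ b ∈ E, y b * N a b :=
      Finset.sum_lt_sum (fun b hb => mul_le_mul_of_nonneg_left (hPN a ha b hb) (hyP.1.1 b hb))
        ⟨b, hb, mul_lt_mul_of_pos_left h1 hyb⟩
    have h3 := hyN' a hat
    have h4 := ((hmem _ _).1 hat).2
    linarith
  · by_cases h : a ∈ tight y
    · left
      rw [ext, if_pos h]
      exact div_pos (hz0 a h) hZ
    · right
      rw [hmem] at h
      push Not at h
      exact h ha

end Pool.Agent.H95.NE
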