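import Pool.Agent.H95.NE.Phase

/-!
The main theorem: an equilibrium if no reachable state is stuck for both players.
-/

set_option autoImplicit false

open Finset Relation

namespace Pool.Agent.H95.NE

namespace Game

variable {S A B : Type*} (G : Game S A B)

variable {G} {T₁ T₂ : Set S} {s₀ : S}

theorem star [Finite S] (hnb : ¬ G.VisitsBoth T₁ T₂ s₀) (hds : G.NoDoublyStuck T₁ T₂ s₀) :
    ∃ σ τ, G.IsNash T₁ T₂ s₀ σ τ := by
  classical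
  have : Nonempty S := ⟨s₀⟩
  have hv1 : ∀ s, G.val₁ T₁ s = G.L T₁ s := fun s => val₁_eq s
  have hv2 : ∀ s, G.swap.val₁ T₂ s = G.swap.L T₂ s := fun s => val₁_eq s
  set H : Set S := {s | ReflTransGen (G.UStep T₁ T₂) s₀ s} with hHdef
  set W₂ : Set S := {s | s ∉ H ∨ (G.L T₁ s = 0 ∧ ∃ n, G.Sr T₁ T₂ n s)} with hW₂
  set W₁ : Set S := {s | s ∈ H ∧ ¬ (G.L T₁ s = 0 ∧ ∃ n, G.Sr T₁ T₂ n s) ∧
    G.swap.L T₂ s = 0 ∧ ∃ n, G.swap.Sr T₂ T₁ n s} with hW₁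
  have e1 : ∀ s t, ReflTransGen (G.UStep T₁ T₂) s t → ReflTransGen G.Step s t :=
    fun s t h => ReflTransGen.mono (fun _ _ h => h.2.2) _ _ h
  have e2 : ∀ s t, ReflTransGen G.swap.Step s t → ReflTransGen G.Step s t :=
    fun s t h => ReflTransGen.mono (fun _ _ ⟨b, hb, a, ha, h⟩ => ⟨a, ha, b, hb, h⟩) _ _ h
  have hT : ∀ s ∈ H, s ∈ T₁ → s ∈ W₁ := fun s hs h => ⟨hs, fun h' => by
    have := h'.1
    rw [L_mem h] at this
    norm_num at this, L_unreach fun t ht ht2 =>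
      hnb ⟨s, t, e1 _ _ hs, e2 _ _ ht, Or.inl ⟨h, ht2⟩⟩, 0, h⟩
  have hT' : ∀ s ∈ H, s ∈ T₂ → s ∈ W₂ := fun s hs h => Or.inr ⟨L_unreach fun t ht ht2 =>
      hnb ⟨s, t, e1 _ _ hs, ht, Or.inr ⟨h, ht2⟩⟩, 0, h⟩
  have hRH : ∀ s, s ∉ W₂ → s ∈ H := fun s h => by
    by_contra h'
    exact h (Or.inl h')
  have hnu : ∀ s, s ∉ W₂ → ¬ (G.L T₁ s = 0 ∧ ∃ n, G.Sr T₁ T₂ n s) := fun s h2 h' => h2 (Or.inr h')
  have hH : ∀ s, s ∉ W₁ → s ∉ W₂ → ∀ a ∈ G.act₁ s, ∀ b ∈ G.act₂ s, G.δ s a b ∈ H :=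
    fun s h1 h2 a ha b hb => ReflTransGen.tail (hRH s h2)
      ⟨fun ⟨h0, t, ht, h⟩ => hnu s h2 ⟨by rw [← hv1]; exact h0, sr_of_reach h ht⟩,
        fun ⟨h0, t, ht, h⟩ => h1 ⟨hRH s h2, hnu s h2, by rw [← hv2]; exact h0,
          sr_of_reach h ht⟩, a, ha, b, hb, rfl⟩
  have hHW : ∀ s, s ∉ H → s ∈ W₂ := fun s hs => Or.inl hs
  have hdis : ∀ s ∈ W₁, s ∉ W₂ := fun s hs h => h.elim (fun h => h hs.1) fun h => hs.2.1 h
  have hL : ∀ s ∈ H, s ∈ W₂ → G.L T₁ s = 0 := fun s hs h =>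
    h.elim (fun h => absurd hs h) fun h => h.1
  have hL' : ∀ s ∈ W₁, G.swap.L T₂ s = 0 := fun s hs => hs.2.2.1
  have hpos : ∀ s, s ∉ W₁ → s ∉ W₂ → G.L T₁ s = 0 → 0 < G.swap.L T₂ s := by
    intro s h1 h2 h3
    rcases (L_nonneg (G := G.swap) (T := T₂) s).lt_or_eq with h | h
    · exact h
    exfalso
    have hns : ¬ (G.L T₁ s = 0 ∧ ∃ n, G.Sr T₁ T₂ n s) := fun h' => h2 (Or.inr h')
    refine hds s (hRH s h2) ⟨⟨by rw [hv1]; exact h3, fun t ht hr => hns ⟨h3, sr_of_reach hr ht⟩⟩,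
      ⟨by rw [hv2]; exact h.symm, fun t ht hr => h1 ⟨hRH s h2, hns, h.symm, sr_of_reach hr ht⟩⟩⟩
  obtain ⟨f, xs, ys, r, hf0, hf1, hfW1, hfW2, hxs, hys, hR⟩ :=
    phase hH hHW hdis hT hL hT' hL' hpos
  obtain ⟨px, py, hpx, hpy, hcap1, hpath1⟩ := pathPair G T₁ T₂
  obtain ⟨qy, qx, hqy, hqx, hcap2, hpath2⟩ := pathPair G.swap T₂ T₁
  let cls : S → Fin 3 := fun s => if s ∈ W₁ then 1 else if s ∈ W₂ then 2 else 0
  let u : Fin 3 → S → A → B → Fin 3 :=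
    ![fun s a b => if 0 < xs s a then cls (G.δ s a b) else 2, fun _ _ _ => 1, fun _ _ _ => 2]
  let x3 : S × Fin 3 → A → ℝ := fun p => ![xs p.1, qx p.1, px p.1] p.2
  let y3 : S × Fin 3 → B → ℝ := fun p => ![ys p.1, qy p.1, py p.1] p.2
  let P₁ : S × Fin 3 → ℝ := fun p =>
    ![if p.1 ∈ W₁ ∨ p.1 ∈ W₂ then 1 else f p.1, 1, G.L T₁ p.1] p.2
  let P₂ : S × Fin 3 → ℝ := fun p =>
    ![if p.1 ∈ W₁ ∨ p.1 ∈ W₂ then 1 else 1 - f p.1, G.swap.L T₂ p.1, 1] p.2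
  have c1 : ∀ s ∈ W₁, cls s = 1 := fun s hs => if_pos hs
  have c2 : ∀ s, s ∉ W₁ → s ∈ W₂ → cls s = 2 := fun s h hs => by
    simp only [cls, if_neg h, if_pos hs]
  have c0 : ∀ s, s ∉ W₁ → s ∉ W₂ → cls s = 0 := fun s h hs => by
    simp only [cls, if_neg h, if_neg hs]
  have hx3 : ∀ p, Mix ((G.lift u).act₁ p) (x3 p) := by
    rintro ⟨s, m⟩
    fin_cases m
    · exact hxs s
    · exact hqx s
    · exact hpx s
  have hy3 : ∀ p, Mix ((G.lift u).act₂ p) (y3 p) := by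
    rintro ⟨s, m⟩
    fin_cases m
    · exact hys s
    · exact hqy s
    · exact hpy s
  have hP10 : ∀ p, 0 ≤ P₁ p := by
    rintro ⟨s, m⟩
    fin_cases m
    · change (0 : ℝ) ≤ if s ∈ W₁ ∨ s ∈ W₂ then 1 else f s
      split_ifs
      · norm_num
      · exact hf0 s
    · exact zero_le_one
    · exact L_nonneg (G := G) s
  have hP20 : ∀ p, 0 ≤ P₂ p := by
    rintro ⟨s, m⟩
    fin_cases m
    · change (0 : ℝ) ≤ if s ∈ W₁ ∨ s ∈ W₂ then 1 else 1 - f s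
      split_ifs
      · norm_num
      · have := hf1 s; linarith
    · exact L_nonneg (G := G.swap) s
    · exact zero_le_one
  have hP1le : ∀ p, P₁ p ≤ 1 := by
    rintro ⟨s, m⟩
    fin_cases m
    · change (if s ∈ W₁ ∨ s ∈ W₂ then (1 : ℝ) else f s) ≤ 1
      split_ifs
      · norm_num
      · exact hf1 s
    · exact le_rfl
    · exact L_le_one (G := G) s
  have hP2le : ∀ p, P₂ p ≤ 1 := by
    rintro ⟨s, m⟩
    fin_cases m
    · change (if s ∈ W₁ ∨ s ∈ W₂ then (1 : ℝ) else 1 - f s) ≤ 1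
      split_ifs
      · norm_num
      · have := hf0 s; linarith
    · exact L_le_one (G := G.swap) s
    · exact le_rfl
  have hP1c : ∀ s ∈ H, P₁ (s, cls s) = f s := by
    intro s hs
    by_cases h1 : s ∈ W₁
    · rw [c1 s h1, hfW1 s h1]
      rfl
    by_cases h2 : s ∈ W₂
    · rw [c2 s h1 h2, hfW2 s h2]
      exact hL s hs h2
    · rw [c0 s h1 h2]
      exact if_neg fun h => h.elim h1 h2
  have hP2c : ∀ s ∈ H, P₂ (s, cls s) = 1 - f s := by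
    intro s hs
    by_cases h1 : s ∈ W₁
    · rw [c1 s h1, hfW1 s h1, sub_self]
      exact hL' s h1
    by_cases h2 : s ∈ W₂
    · rw [c2 s h1 h2, hfW2 s h2, sub_zero]
      rfl
    · rw [c0 s h1 h2]
      exact if_neg fun h => h.elim h1 h2
  have hs₀H : s₀ ∈ H := ReflTransGen.refl
  let X : Set (S × Fin 3) := {p | (p.2 = 0 ∧ p.1 ∉ W₁ ∧ p.1 ∉ W₂) ∨
    (p.2 = 1 ∧ G.swap.L T₂ p.1 = 0 ∧ ∃ n, G.swap.Sr T₂ T₁ n p.1) ∨
    (p.2 = 2 ∧ G.L T₁ p.1 = 0 ∧ ∃ n, G.Sr T₁ T₂ n p.1)}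
  have hXc : ∀ s ∈ H, (s, cls s) ∈ X := by
    intro s hs
    by_cases h1 : s ∈ W₁
    · rw [c1 s h1]
      exact Or.inr (Or.inl ⟨rfl, h1.2.2⟩)
    by_cases h2 : s ∈ W₂
    · rw [c2 s h1 h2]
      exact Or.inr (Or.inr ⟨rfl, h2.resolve_left fun h => h hs⟩)
    · rw [c0 s h1 h2]
      exact Or.inl ⟨rfl, h1, h2⟩
  -- one step of the play in the three phases
  have step0 : ∀ s a b, 0 < xs s a → (G.lift u).δ (s, 0) a b = (G.δ s a b, cls (G.δ s a b)) :=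
    fun s a b h => Prod.ext rfl (if_pos h)
  have step0' : ∀ s a b, ¬ 0 < xs s a → (G.lift u).δ (s, 0) a b = (G.δ s a b, 2) :=
    fun s a b h => Prod.ext rfl (if_neg h)
  have hL1 : ∀ s, G.L T₁ s = 0 → s ∉ T₁ := fun s h hs => by
    rw [L_mem hs] at h
    norm_num at h
  have hL2 : ∀ s, G.swap.L T₂ s = 0 → s ∉ T₂ := fun s h hs => by
    rw [L_mem hs] at h
    norm_num at h
  have hXstep : ∀ p ∈ X, p ∉ Prod.fst ⁻¹' T₁ ∪ Prod.fst ⁻¹' T₂ → ∀ p',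
      (G.lift u).PStep x3 y3 p p' → p' ∈ X := by
    rintro ⟨s, m⟩ hs hsT p' ⟨a, ha, b, hb, hxa, hyb, rfl⟩
    rcases hs with ⟨h, h1, h2⟩ | ⟨h, h0, n, hn⟩ | ⟨h, h0, n, hn⟩
    · simp only at h h1 h2
      subst h
      rw [step0 s a b hxa]
      exact hXc _ (hH s h1 h2 a ha b hb)
    · simp only at h h0 hn
      subst h
      rcases hpath2 s h0 n hn with h | ⟨k, hk, h⟩
      · exact absurd (Or.inl h) hsT
      · obtain ⟨h3, h4⟩ := h b hb a ha hyb hxa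
        exact Or.inr (Or.inl ⟨rfl, h4, k, h3⟩)
    · simp only at h h0 hn
      subst h
      rcases hpath1 s h0 n hn with h | ⟨k, hk, h⟩
      · exact absurd (Or.inr h) hsT
      · obtain ⟨h3, h4⟩ := h a ha b hb hxa hyb
        exact Or.inr (Or.inr ⟨rfl, h4, k, h3⟩)
  have hreach1 : ∀ n, ∀ s, G.swap.L T₂ s = 0 → G.swap.Sr T₂ T₁ n s →
      ∃ t ∈ Prod.fst ⁻¹' T₁ ∪ Prod.fst ⁻¹' T₂, ReflTransGen ((G.lift u).PStep x3 y3) (s, 1) t := by
    intro n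
    induction n using Nat.strong_induction_on with
    | _ n ih =>
      intro s h0 hn
      rcases hpath2 s h0 n hn with h | ⟨k, hk, h⟩
      · exact ⟨(s, 1), Or.inl h, ReflTransGen.refl⟩
      · obtain ⟨a, ha, hxa⟩ := (hqx s).exists_pos
        obtain ⟨b, hb, hyb⟩ := (hqy s).exists_pos
        obtain ⟨h3, h4⟩ := h b hb a ha hyb hxa
        obtain ⟨t, ht, h5⟩ := ih k hk _ h4 h3
        exact ⟨t, ht, ReflTransGen.head ⟨a, ha, b, hb, hxa, hyb, rfl⟩ h5⟩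
  have hreach2 : ∀ n, ∀ s, G.L T₁ s = 0 → G.Sr T₁ T₂ n s →
      ∃ t ∈ Prod.fst ⁻¹' T₁ ∪ Prod.fst ⁻¹' T₂, ReflTransGen ((G.lift u).PStep x3 y3) (s, 2) t := by
    intro n
    induction n using Nat.strong_induction_on with
    | _ n ih =>
      intro s h0 hn
      rcases hpath1 s h0 n hn with h | ⟨k, hk, h⟩
      · exact ⟨(s, 2), Or.inr h, ReflTransGen.refl⟩
      · obtain ⟨a, ha, hxa⟩ := (hpx s).exists_pos
        obtain ⟨b, hb, hyb⟩ := (hpy s).exists_pos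
        obtain ⟨h3, h4⟩ := h a ha b hb hxa hyb
        obtain ⟨t, ht, h5⟩ := ih k hk _ h4 h3
        exact ⟨t, ht, ReflTransGen.head ⟨a, ha, b, hb, hxa, hyb, rfl⟩ h5⟩
  have hreach0 : ∀ n, ∀ s ∈ H, r s = n →
      ∃ t ∈ Prod.fst ⁻¹' T₁ ∪ Prod.fst ⁻¹' T₂,
        ReflTransGen ((G.lift u).PStep x3 y3) (s, cls s) t := by
    intro n
    induction n using Nat.strong_induction_on with
    | _ n ih =>
      intro s hs hn
      by_cases h1 : s ∈ W₁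
      · rw [c1 s h1]
        obtain ⟨_, _, h0, k, hk⟩ := h1
        exact hreach1 k s h0 hk
      by_cases h2 : s ∈ W₂
      · rw [c2 s h1 h2]
        obtain ⟨h0, k, hk⟩ := h2.resolve_left fun h => h hs
        exact hreach2 k s h0 hk
      · rw [c0 s h1 h2]
        obtain ⟨_, _, _, a, ha, b, hb, hxa, hyb, hr⟩ := hR s h1 h2
        obtain ⟨t, ht, h5⟩ := ih _ (by omega) _ (hH s h1 h2 a ha b hb) rfl
        exact ⟨t, ht, ReflTransGen.head ⟨a, ha, b, hb, hxa, hyb, step0 s a b hxa⟩ h5⟩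
  have hreach : ∀ p ∈ X, ∃ t ∈ Prod.fst ⁻¹' T₁ ∪ Prod.fst ⁻¹' T₂,
      ReflTransGen ((G.lift u).PStep x3 y3) p t := by
    rintro ⟨s, m⟩ hs
    rcases hs with ⟨h, h1, h2⟩ | ⟨h, h0, n, hn⟩ | ⟨h, h0, n, hn⟩
    · simp only at h h1 h2
      subst h
      have := hreach0 _ s (hRH s h2) rfl
      rwa [c0 s h1 h2] at this
    · simp only at h h0 hn
      subst h
      exact hreach1 n s h0 hn
    · simp only at h h0 hn
      subst h
      exact hreach2 n s h0 hn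
  refine ⟨_, _, nash_of_lift (u := u) (m₀ := cls s₀) (verify (G := G.lift u) hx3 hy3 (P₁ := P₁)
    (P₂ := P₂) hP10 hP20 ?_ ?_ ?_ ?_ ?_ (X := X) (hXc s₀ hs₀H) hXstep hreach)⟩
  · rintro ⟨s, m⟩ (hs : s ∈ T₁)
    fin_cases m
    · change (1 : ℝ) ≤ if s ∈ W₁ ∨ s ∈ W₂ then 1 else f s
      split_ifs with h
      · exact le_rfl
      · push Not at h
        exact absurd (hT s (hRH s h.2) hs) h.1
    · exact le_rfl
    · exact (L_mem (G := G) hs).ge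
  · rintro ⟨s, m⟩ (hs : s ∈ T₂)
    fin_cases m
    · change (1 : ℝ) ≤ if s ∈ W₁ ∨ s ∈ W₂ then 1 else 1 - f s
      split_ifs with h
      · exact le_rfl
      · push Not at h
        exact absurd (hT' s (hRH s h.2) hs) h.2
    · exact (L_mem (G := G.swap) hs).ge
    · exact le_rfl
  · rintro ⟨s, m⟩ (hs : s ∉ T₁) a ha
    fin_cases m
    · by_cases h : s ∈ W₁ ∨ s ∈ W₂
      · have e : P₁ (s, 0) = 1 := if_pos h
        change ∑ b ∈ G.act₂ s, ys s b * P₁ ((G.lift u).δ (s, 0) a b) ≤ P₁ (s, 0)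
        rw [e]
        exact mix_le (hys s) fun b _ => hP1le _
      · have e : P₁ (s, 0) = f s := if_neg h
        push Not at h
        obtain ⟨_, h3, h4, _⟩ := hR s h.1 h.2
        change ∑ b ∈ G.act₂ s, ys s b * P₁ ((G.lift u).δ (s, 0) a b) ≤ P₁ (s, 0)
        rw [e]
        by_cases hxa : 0 < xs s a
        · refine le_trans (le_of_eq (Finset.sum_congr rfl fun b hb => ?_)) (h3 a ha hxa)
          rw [step0 s a b hxa, hP1c _ (hH s h.1 h.2 a ha b hb)]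
        · refine le_trans (le_of_eq (Finset.sum_congr rfl fun b hb => ?_)) (h4 a ha)
          rw [step0' s a b hxa]
          rfl
    · exact mix_le (hqy s) fun b _ => hP1le _
    · exact hcap1 s hs a ha
  · rintro ⟨s, m⟩ (hs : s ∉ T₂) b hb
    fin_cases m
    · by_cases h : s ∈ W₁ ∨ s ∈ W₂
      · have e : P₂ (s, 0) = 1 := if_pos h
        change ∑ a ∈ G.act₁ s, xs s a * P₂ ((G.lift u).δ (s, 0) a b) ≤ P₂ (s, 0)
        rw [e]
        exact mix_le (hxs s) fun b _ => hP2le _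
      · have e : P₂ (s, 0) = 1 - f s := if_neg h
        push Not at h
        obtain ⟨h2, _, _, _⟩ := hR s h.1 h.2
        change ∑ a ∈ G.act₁ s, xs s a * P₂ ((G.lift u).δ (s, 0) a b) ≤ P₂ (s, 0)
        rw [e]
        have h3 : ∑ a ∈ G.act₁ s, xs s a * P₂ ((G.lift u).δ (s, 0) a b) =
            ∑ a ∈ G.act₁ s, xs s a * (1 - f (G.δ s a b)) := by
          refine Finset.sum_congr rfl fun a ha => ?_
          rcases ((hxs s).1 a ha).lt_or_eq with hxa | hxa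
          · rw [step0 s a b hxa, hP2c _ (hH s h.1 h.2 a ha b hb)]
          · rw [← hxa]; simp
        rw [h3]
        simp only [mul_sub, mul_one, Finset.sum_sub_distrib, (hxs s).2]
        have := h2 b hb
        linarith
    · exact hcap2 s hs b hb
    · exact mix_le (hpx s) fun b _ => hP2le _
  · rw [hP1c s₀ hs₀H, hP2c s₀ hs₀H]
    linarith

theorem main_star [Finite S] (G : Game S A B) (T₁ T₂ : Set S) (s₀ : S)
    (h : (G.Stuck T₁ T₂ s₀ ∧ G.swap.Stuck T₂ T₁ s₀) ∨ G.NoDoublyStuck T₁ T₂ s₀) :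
    ∃ σ τ, G.IsNash T₁ T₂ s₀ σ τ := by
  by_cases hb : G.VisitsBoth T₁ T₂ s₀
  · exact path_case hb
  rcases h with h | h
  · exact zero_case h.1.1 (by rw [val₂_eq]; exact h.2.1)
  · exact star hb h

end Game

end Pool.Agent.H95.NE
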