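import Pool.Agent.H95.NE.Quasi

/-!
A stationary equilibrium if the values of the players add up to at least `1`.
-/

set_option autoImplicit false

open Finset Relation

namespace Pool.Agent.H95.NE

namespace Game

variable {S A B : Type*} {G : Game S A B} {T T₁ T₂ : Set S} {s₀ : S}

/-- The value is a least pre-fixed point: it cannot be lowered on a set `K` of states. -/
theorem lower [Finite S] {K : Set S} {y : S → B → ℝ} {M : ℝ} (hM : 0 < M)
    (hK : ∀ s ∈ K, s ∉ T ∧ G.L T s = M) (hy : ∀ s ∈ K, Mix (G.act₂ s) (y s))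
    (h : ∀ s ∈ K, ∀ a ∈ G.act₁ s, (∀ b ∈ G.act₂ s, 0 < y s b → G.δ s a b ∈ K) ∨
      ∑ b ∈ G.act₂ s, y s b * G.L T (G.δ s a b) < M) : ¬ K.Nonempty := by
  classical
  rintro ⟨s₁, hs₁⟩
  have hgap : ∀ s, ∃ η > 0, s ∈ K → ∀ a ∈ G.act₁ s,
      ∑ b ∈ G.act₂ s, y s b * G.L T (G.δ s a b) < M →
        ∑ b ∈ G.act₂ s, y s b * G.L T (G.δ s a b) ≤ M - η := by
    intro s
    obtain ⟨η, h1, h2⟩ := exists_gap (G.act₁ s)
      (fun a => ∑ b ∈ G.act₂ s, y s b * G.L T (G.δ s a b) < M)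
      (fun a => ∑ b ∈ G.act₂ s, y s b * G.L T (G.δ s a b)) M (fun a _ h => h)
    exact ⟨η, h1, fun _ => h2⟩
  choose η hη1 hη2 using hgap
  have : Nonempty S := ⟨s₁⟩
  obtain ⟨s₃, hs₃⟩ := Finite.exists_min η
  set e := min (η s₃) M with he
  have he0 : 0 < e := lt_min (hη1 s₃) hM
  have heM : e ≤ M := min_le_right _ _
  have heη : ∀ s, e ≤ η s := fun s => (min_le_left _ _).trans (hs₃ s)
  have hfle : ∀ s, (if s ∈ K then M - e else G.L T s) ≤ G.L T s := by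
    intro s
    split_ifs with hs
    · rw [(hK s hs).2]; linarith
    · exact le_rfl
  have hle := L_least (G := G) (T := T) (f := fun s => if s ∈ K then M - e else G.L T s)
    (fun s => by
      split_ifs
      · linarith
      · exact L_nonneg s) (fun s hs => by
      rw [if_neg fun h => (hK s h).1 hs, L_mem hs]) (fun s hs => by
      by_cases hsK : s ∈ K
      · refine ⟨y s, hy s hsK, fun a ha => ?_⟩
        simp only [if_pos hsK]
        rcases h s hsK a ha with h1 | h1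
        · have h5 : ∀ b ∈ G.act₂ s, y s b * (if G.δ s a b ∈ K then M - e else
              G.L T (G.δ s a b)) = y s b * (M - e) := by
            intro b hb
            rcases ((hy s hsK).1 b hb).lt_or_eq with hyb | hyb
            · rw [if_pos (h1 b hb hyb)]
            · rw [← hyb]; simp
          rw [Finset.sum_congr rfl h5, ← Finset.sum_mul, (hy s hsK).2, one_mul]
        · have h5 := hη2 s hsK a ha h1
          have h6 : ∑ b ∈ G.act₂ s, y s b * (if G.δ s a b ∈ K then M - e else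
              G.L T (G.δ s a b)) ≤ ∑ b ∈ G.act₂ s, y s b * G.L T (G.δ s a b) :=
            Finset.sum_le_sum fun b hb => mul_le_mul_of_nonneg_left (hfle _) ((hy s hsK).1 b hb)
          have := heη s
          linarith
      · obtain ⟨y', hy'⟩ := V_up (G.ne₁ s) (G.ne₂ s) fun a b => G.L T (G.δ s a b)
        rw [L_fix hs] at hy'
        refine ⟨y', hy'.1, fun a ha => ?_⟩
        simp only [if_neg hsK]
        exact (Finset.sum_le_sum fun b hb => mul_le_mul_of_nonneg_left (hfle _)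
          (hy'.1.1 b hb)).trans (hy'.2 a ha)) s₁
  simp only [if_pos hs₁] at hle
  rw [(hK s₁ hs₁).2] at hle
  linarith

theorem sumOne [Finite S] (hnb : ¬ G.VisitsBoth T₁ T₂ s₀)
    (hs : 1 ≤ G.val₁ T₁ s₀ + G.val₂ T₂ s₀) : ∃ σ τ, G.IsNash T₁ T₂ s₀ σ τ := by
  classical
  rw [val₂_eq, val₁_eq, val₁_eq] at hs
  set H : Set S := {s | ReflTransGen G.Step s₀ s} with hHdef
  have e2 : ∀ s t, ReflTransGen G.swap.Step s t → ReflTransGen G.Step s t :=
    fun s t h => ReflTransGen.mono (fun _ _ ⟨b, hb, a, ha, h⟩ => ⟨a, ha, b, hb, h⟩) _ _ h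
  have hT1 : ∀ s ∈ H, s ∈ T₁ → G.swap.L T₂ s = 0 := fun s hs h => L_unreach fun t ht ht2 =>
      hnb ⟨s, t, hs, e2 _ _ ht, Or.inl ⟨h, ht2⟩⟩
  have hT2 : ∀ s ∈ H, s ∈ T₂ → G.L T₁ s = 0 := fun s hs h => L_unreach fun t ht ht2 =>
      hnb ⟨s, t, hs, ht, Or.inr ⟨h, ht2⟩⟩
  have hH : ∀ s ∈ H, ∀ a ∈ G.act₁ s, ∀ b ∈ G.act₂ s, G.δ s a b ∈ H :=
    fun s hs a ha b hb => ReflTransGen.tail hs ⟨a, ha, b, hb, rfl⟩
  have hVN : ∀ s, s ∉ T₂ → V (G.act₁ s) (G.act₂ s) (fun a b => 1 - G.swap.L T₂ (G.δ s a b)) =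
      1 - G.swap.L T₂ s := by
    intro s h
    have h1 := V_compl (G.ne₂ s) (G.ne₁ s) fun b a => G.swap.L T₂ (G.δ s a b)
    have h2 := L_fix (G := G.swap) (T := T₂) (s := s) h
    rw [h1]
    rw [← h2]
    rfl
  have hle : ∀ s ∈ H, G.L T₁ s ≤ 1 - G.swap.L T₂ s := dom (W₁ := T₁) (W₂ := T₂)
    (fun s hs _ _ => hH s hs)
    (fun s _ => by have := L_le_one (G := G.swap) (T := T₂) s; linarith)
    (fun s hs h => by rw [hT1 s hs h]; norm_num) hT2 (fun _ _ h => h)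
    (fun s _ _ h2 => (hVN s h2).le)
  set Z : Set S := {s | s ∈ H ∧ G.L T₁ s = 1 - G.swap.L T₂ s} with hZ
  have hs₀ : s₀ ∈ Z := ⟨ReflTransGen.refl, by
    have := hle s₀ ReflTransGen.refl
    linarith⟩
  obtain ⟨_, py, _, hpy, hcap1, _⟩ := pathPair G T₁ T₂
  obtain ⟨_, qx, _, hqx, hcap2, _⟩ := pathPair G.swap T₂ T₁
  have hxy : ∀ s, ∃ x y, Mix (G.act₁ s) x ∧ Mix (G.act₂ s) y ∧
      (s ∉ T₁ → ∀ a ∈ G.act₁ s, ∑ b ∈ G.act₂ s, y b * G.L T₁ (G.δ s a b) ≤ G.L T₁ s) ∧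
      (s ∉ T₂ → ∀ b ∈ G.act₂ s,
        ∑ a ∈ G.act₁ s, x a * G.swap.L T₂ (G.δ s a b) ≤ G.swap.L T₂ s) ∧
      (s ∈ Z → s ∉ T₁ → s ∉ T₂ → (∀ a ∈ G.act₁ s, ∀ b ∈ G.act₂ s, 0 < x a → 0 < y b →
        G.δ s a b ∈ Z) ∧
        (0 < G.L T₁ s → ∀ a ∈ G.act₁ s, 0 < x a ∨
          ∑ b ∈ G.act₂ s, y b * G.L T₁ (G.δ s a b) < G.L T₁ s) ∧
        (G.L T₁ s = 0 → ∀ b ∈ G.act₂ s, 0 < y b ∨
          ∑ a ∈ G.act₁ s, x a * G.swap.L T₂ (G.δ s a b) < G.swap.L T₂ s)) := by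
    intro s
    by_cases hZs : s ∈ Z ∧ s ∉ T₁ ∧ s ∉ T₂
    swap
    · exact ⟨qx s, py s, hqx s, hpy s, fun h => hcap1 s h, fun h => hcap2 s h,
        fun h1 h2 h3 => absurd ⟨h1, h2, h3⟩ hZs⟩
    obtain ⟨hZs, h1, h2⟩ := hZs
    have hPN : ∀ a ∈ G.act₁ s, ∀ b ∈ G.act₂ s,
        G.L T₁ (G.δ s a b) ≤ 1 - G.swap.L T₂ (G.δ s a b) := fun a ha b hb =>
      hle _ (hH s hZs.1 a ha b hb)
    obtain ⟨xP, hxP⟩ := V_lo (G.ne₁ s) (G.ne₂ s) fun a b => G.L T₁ (G.δ s a b)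
    obtain ⟨yP, hyP⟩ := V_up (G.ne₁ s) (G.ne₂ s) fun a b => G.L T₁ (G.δ s a b)
    rw [L_fix h1] at hxP hyP
    obtain ⟨xN, hxN⟩ := V_lo (G.ne₁ s) (G.ne₂ s) fun a b => 1 - G.swap.L T₂ (G.δ s a b)
    obtain ⟨yN, hyN⟩ := V_up (G.ne₁ s) (G.ne₂ s) fun a b => 1 - G.swap.L T₂ (G.δ s a b)
    rw [hVN s h2, ← hZs.2] at hxN hyN
    have hcapN : ∀ x : A → ℝ, LoG (G.act₁ s) (G.act₂ s)
        (fun a b => 1 - G.swap.L T₂ (G.δ s a b)) x (G.L T₁ s) → ∀ b ∈ G.act₂ s,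
        ∑ a ∈ G.act₁ s, x a * G.swap.L T₂ (G.δ s a b) ≤ G.swap.L T₂ s := by
      intro x hx b hb
      have h3 := hx.2 b hb
      simp only [mul_sub, mul_one, Finset.sum_sub_distrib, hx.1.2] at h3
      have := hZs.2
      linarith
    by_cases hpos : 0 < G.L T₁ s
    · obtain ⟨x, y, h3, h4, h5, h6⟩ := quasi hPN ⟨xP, hxP⟩ ⟨yN, hyN⟩
      exact ⟨x, y, h3.1, h4.1, fun _ => h4.2, fun _ => hcapN x h3, fun _ _ _ =>
        ⟨fun a ha b hb hxa hyb => ⟨hH s hZs.1 a ha b hb, h5 a ha b hb hxa hyb⟩,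
          fun _ => h6, fun h => absurd h hpos.ne'⟩⟩
    · have h0 : G.L T₁ s = 0 := le_antisymm (not_lt.1 hpos) (L_nonneg s)
      obtain ⟨y, x, h3, h4, h5, h6⟩ := quasi (F := G.act₂ s) (E := G.act₁ s)
        (P := fun b a => - (1 - G.swap.L T₂ (G.δ s a b))) (N := fun b a => - G.L T₁ (G.δ s a b))
        (v := - G.L T₁ s) (fun b hb a ha => neg_le_neg (hPN a ha b hb))
        ⟨yN, upG_neg.1 hyN⟩ ⟨xP, loG_neg.1 hxP⟩
      have h3' := upG_neg.2 h3
      have h4' := loG_neg.2 h4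
      refine ⟨x, y, h4'.1, h3'.1, fun _ => h3'.2, fun _ => hcapN x h4', fun _ _ _ =>
        ⟨fun a ha b hb hxa hyb => ⟨hH s hZs.1 a ha b hb,
          (neg_injective (h5 b hb a ha hyb hxa)).symm⟩,
          fun h => absurd h hpos, fun _ b hb => (h6 b hb).imp id fun h => ?_⟩⟩
      simp only [mul_neg, mul_sub, mul_one, Finset.sum_sub_distrib, Finset.sum_neg_distrib,
        h4'.1.2] at h
      have := hZs.2
      linarith
  choose x y hx hy hc1 hc2 hxy using hxy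
  have hreach : ∀ s ∈ Z, ∃ t ∈ T₁ ∪ T₂, ReflTransGen (G.PStep x y) s t := by
    by_contra hcon
    push Not at hcon
    set D : Set S := {s | s ∈ Z ∧ ∀ t ∈ T₁ ∪ T₂, ¬ ReflTransGen (G.PStep x y) s t} with hD
    obtain ⟨s₂, hs₂⟩ := hcon
    obtain ⟨s₁, hs₁, hmax⟩ := Set.exists_max_image D (G.L T₁) (Set.toFinite D) ⟨s₂, hs₂⟩
    have hD1 : ∀ s ∈ D, s ∉ T₁ := fun s hs h => hs.2 s (Or.inl h) ReflTransGen.refl
    have hD2 : ∀ s ∈ D, s ∉ T₂ := fun s hs h => hs.2 s (Or.inr h) ReflTransGen.refl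
    have hDc : ∀ s ∈ D, ∀ a ∈ G.act₁ s, ∀ b ∈ G.act₂ s, 0 < x s a → 0 < y s b →
        G.δ s a b ∈ D := fun s hs a ha b hb hxa hyb =>
      ⟨(hxy s hs.1 (hD1 s hs) (hD2 s hs)).1 a ha b hb hxa hyb, fun t ht h' =>
        hs.2 t ht (ReflTransGen.head ⟨a, ha, b, hb, hxa, hyb, rfl⟩ h')⟩
    -- at the maximum the supports stay at the maximum
    have hbal : ∀ s ∈ D, ∀ a ∈ G.act₁ s, ∀ b ∈ G.act₂ s, 0 < x s a → 0 < y s b →
        G.L T₁ s = G.L T₁ s₁ → G.L T₁ (G.δ s a b) = G.L T₁ s₁ := by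
      intro s hs a ha b hb hxa hyb hsM
      refine dsum_eq (hx s) (hy s) (f := fun a b => G.L T₁ (G.δ s a b)) (c := G.L T₁ s₁)
        (fun a ha b hb h1 h2 => hmax _ (hDc s hs a ha b hb h1 h2)) ?_ ha hb hxa hyb
      -- the average of `1 - v₂` is at least `v₁ s`, and it is equal to `v₁` on the supports
      have h1 : ∑ a ∈ G.act₁ s, ∑ b ∈ G.act₂ s, x s a * y s b * G.L T₁ (G.δ s a b) =
          ∑ a ∈ G.act₁ s, ∑ b ∈ G.act₂ s, x s a * y s b *
            (1 - G.swap.L T₂ (G.δ s a b)) := by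
        refine Finset.sum_congr rfl fun a ha => Finset.sum_congr rfl fun b hb => ?_
        rcases ((hx s).1 a ha).lt_or_eq with hxa | hxa
        · rcases ((hy s).1 b hb).lt_or_eq with hyb | hyb
          · rw [((hxy s hs.1 (hD1 s hs) (hD2 s hs)).1 a ha b hb hxa hyb).2]
          · rw [← hyb]; simp
        · rw [← hxa]; simp
      rw [h1, dsum', ← hsM]
      refine le_mix (hy s) fun b hb => ?_
      have h2 := hc2 s (hD2 s hs) b hb
      simp only [mul_sub, mul_one, Finset.sum_sub_distrib, (hx s).2]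
      have := hs.1.2
      linarith
    rcases (L_nonneg (G := G) (T := T₁) s₁).lt_or_eq with hpos | h0
    · refine lower (G := G) (T := T₁) (K := {s | s ∈ D ∧ G.L T₁ s = G.L T₁ s₁}) (y := y) hpos
        (fun s hs => ⟨hD1 s hs.1, hs.2⟩) (fun s _ => hy s) (fun s hs a ha => ?_)
        ⟨s₁, hs₁, rfl⟩
      rcases (hxy s hs.1.1 (hD1 s hs.1) (hD2 s hs.1)).2.1 (by rw [hs.2]; exact hpos) a ha with
        hxa | h
      · left
        exact fun b hb hyb => ⟨hDc s hs.1 a ha b hb hxa hyb,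
          hbal s hs.1 a ha b hb hxa hyb hs.2⟩
      · right
        rw [hs.2] at h
        exact h
    · have hz : ∀ s ∈ D, G.L T₁ s = 0 := fun s hs =>
        le_antisymm (by rw [h0]; exact hmax s hs) (L_nonneg s)
      refine lower (G := G.swap) (T := T₂) (K := D) (y := x) one_pos
        (fun s hs => ⟨hD2 s hs, ?_⟩) (fun s _ => hx s) (fun s hs b hb => ?_) ⟨s₁, hs₁⟩
      · have h1 := hs.1.2
        rw [hz s hs] at h1
        linarith
      · rcases (hxy s hs.1 (hD1 s hs) (hD2 s hs)).2.2 (hz s hs) b hb with hyb | h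
        · left
          exact fun a ha hxa => hDc s hs a ha b hb hxa hyb
        · right
          have h1 := hs.1.2
          rw [hz s hs] at h1
          have h2 : G.swap.L T₂ s = 1 := by linarith
          rw [h2] at h
          exact h
  refine ⟨_, _, verify hx hy (P₁ := G.L T₁) (P₂ := G.swap.L T₂) L_nonneg
    (fun s => L_nonneg (G := G.swap) s) (fun s hs => (L_mem hs).ge)
    (fun s hs => (L_mem (G := G.swap) hs).ge) hc1 hc2 ?_ hs₀ (fun s hs hsT s' h => ?_) hreach⟩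
  · have := hs₀.2
    linarith
  · obtain ⟨a, ha, b, hb, hxa, hyb, rfl⟩ := h
    exact (hxy s hs (fun h => hsT (Or.inl h)) (fun h => hsT (Or.inr h))).1 a ha b hb hxa hyb

end Game

end Pool.Agent.H95.NE
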