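import Pool.Agent.H95.NE.Pairs

/-!
An equilibrium if no doubly stuck state is reached through undecided states.
-/

set_option autoImplicit false

open Finset Relation

namespace Pool.Agent.H95.NE

namespace Game

variable {S A B : Type*} (G : Game S A B)

/-- `s` is decided: the values of the players at `s` add up to at least `1`, or for one of the players
no stuck state is reached from `s` by tight moves. -/
def Decided (T₁ T₂ : Set S) (s : S) : Prop :=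
  1 ≤ G.val₁ T₁ s + G.val₂ T₂ s ∨ G.NoStuck T₁ T₂ s ∨ G.swap.NoStuck T₂ T₁ s

/-- A move with available actions from a state which is not decided. -/
def UndStep (T₁ T₂ : Set S) (s s' : S) : Prop := ¬ G.Decided T₁ T₂ s ∧ G.Step s s'

/-- `s` is stuck for both players. -/
def DStuck (T₁ T₂ : Set S) (s : S) : Prop := G.Stuck T₁ T₂ s ∧ G.swap.Stuck T₂ T₁ s

variable {G} {T₁ T₂ : Set S} {s₀ : S}

theorem noStuck_of_zero {s : S} (h0 : G.val₁ T₁ s = 0) (h : ¬ G.Stuck T₁ T₂ s) :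
    G.NoStuck T₁ T₂ s := by
  intro s' hs'
  rcases ReflTransGen.cases_head hs' with rfl | ⟨t, ht, _⟩
  · exact h
  · have := ht.2.2.1
    rw [h0] at this
    exact absurd this (lt_irrefl _)

theorem e2 (s t : S) (h : ReflTransGen G.swap.Step s t) : ReflTransGen G.Step s t :=
  ReflTransGen.mono (fun _ _ ⟨b, hb, a, ha, h⟩ => ⟨a, ha, b, hb, h⟩) _ _ h

theorem capg [Finite S] {H : Set S}
    (hH : ∀ s ∈ H, ∀ a ∈ G.act₁ s, ∀ b ∈ G.act₂ s, G.δ s a b ∈ H)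
    (h12 : ∀ s ∈ H, ∀ t, ReflTransGen G.Step s t → s ∈ T₁ → t ∉ T₂)
    (h21 : ∀ s ∈ H, ∀ t, ReflTransGen G.Step s t → s ∈ T₂ → t ∉ T₁)
    {x : S → A → ℝ} (hx : ∀ s, Mix (G.act₁ s) (x s))
    (hxL : ∀ s, s ∉ T₁ → ∀ b ∈ G.act₂ s, G.L T₁ s ≤ ∑ a ∈ G.act₁ s, x s a * G.L T₁ (G.δ s a b)) :
    ∃ g : S → ℝ, (∀ s, 0 ≤ g s) ∧ (∀ s, g s ≤ 1) ∧ (∀ s ∈ T₂, 1 ≤ g s) ∧
      (∀ s ∈ H, g s ≤ 1 - G.L T₁ s) ∧
      ∀ s, s ∉ T₂ → ∀ b ∈ G.act₂ s, ∑ a ∈ G.act₁ s, x s a * g (G.δ s a b) ≤ g s := by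
  classical
  set g : S → ℝ := fun s => if s ∈ H then (if ∃ t ∈ T₂, ReflTransGen G.Step s t then
    1 - G.L T₁ s else 0) else 1 with hg
  have hg0 : ∀ s, 0 ≤ g s := by
    intro s
    have := L_le_one (G := G) (T := T₁) s
    simp only [hg]
    split_ifs <;> linarith
  have hg1 : ∀ s, g s ≤ 1 := by
    intro s
    have := L_nonneg (G := G) (T := T₁) s
    simp only [hg]
    split_ifs <;> linarith
  have hgH : ∀ s ∈ H, g s ≤ 1 - G.L T₁ s := by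
    intro s hs
    have := L_le_one (G := G) (T := T₁) s
    simp only [hg, if_pos hs]
    split_ifs <;> linarith
  refine ⟨g, hg0, hg1, fun s hs => ?_, hgH, fun s hsT b hb => ?_⟩
  · by_cases hsH : s ∈ H
    · have h1 : ∃ t ∈ T₂, ReflTransGen G.Step s t := ⟨s, hs, ReflTransGen.refl⟩
      simp only [hg, if_pos hsH, if_pos h1]
      rw [L_unreach fun t ht => h21 s hsH t ht hs]
      norm_num
    · simp only [hg, if_neg hsH, le_refl]
  · by_cases hsH : s ∈ H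
    · by_cases hr : ∃ t ∈ T₂, ReflTransGen G.Step s t
      · have hs1 : s ∉ T₁ := fun h => by
          obtain ⟨t, ht, h'⟩ := hr
          exact h12 s hsH t h' h ht
        have e : g s = 1 - G.L T₁ s := by simp only [hg, if_pos hsH, if_pos hr]
        rw [e]
        have h1 := hxL s hs1 b hb
        have h2 : ∑ a ∈ G.act₁ s, x s a * g (G.δ s a b) ≤
            ∑ a ∈ G.act₁ s, x s a * (1 - G.L T₁ (G.δ s a b)) :=
          Finset.sum_le_sum fun a ha => mul_le_mul_of_nonneg_left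
            (hgH _ (hH s hsH a ha b hb)) ((hx s).1 a ha)
        have h3 : ∑ a ∈ G.act₁ s, x s a * (1 - G.L T₁ (G.δ s a b)) =
            1 - ∑ a ∈ G.act₁ s, x s a * G.L T₁ (G.δ s a b) := by
          simp only [mul_sub, mul_one, Finset.sum_sub_distrib, (hx s).2]
        linarith
      · refine (Finset.sum_eq_zero fun a ha => ?_).le.trans (hg0 s)
        have h1 : ¬ ∃ t ∈ T₂, ReflTransGen G.Step (G.δ s a b) t := by
          rintro ⟨t, ht, h'⟩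
          exact hr ⟨t, ht, ReflTransGen.head ⟨a, ha, b, hb, rfl⟩ h'⟩
        simp only [hg, if_pos (hH s hsH a ha b hb), if_neg h1, mul_zero]
    · have e : g s = 1 := by simp only [hg, if_neg hsH]
      rw [e]
      exact mix_le (hx s) fun a _ => hg1 _

theorem undec_aux [Finite S] (hnb : ¬ G.VisitsBoth T₁ T₂ s₀)
    (hds : ∀ s, ReflTransGen (G.UndStep T₁ T₂) s₀ s → ¬ G.DStuck T₁ T₂ s) :
    ∃ σ τ, G.IsNash T₁ T₂ s₀ σ τ := by
  classical
  have : Nonempty S := ⟨s₀⟩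
  have hv1 : ∀ s, G.val₁ T₁ s = G.L T₁ s := fun s => val₁_eq s
  have hv2 : ∀ s, G.swap.val₁ T₂ s = G.swap.L T₂ s := fun s => val₁_eq s
  have hv2' : ∀ s, G.val₂ T₂ s = G.swap.L T₂ s := fun s => by rw [val₂_eq, hv2]
  set HH : Set S := {s | ReflTransGen G.Step s₀ s} with hHH
  set H : Set S := {s | ReflTransGen (G.UndStep T₁ T₂) s₀ s} with hHdef
  have hHsub : ∀ s ∈ H, s ∈ HH := fun s h => ReflTransGen.mono (fun _ _ h => h.2) _ _ h
  set W₂ : Set S := {s | s ∉ H} with hW₂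
  set W₁ : Set S := {s | s ∈ H ∧ G.Decided T₁ T₂ s} with hW₁
  obtain ⟨hle, x3, y3, hx3, hy3, hc31, hc32, hcl3, hre3⟩ := zPair G T₁ T₂ s₀ hnb
  obtain ⟨x1, y1, hx1, hy1, hcx1, hcy1, hcl1, hre1⟩ := corePair G T₁ T₂
  obtain ⟨y2, x2, hy2, hx2, hcy2, hcx2, hcl2, hre2⟩ := corePair G.swap T₂ T₁
  have hHHc : ∀ s ∈ HH, ∀ a ∈ G.act₁ s, ∀ b ∈ G.act₂ s, G.δ s a b ∈ HH :=
    fun s hs a ha b hb => ReflTransGen.tail hs ⟨a, ha, b, hb, rfl⟩
  obtain ⟨g2, hg20, hg21, hg2T, hg2H, hg2x⟩ := capg (G := G) (T₁ := T₁) (T₂ := T₂) (H := HH)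
    hHHc (fun s hs t ht h1 h2 => hnb ⟨s, t, hs, ht, Or.inl ⟨h1, h2⟩⟩)
    (fun s hs t ht h1 h2 => hnb ⟨s, t, hs, ht, Or.inr ⟨h1, h2⟩⟩) hx1 hcx1
  obtain ⟨g1, hg10, hg11, hg1T, hg1H, hg1y⟩ := capg (G := G.swap) (T₁ := T₂) (T₂ := T₁) (H := HH)
    (fun s hs b hb a ha => hHHc s hs a ha b hb)
    (fun s hs t ht h1 h2 => hnb ⟨s, t, hs, e2 _ _ ht, Or.inr ⟨h1, h2⟩⟩)
    (fun s hs t ht h1 h2 => hnb ⟨s, t, hs, e2 _ _ ht, Or.inl ⟨h1, h2⟩⟩) hy2 hcy2
  set c : S → ℝ := fun s => if ¬ G.NoStuck T₁ T₂ s ∧ G.swap.NoStuck T₂ T₁ s then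
    1 - G.swap.L T₂ s else G.L T₁ s with hc
  have hc0 : ∀ s, 0 ≤ c s := by
    intro s
    have h1 := L_nonneg (G := G) (T := T₁) s
    have h2 := L_le_one (G := G.swap) (T := T₂) s
    simp only [hc]
    split_ifs <;> linarith
  have hc1 : ∀ s, c s ≤ 1 := by
    intro s
    have h1 := L_le_one (G := G) (T := T₁) s
    have h2 := L_nonneg (G := G.swap) (T := T₂) s
    simp only [hc]
    split_ifs <;> linarith
  have hcl : ∀ s ∈ H, G.L T₁ s ≤ c s := by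
    intro s hs
    have h1 := hle s (hHsub s hs)
    simp only [hc]
    split_ifs <;> linarith
  have hcl' : ∀ s ∈ H, G.swap.L T₂ s ≤ 1 - c s := by
    intro s hs
    have h1 := hle s (hHsub s hs)
    simp only [hc]
    split_ifs <;> linarith
  have hT : ∀ s ∈ H, s ∈ T₁ → s ∈ W₁ := fun s hs h => ⟨hs, Or.inl (by
    rw [hv1, hv2', L_mem h]
    have := L_nonneg (G := G.swap) (T := T₂) s
    linarith)⟩
  have hT' : ∀ s ∈ H, s ∈ T₂ → s ∈ W₁ := fun s hs h => ⟨hs, Or.inl (by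
    rw [hv1, hv2', L_mem (G := G.swap) h]
    have := L_nonneg (G := G) (T := T₁) s
    linarith)⟩
  have hRH : ∀ s, s ∉ W₂ → s ∈ H := fun s h => not_not.1 h
  have hnd : ∀ s, s ∉ W₁ → s ∉ W₂ → ¬ G.Decided T₁ T₂ s := fun s h1 h2 h => h1 ⟨hRH s h2, h⟩
  have hH : ∀ s, s ∉ W₁ → s ∉ W₂ → ∀ a ∈ G.act₁ s, ∀ b ∈ G.act₂ s, G.δ s a b ∈ H :=
    fun s h1 h2 a ha b hb => ReflTransGen.tail (hRH s h2) ⟨hnd s h1 h2, a, ha, b, hb, rfl⟩
  have hpos : ∀ s, s ∉ W₁ → s ∉ W₂ → G.L T₁ s = 0 → 0 < G.swap.L T₂ s := by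
    intro s h1 h2 h3
    rcases (L_nonneg (G := G.swap) (T := T₂) s).lt_or_eq with h | h
    · exact h
    exfalso
    have h4 := hnd s h1 h2
    refine hds s (hRH s h2) ⟨?_, ?_⟩
    · by_contra h5
      exact h4 (Or.inr (Or.inl (noStuck_of_zero (by rw [hv1]; exact h3) h5)))
    · by_contra h5
      exact h4 (Or.inr (Or.inr (noStuck_of_zero (G := G.swap) (by rw [hv2]; exact h.symm) h5)))
  obtain ⟨f, xs, ys, r, hf0, hf1, hfc, hxs, hys, hR⟩ :=
    phaseC (W₁ := W₁) (W₂ := W₂) (T := T₁) (T' := T₂) hc0 hc1 hH (fun s hs => hs)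
      (fun s hs h => Or.inl (hT s hs h)) (fun s hs _ => hcl s hs)
      (fun s hs h => Or.inr (hT' s hs h)) (fun s hs _ => hcl' s hs) hpos
  let cls : S → Fin 4 := fun s => if s ∈ W₁ then
    (if G.NoStuck T₁ T₂ s then 1 else if G.swap.NoStuck T₂ T₁ s then 2 else 3) else 0
  let u : Fin 4 → S → A → B → Fin 4 :=
    ![fun s a b => if 0 < xs s a then cls (G.δ s a b) else 1, fun _ _ _ => 1, fun _ _ _ => 2,
      fun _ _ _ => 3]
  let x4 : S × Fin 4 → A → ℝ := fun p => ![xs p.1, x1 p.1, x2 p.1, x3 p.1] p.2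
  let y4 : S × Fin 4 → B → ℝ := fun p => ![ys p.1, y1 p.1, y2 p.1, y3 p.1] p.2
  let P₁ : S × Fin 4 → ℝ := fun p =>
    ![if p.1 ∈ W₁ ∨ p.1 ∈ W₂ then 1 else f p.1, G.L T₁ p.1, g1 p.1, G.L T₁ p.1] p.2
  let P₂ : S × Fin 4 → ℝ := fun p =>
    ![if p.1 ∈ W₁ ∨ p.1 ∈ W₂ then 1 else 1 - f p.1, g2 p.1, G.swap.L T₂ p.1,
      G.swap.L T₂ p.1] p.2
  have c0 : ∀ s, s ∉ W₁ → cls s = 0 := fun s hs => if_neg hs
  have c1 : ∀ s ∈ W₁, G.NoStuck T₁ T₂ s → cls s = 1 := fun s hs h => by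
    simp only [cls, if_pos hs, if_pos h]
  have c2 : ∀ s ∈ W₁, ¬ G.NoStuck T₁ T₂ s → G.swap.NoStuck T₂ T₁ s → cls s = 2 :=
    fun s hs h h' => by simp only [cls, if_pos hs, if_neg h, if_pos h']
  have c3 : ∀ s ∈ W₁, ¬ G.NoStuck T₁ T₂ s → ¬ G.swap.NoStuck T₂ T₁ s → cls s = 3 :=
    fun s hs h h' => by simp only [cls, if_pos hs, if_neg h, if_neg h']
  have hZ : ∀ s ∈ W₁, ¬ G.NoStuck T₁ T₂ s → ¬ G.swap.NoStuck T₂ T₁ s →
      G.L T₁ s = 1 - G.swap.L T₂ s := by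
    intro s hs h h'
    have h1 : 1 ≤ G.val₁ T₁ s + G.val₂ T₂ s := hs.2.resolve_right fun h'' => h''.elim h h'
    rw [hv1, hv2'] at h1
    have := hle s (hHsub s hs.1)
    linarith
  have hx4 : ∀ p, Mix ((G.lift u).act₁ p) (x4 p) := by
    rintro ⟨s, m⟩
    fin_cases m
    · exact hxs s
    · exact hx1 s
    · exact hx2 s
    · exact hx3 s
  have hy4 : ∀ p, Mix ((G.lift u).act₂ p) (y4 p) := by
    rintro ⟨s, m⟩
    fin_cases m
    · exact hys s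
    · exact hy1 s
    · exact hy2 s
    · exact hy3 s
  have hP10 : ∀ p, 0 ≤ P₁ p := by
    rintro ⟨s, m⟩
    fin_cases m
    · change (0 : ℝ) ≤ if s ∈ W₁ ∨ s ∈ W₂ then 1 else f s
      split_ifs
      · norm_num
      · exact hf0 s
    · exact L_nonneg (G := G) s
    · exact hg10 s
    · exact L_nonneg (G := G) s
  have hP20 : ∀ p, 0 ≤ P₂ p := by
    rintro ⟨s, m⟩
    fin_cases m
    · change (0 : ℝ) ≤ if s ∈ W₁ ∨ s ∈ W₂ then 1 else 1 - f s
      split_ifs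
      · norm_num
      · have := hf1 s; linarith
    · exact hg20 s
    · exact L_nonneg (G := G.swap) s
    · exact L_nonneg (G := G.swap) s
  have hP1le : ∀ p, P₁ p ≤ 1 := by
    rintro ⟨s, m⟩
    fin_cases m
    · change (if s ∈ W₁ ∨ s ∈ W₂ then (1 : ℝ) else f s) ≤ 1
      split_ifs
      · norm_num
      · exact hf1 s
    · exact L_le_one (G := G) s
    · exact hg11 s
    · exact L_le_one (G := G) s
  have hP2le : ∀ p, P₂ p ≤ 1 := by
    rintro ⟨s, m⟩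
    fin_cases m
    · change (if s ∈ W₁ ∨ s ∈ W₂ then (1 : ℝ) else 1 - f s) ≤ 1
      split_ifs
      · norm_num
      · have := hf0 s; linarith
    · exact hg21 s
    · exact L_le_one (G := G.swap) s
    · exact L_le_one (G := G.swap) s
  have hP1c : ∀ s ∈ H, P₁ (s, cls s) ≤ f s := by
    intro s hs
    by_cases h1 : s ∈ W₁
    · have hfs := hfc s (Or.inl h1)
      by_cases h2 : G.NoStuck T₁ T₂ s
      · rw [c1 s h1 h2, hfs]
        simp only [hc, if_neg fun h : ¬ G.NoStuck T₁ T₂ s ∧ G.swap.NoStuck T₂ T₁ s => h.1 h2]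
        exact le_rfl
      by_cases h3 : G.swap.NoStuck T₂ T₁ s
      · rw [c2 s h1 h2 h3, hfs]
        simp only [hc, if_pos (And.intro h2 h3)]
        exact hg1H s (hHsub s hs)
      · rw [c3 s h1 h2 h3, hfs]
        simp only [hc, if_neg fun h : ¬ G.NoStuck T₁ T₂ s ∧ G.swap.NoStuck T₂ T₁ s => h3 h.2]
        exact le_rfl
    · rw [c0 s h1]
      exact (if_neg fun h => h.elim h1 fun h => h hs : P₁ (s, 0) = f s).le
  have hP2c : ∀ s ∈ H, P₂ (s, cls s) ≤ 1 - f s := by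
    intro s hs
    by_cases h1 : s ∈ W₁
    · have hfs := hfc s (Or.inl h1)
      by_cases h2 : G.NoStuck T₁ T₂ s
      · rw [c1 s h1 h2, hfs]
        simp only [hc, if_neg fun h : ¬ G.NoStuck T₁ T₂ s ∧ G.swap.NoStuck T₂ T₁ s => h.1 h2]
        exact hg2H s (hHsub s hs)
      by_cases h3 : G.swap.NoStuck T₂ T₁ s
      · rw [c2 s h1 h2 h3, hfs]
        simp only [hc, if_pos (And.intro h2 h3)]
        change G.swap.L T₂ s ≤ _
        linarith
      · rw [c3 s h1 h2 h3, hfs]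
        simp only [hc, if_neg fun h : ¬ G.NoStuck T₁ T₂ s ∧ G.swap.NoStuck T₂ T₁ s => h3 h.2]
        change G.swap.L T₂ s ≤ _
        have := hZ s h1 h2 h3
        linarith
    · rw [c0 s h1]
      exact (if_neg fun h => h.elim h1 fun h => h hs : P₂ (s, 0) = 1 - f s).le
  have hs₀H : s₀ ∈ H := ReflTransGen.refl
  let X : Set (S × Fin 4) := {p | (p.2 = 0 ∧ p.1 ∉ W₁ ∧ p.1 ∉ W₂) ∨
    (p.2 = 1 ∧ G.NoStuck T₁ T₂ p.1) ∨ (p.2 = 2 ∧ G.swap.NoStuck T₂ T₁ p.1) ∨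
    (p.2 = 3 ∧ p.1 ∈ HH ∧ G.L T₁ p.1 = 1 - G.swap.L T₂ p.1)}
  have hXc : ∀ s ∈ H, (s, cls s) ∈ X := by
    intro s hs
    by_cases h1 : s ∈ W₁
    · by_cases h2 : G.NoStuck T₁ T₂ s
      · rw [c1 s h1 h2]
        exact Or.inr (Or.inl ⟨rfl, h2⟩)
      by_cases h3 : G.swap.NoStuck T₂ T₁ s
      · rw [c2 s h1 h2 h3]
        exact Or.inr (Or.inr (Or.inl ⟨rfl, h3⟩))
      · rw [c3 s h1 h2 h3]
        exact Or.inr (Or.inr (Or.inr ⟨rfl, hHsub s hs, hZ s h1 h2 h3⟩))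
    · rw [c0 s h1]
      exact Or.inl ⟨rfl, h1, fun h => h hs⟩
  have step0 : ∀ s a b, 0 < xs s a → (G.lift u).δ (s, 0) a b = (G.δ s a b, cls (G.δ s a b)) :=
    fun s a b h => Prod.ext rfl (if_pos h)
  have step0' : ∀ s a b, ¬ 0 < xs s a → (G.lift u).δ (s, 0) a b = (G.δ s a b, 1) :=
    fun s a b h => Prod.ext rfl (if_neg h)
  have hXstep : ∀ p ∈ X, p ∉ Prod.fst ⁻¹' T₁ ∪ Prod.fst ⁻¹' T₂ → ∀ p',
      (G.lift u).PStep x4 y4 p p' → p' ∈ X := by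
    rintro ⟨s, m⟩ hs hsT p' ⟨a, ha, b, hb, hxa, hyb, rfl⟩
    rcases hs with ⟨h, h1, h2⟩ | ⟨h, h1⟩ | ⟨h, h1⟩ | ⟨h, h1, h2⟩
    · simp only at h h1 h2
      subst h
      rw [step0 s a b hxa]
      exact hXc _ (hH s h1 h2 a ha b hb)
    · simp only at h h1
      subst h
      exact Or.inr (Or.inl ⟨rfl, hcl1 s h1 hsT _ ⟨a, ha, b, hb, hxa, hyb, rfl⟩⟩)
    · simp only at h h1
      subst h
      exact Or.inr (Or.inr (Or.inl ⟨rfl, hcl2 s h1 (fun h => hsT h.symm) _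
        ⟨b, hb, a, ha, hyb, hxa, rfl⟩⟩))
    · simp only at h h1 h2
      subst h
      exact Or.inr (Or.inr (Or.inr ⟨rfl, hHHc s h1 a ha b hb,
        hcl3 s h1 h2 hsT _ ⟨a, ha, b, hb, hxa, hyb, rfl⟩⟩))
  have hreach1 : ∀ s, G.NoStuck T₁ T₂ s →
      ∃ t ∈ Prod.fst ⁻¹' T₁ ∪ Prod.fst ⁻¹' T₂, ReflTransGen ((G.lift u).PStep x4 y4) (s, 1) t := by
    intro s hs
    obtain ⟨t, ht, h⟩ := hre1 s hs
    refine ⟨(t, 1), ht, ReflTransGen.lift (fun s => (s, (1 : Fin 4))) ?_ _ _ h⟩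
    rintro s s' ⟨a, ha, b, hb, hxa, hyb, rfl⟩
    exact ⟨a, ha, b, hb, hxa, hyb, rfl⟩
  have hreach2 : ∀ s, G.swap.NoStuck T₂ T₁ s →
      ∃ t ∈ Prod.fst ⁻¹' T₁ ∪ Prod.fst ⁻¹' T₂, ReflTransGen ((G.lift u).PStep x4 y4) (s, 2) t := by
    intro s hs
    obtain ⟨t, ht, h⟩ := hre2 s hs
    refine ⟨(t, 2), ht.symm, ReflTransGen.lift (fun s => (s, (2 : Fin 4))) ?_ _ _ h⟩
    rintro s s' ⟨b, hb, a, ha, hyb, hxa, rfl⟩
    exact ⟨a, ha, b, hb, hxa, hyb, rfl⟩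
  have hreach3 : ∀ s ∈ HH, G.L T₁ s = 1 - G.swap.L T₂ s →
      ∃ t ∈ Prod.fst ⁻¹' T₁ ∪ Prod.fst ⁻¹' T₂, ReflTransGen ((G.lift u).PStep x4 y4) (s, 3) t := by
    intro s hs hs'
    obtain ⟨t, ht, h⟩ := hre3 s hs hs'
    refine ⟨(t, 3), ht, ReflTransGen.lift (fun s => (s, (3 : Fin 4))) ?_ _ _ h⟩
    rintro s s' ⟨a, ha, b, hb, hxa, hyb, rfl⟩
    exact ⟨a, ha, b, hb, hxa, hyb, rfl⟩
  have hreach0 : ∀ n, ∀ s ∈ H, r s = n →
      ∃ t ∈ Prod.fst ⁻¹' T₁ ∪ Prod.fst ⁻¹' T₂,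
        ReflTransGen ((G.lift u).PStep x4 y4) (s, cls s) t := by
    intro n
    induction n using Nat.strong_induction_on with
    | _ n ih =>
      intro s hs hn
      by_cases h1 : s ∈ W₁
      · by_cases h2 : G.NoStuck T₁ T₂ s
        · rw [c1 s h1 h2]
          exact hreach1 s h2
        by_cases h3 : G.swap.NoStuck T₂ T₁ s
        · rw [c2 s h1 h2 h3]
          exact hreach2 s h3
        · rw [c3 s h1 h2 h3]
          exact hreach3 s (hHsub s hs) (hZ s h1 h2 h3)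
      · have h2 : s ∉ W₂ := fun h => h hs
        rw [c0 s h1]
        obtain ⟨_, _, _, a, ha, b, hb, hxa, hyb, hr⟩ := hR s h1 h2
        obtain ⟨t, ht, h5⟩ := ih _ (by omega) _ (hH s h1 h2 a ha b hb) rfl
        exact ⟨t, ht, ReflTransGen.head ⟨a, ha, b, hb, hxa, hyb, step0 s a b hxa⟩ h5⟩
  have hreach : ∀ p ∈ X, ∃ t ∈ Prod.fst ⁻¹' T₁ ∪ Prod.fst ⁻¹' T₂,
      ReflTransGen ((G.lift u).PStep x4 y4) p t := by
    rintro ⟨s, m⟩ hs
    rcases hs with ⟨h, h1, h2⟩ | ⟨h, h1⟩ | ⟨h, h1⟩ | ⟨h, h1, h2⟩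
    · simp only at h h1 h2
      subst h
      have := hreach0 _ s (hRH s h2) rfl
      rwa [c0 s h1] at this
    · simp only at h h1
      subst h
      exact hreach1 s h1
    · simp only at h h1
      subst h
      exact hreach2 s h1
    · simp only at h h1 h2
      subst h
      exact hreach3 s h1 h2
  refine ⟨_, _, nash_of_lift (u := u) (m₀ := cls s₀) (verify (G := G.lift u) hx4 hy4 (P₁ := P₁)
    (P₂ := P₂) hP10 hP20 ?_ ?_ ?_ ?_ ?_ (X := X) (hXc s₀ hs₀H) hXstep hreach)⟩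
  · rintro ⟨s, m⟩ (hs : s ∈ T₁)
    fin_cases m
    · change (1 : ℝ) ≤ if s ∈ W₁ ∨ s ∈ W₂ then 1 else f s
      split_ifs with h
      · exact le_rfl
      · push Not at h
        exact absurd (hT s (hRH s h.2) hs) h.1
    · exact (L_mem (G := G) hs).ge
    · exact hg1T s hs
    · exact (L_mem (G := G) hs).ge
  · rintro ⟨s, m⟩ (hs : s ∈ T₂)
    fin_cases m
    · change (1 : ℝ) ≤ if s ∈ W₁ ∨ s ∈ W₂ then 1 else 1 - f s
      split_ifs with h
      · exact le_rfl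
      · push Not at h
        exact absurd (hT' s (hRH s h.2) hs) h.1
    · exact hg2T s hs
    · exact (L_mem (G := G.swap) hs).ge
    · exact (L_mem (G := G.swap) hs).ge
  · rintro ⟨s, m⟩ (hs : s ∉ T₁) a ha
    fin_cases m
    · by_cases h : s ∈ W₁ ∨ s ∈ W₂
      · have e : P₁ (s, 0) = 1 := if_pos h
        change ∑ b ∈ G.act₂ s, ys s b * P₁ ((G.lift u).δ (s, 0) a b) ≤ P₁ (s, 0)
        rw [e]
        exact mix_le (hys s) fun b _ => hP1le _
      · have e : P₁ (s, 0) = f s := if_neg h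
        push Not at h
        obtain ⟨_, h3, h4, _⟩ := hR s h.1 h.2
        change ∑ b ∈ G.act₂ s, ys s b * P₁ ((G.lift u).δ (s, 0) a b) ≤ P₁ (s, 0)
        rw [e]
        by_cases hxa : 0 < xs s a
        · refine le_trans (Finset.sum_le_sum fun b hb =>
            mul_le_mul_of_nonneg_left ?_ ((hys s).1 b hb)) (h3 a ha hxa)
          rw [step0 s a b hxa]
          exact hP1c _ (hH s h.1 h.2 a ha b hb)
        · refine le_trans (le_of_eq (Finset.sum_congr rfl fun b hb => ?_)) (h4 a ha)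
          rw [step0' s a b hxa]
          rfl
    · exact hcy1 s hs a ha
    · exact hg1y s hs a ha
    · exact hc31 s hs a ha
  · rintro ⟨s, m⟩ (hs : s ∉ T₂) b hb
    fin_cases m
    · by_cases h : s ∈ W₁ ∨ s ∈ W₂
      · have e : P₂ (s, 0) = 1 := if_pos h
        change ∑ a ∈ G.act₁ s, xs s a * P₂ ((G.lift u).δ (s, 0) a b) ≤ P₂ (s, 0)
        rw [e]
        exact mix_le (hxs s) fun b _ => hP2le _
      · have e : P₂ (s, 0) = 1 - f s := if_neg h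
        push Not at h
        obtain ⟨h2, _, _, _⟩ := hR s h.1 h.2
        change ∑ a ∈ G.act₁ s, xs s a * P₂ ((G.lift u).δ (s, 0) a b) ≤ P₂ (s, 0)
        rw [e]
        have h3 : ∑ a ∈ G.act₁ s, xs s a * P₂ ((G.lift u).δ (s, 0) a b) ≤
            ∑ a ∈ G.act₁ s, xs s a * (1 - f (G.δ s a b)) := by
          refine Finset.sum_le_sum fun a ha => ?_
          rcases ((hxs s).1 a ha).lt_or_eq with hxa | hxa
          · rw [step0 s a b hxa]
            exact mul_le_mul_of_nonneg_left (hP2c _ (hH s h.1 h.2 a ha b hb)) hxa.le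
          · rw [← hxa]; simp
        refine h3.trans ?_
        simp only [mul_sub, mul_one, Finset.sum_sub_distrib, (hxs s).2]
        have := h2 b hb
        linarith
    · exact hg2x s hs b hb
    · exact hcx2 s hs b hb
    · exact hc32 s hs b hb
  · have h1 := hP1c s₀ hs₀H
    have h2 := hP2c s₀ hs₀H
    linarith

/-- An equilibrium from `s₀` if `s₀` is doubly stuck or no doubly stuck state is reached from `s₀`
through undecided states. -/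
theorem undec [Finite S] (G : Game S A B) (T₁ T₂ : Set S) (s₀ : S)
    (h : G.DStuck T₁ T₂ s₀ ∨
      ∀ s, ReflTransGen (G.UndStep T₁ T₂) s₀ s → ¬ G.DStuck T₁ T₂ s) :
    ∃ σ τ, G.IsNash T₁ T₂ s₀ σ τ := by
  by_cases hb : G.VisitsBoth T₁ T₂ s₀
  · exact path_case hb
  rcases h with h | h
  · exact zero_case h.1.1 (by rw [val₂_eq]; exact h.2.1)
  · exact undec_aux hb h

end Game

end Pool.Agent.H95.NE
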